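import Pool.Agent.H580C.CH.T_MT
import Pool.Agent.H580C.CH.T_RD

/-!
Frobenius twist of a linear functional on a polynomial ring in two variables.
-/

set_option autoImplicit false

namespace Pool.Agent.H959Z.HH

open MvPolynomial Pool.Agent.Chud

variable {B : Type*} [Field B]

/-- quotient of the exponents by `p` -/
noncomputable def qd (p : ℕ) (s : Fin 2 →₀ ℕ) : Fin 2 →₀ ℕ :=
  Finsupp.equivFunOnFinite.symm (fun i => s i / p)

@[simp] theorem qd_apply (p : ℕ) (s : Fin 2 →₀ ℕ) (i : Fin 2) : qd p s i = s i / p := rfl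

open Classical in
/-- the Frobenius twist of a functional -/
noncomputable def fr (p : ℕ) (η : MvPolynomial (Fin 2) B →ₗ[B] B) :
    MvPolynomial (Fin 2) B →ₗ[B] B :=
  (basisMonomials (Fin 2) B).constr B
    (fun s => if ∀ i, p ∣ s i + 1 then (η (monomial (qd p s) 1)) ^ p else 0)

open Classical in
theorem fr_monomial (p : ℕ) (η : MvPolynomial (Fin 2) B →ₗ[B] B) (s : Fin 2 →₀ ℕ) (c : B) :
    fr p η (monomial s c) =
      c * (if ∀ i, p ∣ s i + 1 then (η (monomial (qd p s) 1)) ^ p else 0) := by
  have h1 : (monomial s c : MvPolynomial (Fin 2) B) = c • (basisMonomials (Fin 2) B s) := by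
    rw [coe_basisMonomials, smul_monomial, smul_eq_mul, mul_one]
  rw [h1, map_smul, smul_eq_mul]
  unfold fr
  rw [Module.Basis.constr_basis]

theorem fr_pderiv (p : ℕ) [CharP B p] (η : MvPolynomial (Fin 2) B →ₗ[B] B) (i : Fin 2)
    (h : MvPolynomial (Fin 2) B) : fr p η (pderiv i h) = 0 := by
  induction h using MvPolynomial.induction_on' with
  | add a b ha hb => rw [map_add, map_add, ha, hb, add_zero]
  | monomial s c =>
    rw [pderiv_monomial, fr_monomial]
    split_ifs with hc
    · by_cases h0 : s i = 0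
      · simp [h0]
      · have h1 := hc i
        have h2 : (s - Finsupp.single i 1 : Fin 2 →₀ ℕ) i + 1 = s i := by
          simp only [Finsupp.coe_tsub, Pi.sub_apply, Finsupp.single_eq_same]
          omega
        rw [h2] at h1
        have h3 : ((s i : ℕ) : B) = 0 := (CharP.cast_eq_zero_iff B p _).2 h1
        rw [h3]; simp
    · simp

theorem fr_pow_mul (p : ℕ) [hp : Fact p.Prime] [CharP B p] (η : MvPolynomial (Fin 2) B →ₗ[B] B)
    (g h : MvPolynomial (Fin 2) B) :
    fr p η (g ^ p * h) = fr p (η ∘ₗ LinearMap.mulLeft B g) h := by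
  have hp0 : 0 < p := hp.out.pos
  induction h using MvPolynomial.induction_on' with
  | add a b ha hb => rw [mul_add, map_add, map_add, ha, hb]
  | monomial s c =>
    induction g using MvPolynomial.induction_on' with
    | add a b ha hb =>
      rw [add_pow_char, add_mul, map_add, ha, hb, fr_monomial, fr_monomial, fr_monomial]
      split_ifs
      · simp only [LinearMap.coe_comp, Function.comp_apply, LinearMap.mulLeft_apply]
        rw [add_mul, map_add, add_pow_char, mul_add]
      · simp
    | monomial u a =>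
      rw [monomial_pow, monomial_mul, fr_monomial, fr_monomial]
      have h1 : (∀ i, p ∣ (p • u + s : Fin 2 →₀ ℕ) i + 1) ↔ ∀ i, p ∣ s i + 1 := by
        refine forall_congr' fun i => ?_
        simp only [Finsupp.coe_add, Finsupp.coe_smul, Pi.add_apply, Pi.smul_apply, smul_eq_mul]
        rw [add_assoc]
        exact (Nat.dvd_add_iff_right (Dvd.intro _ rfl)).symm
      have h2 : qd p (p • u + s) = u + qd p s := by
        ext i
        simp only [qd_apply, Finsupp.coe_add, Finsupp.coe_smul, Pi.add_apply, Pi.smul_apply,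
          smul_eq_mul]
        rw [Nat.mul_add_div hp0]
      by_cases hc : ∀ i, p ∣ s i + 1
      · rw [if_pos (h1.2 hc), if_pos hc, h2]
        simp only [LinearMap.coe_comp, Function.comp_apply, LinearMap.mulLeft_apply]
        rw [monomial_mul, mul_one]
        have h3 : (monomial (u + qd p s) a : MvPolynomial (Fin 2) B) =
            a • monomial (u + qd p s) 1 := by
          rw [smul_monomial, smul_eq_mul, mul_one]
        rw [h3, map_smul, smul_eq_mul, mul_pow]
        ring
      · rw [if_neg (fun h => hc (h1.1 h)), if_neg hc]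
        simp

theorem fr_zero (p : ℕ) [hp : Fact p.Prime] : fr p (0 : MvPolynomial (Fin 2) B →ₗ[B] B) = 0 := by
  apply LinearMap.ext
  intro h
  induction h using MvPolynomial.induction_on' with
  | add a b ha hb => rw [map_add, map_add, ha, hb]
  | monomial s c =>
    rw [fr_monomial]
    simp [hp.out.ne_zero]

theorem fr_kill (p : ℕ) [hp : Fact p.Prime] [CharP B p] (η : MvPolynomial (Fin 2) B →ₗ[B] B)
    (I : Ideal (MvPolynomial (Fin 2) B)) (hI : ∀ g ∈ I, η g = 0)
    (g : MvPolynomial (Fin 2) B) (hg : g ∈ I.map (frobenius (MvPolynomial (Fin 2) B) p)) :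
    fr p η g = 0 := by
  have key : ∀ h, fr p η (g * h) = 0 := by
    refine Submodule.span_induction (p := fun g _ => ∀ h, fr p η (g * h) = 0) ?_ ?_ ?_ ?_ hg
    · rintro _ ⟨x, hx, rfl⟩ h
      rw [frobenius_def, fr_pow_mul]
      have : η ∘ₗ LinearMap.mulLeft B x = 0 := by
        apply LinearMap.ext
        intro y
        exact hI _ (I.mul_mem_right y hx)
      rw [this, fr_zero]; rfl
    · intro h; simp
    · intro x y _ _ hx hy h
      rw [add_mul, map_add, hx, hy, add_zero]
    · intro a x _ hx h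
      rw [smul_eq_mul, mul_comm a x, mul_assoc]
      exact hx _
  simpa using key 1

theorem degree_two (s : Fin 2 →₀ ℕ) : s.degree = s 0 + s 1 := by
  rw [Finsupp.degree_eq_sum, Fin.sum_univ_two]

theorem sum_two (s : Fin 2 →₀ ℕ) : (s.sum fun _ e => e) = s 0 + s 1 := by
  rw [Finsupp.sum_fintype _ _ (fun _ => rfl), Fin.sum_univ_two]

theorem deg_le_of_mem {h : MvPolynomial (Fin 2) B} {s : Fin 2 →₀ ℕ} (hs : s ∈ h.support) :
    s 0 + s 1 ≤ h.totalDegree := by
  rw [← sum_two]; exact le_totalDegree hs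

theorem fr_low (p k : ℕ) [hp : Fact p.Prime] (η : MvPolynomial (Fin 2) B →ₗ[B] B)
    (hη : ∀ s : Fin 2 →₀ ℕ, s 0 + s 1 ≤ k → η (monomial s 1) = 0)
    (h : MvPolynomial (Fin 2) B) (hh : h.totalDegree + 2 < p * (k + 3)) : fr p η h = 0 := by
  rw [h.as_sum, map_sum]
  refine Finset.sum_eq_zero fun s hs => ?_
  rw [fr_monomial]
  split_ifs with hc
  · have h1 := deg_le_of_mem hs
    obtain ⟨a, ha⟩ := hc 0
    obtain ⟨b, hb⟩ := hc 1
    have hp0 : 0 < p := hp.out.pos
    have e : ∀ x c : ℕ, x + 1 = p * c → x / p + 1 = c := by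
      intro x c hx
      have hc1 : 1 ≤ c := by
        rcases Nat.eq_zero_or_pos c with h0 | h0
        · subst h0; simp at hx
        · exact h0
      obtain ⟨c', rfl⟩ : ∃ c', c = c' + 1 := ⟨c - 1, by omega⟩
      have : x = p * c' + (p - 1) := by
        rw [mul_add, mul_one] at hx; omega
      rw [this, Nat.mul_add_div hp0, Nat.div_eq_of_lt (by omega)]
    have ea := e _ _ ha
    have eb := e _ _ hb
    have h2 : p * (a + b) < p * (k + 3) := by rw [mul_add]; omega
    have h3 : a + b < k + 3 := Nat.lt_of_mul_lt_mul_left h2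
    rw [hη (qd p s) (by simp only [qd_apply]; omega), zero_pow hp.out.ne_zero, mul_zero]
  · simp

theorem fr_ne_zero (p : ℕ) [hp : Fact p.Prime] (η : MvPolynomial (Fin 2) B →ₗ[B] B)
    (hη : η ≠ 0) : fr p η ≠ 0 := by
  intro h0
  apply hη
  apply (basisMonomials (Fin 2) B).ext
  intro u
  rw [coe_basisMonomials]
  have hp0 : 0 < p := hp.out.pos
  let s : Fin 2 →₀ ℕ := Finsupp.equivFunOnFinite.symm (fun i => p * u i + (p - 1))
  have hs : ∀ i, s i = p * u i + (p - 1) := fun i => rfl
  have h1 : fr p η (monomial s 1) = 0 := by rw [h0]; rfl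
  rw [fr_monomial, if_pos, one_mul] at h1
  · have h2 : qd p s = u := by
      ext i
      rw [qd_apply, hs, Nat.mul_add_div hp0, Nat.div_eq_of_lt (by omega), add_zero]
    rw [h2] at h1
    simpa using pow_eq_zero_iff (hp.out.ne_zero) |>.1 h1
  · intro i
    rw [hs]
    exact ⟨u i + 1, by rw [mul_add, mul_one]; omega⟩

theorem span_pair_pow_le {A : Type*} [CommRing A] (a b : A) (p n N : ℕ) (hp : 0 < p)
    (hN : (n + 1) * p ≤ N + 1) :
    Ideal.span {a, b} ^ N ≤ Ideal.span {a ^ p, b ^ p} ^ n := by
  rw [Ideal.span_insert, ← Ideal.add_eq_sup, add_pow]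
  refine Finset.sum_induction _ (fun I : Ideal A => I ≤ Ideal.span {a ^ p, b ^ p} ^ n)
    (fun I J hI hJ => by rw [Ideal.add_eq_sup]; exact sup_le hI hJ) (by simp) ?_
  intro i hi
  have hi' : i ≤ N := by simpa [Nat.lt_succ_iff] using hi
  refine le_trans Ideal.mul_le_left ?_
  have e : ∀ (x : A) (j : ℕ), x ^ p ∈ Ideal.span {a ^ p, b ^ p} →
      Ideal.span {x} ^ j ≤ Ideal.span {a ^ p, b ^ p} ^ (j / p) := by
    intro x j hx
    rw [Ideal.span_singleton_pow, Ideal.span_singleton_le_iff_mem]
    have : x ^ j = (x ^ p) ^ (j / p) * x ^ (j % p) := by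
      rw [← pow_mul, ← pow_add, Nat.div_add_mod]
    rw [this]
    exact Ideal.mul_mem_right _ _ (Ideal.pow_mem_pow hx _)
  refine le_trans (Ideal.mul_mono (e a i (Ideal.subset_span (by simp)))
    (e b (N - i) (Ideal.subset_span (by simp)))) ?_
  rw [← pow_add]
  apply Ideal.pow_le_pow_right
  have h1 := Nat.div_add_mod i p
  have h2 := Nat.div_add_mod (N - i) p
  have h3 := Nat.mod_lt i hp
  have h4 := Nat.mod_lt (N - i) hp
  by_contra hlt
  have h5 : i / p + (N - i) / p + 1 ≤ n := by omega
  have h6 : p * (i / p + (N - i) / p + 1) ≤ p * n := Nat.mul_le_mul_left p h5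
  rw [mul_add, mul_add, mul_one] at h6
  rw [add_mul, one_mul, mul_comm n p] at hN
  omega

theorem mI_eq_span (c : Fin 2 → B) :
    mI c = Ideal.span {X 0 - C (c 0), X 1 - C (c 1)} := by
  apply le_antisymm
  · have key : ∀ g : MvPolynomial (Fin 2) B,
        g - C (eval c g) ∈ Ideal.span {X 0 - C (c 0), X 1 - C (c 1)} := by
      intro g
      induction g using MvPolynomial.induction_on with
      | C a => simp
      | add a b ha hb =>
        have : a + b - C (eval c (a + b)) = (a - C (eval c a)) + (b - C (eval c b)) := by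
          rw [map_add, map_add]; ring
        rw [this]; exact Ideal.add_mem _ ha hb
      | mul_X a i ha =>
        have : a * X i - C (eval c (a * X i)) =
            (a - C (eval c a)) * X i + C (eval c a) * (X i - C (c i)) := by
          rw [map_mul, map_mul, eval_X]; ring
        rw [this]
        refine Ideal.add_mem _ (Ideal.mul_mem_right _ _ ha) (Ideal.mul_mem_left _ _ ?_)
        apply Ideal.subset_span
        fin_cases i <;> simp
    intro g hg
    have h1 := key g
    have h2 : eval c g = 0 := hg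
    rwa [h2, map_zero, sub_zero] at h1
  · rw [Ideal.span_le]
    intro g hg
    simp only [Set.mem_insert_iff, Set.mem_singleton_iff] at hg
    rcases hg with rfl | rfl <;> simp [mI]

theorem mI_pow_le_frob (p : ℕ) [hp : Fact p.Prime] [CharP B p] (c : Fin 2 → B) (n N : ℕ)
    (hN : (n + 1) * p ≤ N + 1) :
    mI c ^ N ≤ (mI c ^ n).map (frobenius (MvPolynomial (Fin 2) B) p) := by
  rw [Ideal.map_pow, mI_eq_span, Ideal.map_span, Set.image_insert_eq, Set.image_singleton,
    frobenius_def, frobenius_def]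
  exact span_pair_pow_le _ _ p n N hp.out.pos hN

theorem mI_isMaximal {σ : Type*} (c : σ → B) : (mI c).IsMaximal := by
  unfold mI
  apply RingHom.ker_isMaximal_of_surjective
  intro a
  exact ⟨C a, by simp⟩

theorem mI_coprime {σ : Type*} {c c' : σ → B} (h : c ≠ c') (n n' : ℕ) :
    IsCoprime (mI c ^ n) (mI c' ^ n') := by
  have h1 := mI_isMaximal c
  have h2 := mI_isMaximal c'
  refine IsCoprime.pow (Ideal.isCoprime_of_isMaximal ?_)
  intro he
  apply h
  funext i
  have h3 : X i - C (c i) ∈ mI c := by simp [mI]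
  rw [he] at h3
  have h4 : c' i - c i = 0 := by simpa [mI] using h3
  exact (sub_eq_zero.1 h4).symm

theorem mem_prod_iff {σ ι : Type*} [Fintype ι] (c : ι → σ → B) (hc : Function.Injective c)
    (n : ι → ℕ) (g : MvPolynomial σ B) :
    g ∈ ∏ i, mI (c i) ^ n i ↔ ∀ i, g ∈ mI (c i) ^ n i := by
  rw [Ideal.prod_eq_iInf_of_pairwise_isCoprime]
  · simp
  · intro i _ j _ hij
    exact mI_coprime (fun h => hij (hc h)) _ _

end Pool.Agent.H959Z.HH
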