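import Pool.Agent.H959Z.HH1

/-!
The vanishing statement in large positive characteristic.
-/

set_option autoImplicit false

namespace Pool.Agent.H959Z.HH

open MvPolynomial Pool.Agent.Chud

variable {B : Type*} [Field B]

theorem totalDegree_monomial_two (s : Fin 2 →₀ ℕ) (c : B) :
    (monomial s c : MvPolynomial (Fin 2) B).totalDegree ≤ s 0 + s 1 := by
  rw [← sum_two]; exact totalDegree_monomial_le s c

theorem vanish_of_cert (ξ : MvPolynomial (Fin 2) B →ₗ[B] B) (f g : MvPolynomial (Fin 2) B) (E : ℕ)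
    (hf : ∀ h, ξ (f * h) = 0) (hg : ∀ h, ξ (g * h) = 0)
    (cert : ∀ w : Fin 2, ∃ ρ α β : MvPolynomial (Fin 2) B,
      ρ.totalDegree < E ∧ X w ^ E = ρ + f * α + g * β)
    (hlow : ∀ h : MvPolynomial (Fin 2) B, h.totalDegree ≤ 2 * E → ξ h = 0)
    (h : MvPolynomial (Fin 2) B) : ξ h = 0 := by
  have key : ∀ n, ∀ h : MvPolynomial (Fin 2) B, h.totalDegree ≤ n → ξ h = 0 := by
    intro n
    induction n using Nat.strong_induction_on with
    | _ n ih =>
      intro h hh
      rw [h.as_sum, map_sum]
      refine Finset.sum_eq_zero fun s hs => ?_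
      have h1 := deg_le_of_mem hs
      by_cases h2 : s 0 + s 1 ≤ 2 * E
      · exact hlow _ ((totalDegree_monomial_two s _).trans h2)
      · obtain ⟨w, hw⟩ : ∃ w : Fin 2, E ≤ s w := by
          by_contra hc
          push Not at hc
          have := hc 0
          have := hc 1
          omega
        obtain ⟨ρ, α, β, hρ, he⟩ := cert w
        have h3 : (monomial s (coeff s h) : MvPolynomial (Fin 2) B) =
            monomial (s - Finsupp.single w E) (coeff s h) * X w ^ E := by
          rw [X_pow_eq_monomial, monomial_mul, mul_one, tsub_add_cancel_of_le]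
          exact Finsupp.single_le_iff.2 hw
        have h4 : (monomial (s - Finsupp.single w E) (coeff s h) :
            MvPolynomial (Fin 2) B).totalDegree + E ≤ s 0 + s 1 := by
          have h5 := totalDegree_monomial_two (s - Finsupp.single w E) (coeff s h)
          have h6 : (s - Finsupp.single w E : Fin 2 →₀ ℕ) 0 + (s - Finsupp.single w E : Fin 2 →₀ ℕ) 1
              + E = s 0 + s 1 := by
            fin_cases w
            · simp at hw ⊢; omega
            · simp at hw ⊢; omega
          omega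
        rw [h3, he, mul_add, mul_add, map_add, map_add, mul_left_comm _ f, mul_left_comm _ g, hf,
          hg, add_zero, add_zero]
        have h7 := totalDegree_mul (monomial (s - Finsupp.single w E) (coeff s h)) ρ
        exact ih (n - 1) (by omega) _ (by omega)
  exact key _ h le_rfl

theorem mul_deriv_pow {A : Type*} [CommRing A] [Algebra B A] (D : Derivation B A A) (f : A)
    (b : ℕ) : f * D (f ^ b) = b * f ^ b * D f := by
  rw [Derivation.leibniz_pow]
  cases b with
  | zero => simp
  | succ b =>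
    simp only [Nat.add_sub_cancel, nsmul_eq_mul, smul_eq_mul]
    ring

theorem prod_dvd_deriv {A J : Type*} [CommRing A] [Algebra B A] (D : Derivation B A A)
    (s : Finset J) (f : J → A) (b : J → ℕ) :
    (∏ k ∈ s, f k ^ b k) ∣ (∏ k ∈ s, f k) * D (∏ k ∈ s, f k ^ b k) := by
  classical
  induction s using Finset.induction_on with
  | empty => simp
  | insert a s ha ih =>
    rw [Finset.prod_insert ha, Finset.prod_insert ha, Derivation.leibniz, smul_eq_mul, smul_eq_mul]
    obtain ⟨w, hw⟩ := ih
    refine ⟨f a * w + (∏ k ∈ s, f k) * (b a * D (f a)), ?_⟩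
    have h1 := mul_deriv_pow D (f a) (b a)
    calc f a * (∏ k ∈ s, f k) * (f a ^ b a * D (∏ k ∈ s, f k ^ b k) +
          (∏ k ∈ s, f k ^ b k) * D (f a ^ b a))
        = f a * f a ^ b a * ((∏ k ∈ s, f k) * D (∏ k ∈ s, f k ^ b k)) +
          (∏ k ∈ s, f k) * (∏ k ∈ s, f k ^ b k) * (f a * D (f a ^ b a)) := by ring
      _ = _ := by rw [hw, h1]; ring

theorem core (p : ℕ) [hp : Fact p.Prime] [CharP B p] {ι J : Type*} [Fintype ι] [Fintype J]
    [DecidableEq J] (c : ι → Fin 2 → B) (hc : Function.Injective c) (n : ι → ℕ) (r k d E : ℕ)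
    (f : J → MvPolynomial (Fin 2) B) (e δ : J → ℕ) (v : J → Fin 2)
    (hr : 1 ≤ r) (he : ∀ j, e j < r) (hδ : ∀ j, (f j).totalDegree ≤ δ j)
    (hd : ∑ j, e j * δ j ≤ d) (hk : d < r * (k + 3))
    (hmem : ∀ i, ∏ j, f j ^ e j ∈ mI (c i) ^ (r * (n i + 1)))
    (cert : ∀ j, ∀ w : Fin 2, ∃ ρ α β : MvPolynomial (Fin 2) B, ρ.totalDegree < E ∧
      X w ^ E = ρ + f j * α + (pderiv (v j) (f j) * ∏ l ∈ Finset.univ.erase j, f l) * β)
    (hpl : r * (2 * E + 3 + d + r) < p)
    (η : MvPolynomial (Fin 2) B →ₗ[B] B)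
    (hη1 : ∀ g, (∀ i, g ∈ mI (c i) ^ n i) → η g = 0)
    (hη2 : ∀ s : Fin 2 →₀ ℕ, s 0 + s 1 ≤ k → η (monomial s 1) = 0) : η = 0 := by
  classical
  by_contra hne
  have hθ := fr_ne_zero p η hne
  set θ := fr p η with hθdef
  set a := p / r + 1 with ha
  have ha1 : p < r * a := by
    rw [ha, mul_add, mul_one]
    have := Nat.div_add_mod p r
    have := Nat.mod_lt p (show 0 < r by omega)
    omega
  have ha2 : r * a ≤ p + r := by
    rw [ha, mul_add, mul_one]
    have := Nat.div_add_mod p r
    omega
  have ha3 : r < a := by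
    have h1 : r * r < r * a := by
      have : r * r ≤ r * (2 * E + 3 + d + r) := Nat.mul_le_mul_left r (by omega)
      omega
    exact Nat.lt_of_mul_lt_mul_left h1
  -- the top exponent kills
  have htop : ∀ h, θ ((∏ j, f j ^ (a * e j)) * h) = 0 := by
    intro h
    apply fr_kill p η (∏ i, mI (c i) ^ n i)
    · intro g hg
      exact hη1 g ((mem_prod_iff c hc n g).1 hg)
    · apply Ideal.mul_mem_right
      have h1 : (∏ j, f j ^ (a * e j)) ∈ ∏ i, mI (c i) ^ (r * (n i + 1) * a) := by
        rw [mem_prod_iff c hc]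
        intro i
        have h2 : (∏ j, f j ^ (a * e j)) = (∏ j, f j ^ e j) ^ a := by
          rw [← Finset.prod_pow]
          refine Finset.prod_congr rfl fun j _ => ?_
          rw [← pow_mul, mul_comm]
        rw [h2, pow_mul]
        exact Ideal.pow_mem_pow (hmem i) a
      have h3 : (∏ i, mI (c i) ^ n i).map (frobenius (MvPolynomial (Fin 2) B) p) =
          ∏ i, (mI (c i) ^ n i).map (frobenius (MvPolynomial (Fin 2) B) p) :=
        map_prod (Ideal.mapHom (frobenius (MvPolynomial (Fin 2) B) p)) _ _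
      rw [h3]
      refine (Finset.prod_le_prod' fun i _ => ?_ : ∏ i, mI (c i) ^ (r * (n i + 1) * a) ≤ _) h1
      apply mI_pow_le_frob
      have : (n i + 1) * p ≤ (n i + 1) * (r * a) := Nat.mul_le_mul_left _ ha1.le
      calc (n i + 1) * p ≤ (n i + 1) * (r * a) := this
        _ = r * (n i + 1) * a := by ring
        _ ≤ _ := Nat.le_succ _
  -- a maximal exponent which does not kill
  let S : Finset (J → ℕ) := (Fintype.piFinset fun j => Finset.range (a * e j + 1)).filter
    fun b => ∃ h, θ ((∏ j, f j ^ b j) * h) ≠ 0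
  have hS : ∀ b, b ∈ S ↔ (∀ j, b j ≤ a * e j) ∧ ∃ h, θ ((∏ j, f j ^ b j) * h) ≠ 0 := by
    intro b
    simp only [S, Finset.mem_filter, Fintype.mem_piFinset, Finset.mem_range, Nat.lt_succ_iff]
  have hS0 : S.Nonempty := by
    refine ⟨0, (hS 0).2 ⟨fun j => Nat.zero_le _, ?_⟩⟩
    by_contra hcon
    push Not at hcon
    apply hθ
    apply LinearMap.ext
    intro h
    simpa using hcon h
  obtain ⟨b, hb, hmax⟩ := Finset.exists_max_image S (fun b => ∑ j, b j) hS0
  obtain ⟨hb1, h₀, hb2⟩ := (hS b).1 hb
  obtain ⟨j, hj⟩ : ∃ j, b j < a * e j := by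
    by_contra hcon
    push Not at hcon
    have : b = fun j => a * e j := funext fun j => le_antisymm (hb1 j) (hcon j)
    apply hb2
    rw [this]
    exact htop h₀
  set P := ∏ l ∈ Finset.univ.erase j, f l ^ b l with hP
  have hF : ∏ l, f l ^ b l = f j ^ b j * P := by
    rw [hP, Finset.mul_prod_erase _ (fun l => f l ^ b l) (Finset.mem_univ j)]
  have hG : ∀ h, θ (f j ^ (b j + 1) * P * h) = 0 := by
    intro h
    by_contra hcon
    have h1 : Function.update b j (b j + 1) ∈ S := by
      rw [hS]
      constructor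
      · intro l
        by_cases hl : l = j
        · subst hl; rw [Function.update_self]; omega
        · rw [Function.update_of_ne hl]; exact hb1 l
      · refine ⟨h, ?_⟩
        have h2 : ∏ l, f l ^ Function.update b j (b j + 1) l = f j ^ (b j + 1) * P := by
          rw [← Finset.mul_prod_erase _ (fun l => f l ^ Function.update b j (b j + 1) l)
            (Finset.mem_univ j), Function.update_self, hP]
          congr 1
          refine Finset.prod_congr rfl fun l hl => ?_
          rw [Function.update_of_ne (Finset.ne_of_mem_erase hl)]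
        rwa [h2]
    have h3 := hmax _ h1
    rw [Finset.sum_update_of_mem (Finset.mem_univ j),
      ← Finset.add_sum_erase _ b (Finset.mem_univ j), Finset.sdiff_singleton_eq_erase] at h3
    omega
  have hDG : ∀ h, θ (pderiv (v j) (f j ^ (b j + 1) * P) * h) = 0 := by
    intro h
    have h1 := fr_pderiv p η (v j) (f j ^ (b j + 1) * P * h)
    rw [Derivation.leibniz, smul_eq_mul, smul_eq_mul, map_add, ← hθdef, hG, zero_add,
      mul_comm h] at h1
    exact h1
  have hunit : ((b j + 1 : ℕ) : B) ≠ 0 := by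
    intro h0
    have h1 := (CharP.cast_eq_zero_iff B p _).1 h0
    have h2 := Nat.le_of_dvd (by omega) h1
    have h3 : a * e j ≤ a * (r - 1) := Nat.mul_le_mul_left a (by have := he j; omega)
    have h4 : a * (r - 1) + a = r * a := by
      obtain ⟨r', rfl⟩ : ∃ r', r = r' + 1 := ⟨r - 1, by omega⟩
      simp only [Nat.add_sub_cancel]; ring
    omega
  let ξ : MvPolynomial (Fin 2) B →ₗ[B] B := θ ∘ₗ LinearMap.mulLeft B (∏ l, f l ^ b l)
  have hξ : ∀ h, ξ h = θ ((∏ l, f l ^ b l) * h) := fun h => rfl
  apply hb2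
  rw [← hξ]
  refine vanish_of_cert ξ (f j) (pderiv (v j) (f j) * ∏ l ∈ Finset.univ.erase j, f l) E ?_ ?_
    (cert j) ?_ h₀
  · intro h
    rw [hξ, hF, ← hG h]
    congr 1
    ring
  · intro h
    obtain ⟨w, hw⟩ := prod_dvd_deriv (pderiv (v j)) (Finset.univ.erase j) f b
    rw [← hP] at hw
    set Q := ∏ l ∈ Finset.univ.erase j, f l with hQ
    have h1 : pderiv (v j) (f j ^ (b j + 1) * P) * (Q * h) =
        f j ^ (b j + 1) * P * (w * h) +
          ((b j + 1 : ℕ) : B) • ((∏ l, f l ^ b l) * (pderiv (v j) (f j) * Q * h)) := by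
      rw [Derivation.leibniz, Derivation.leibniz_pow, hF, smul_eq_mul, smul_eq_mul, smul_eq_mul,
        Nat.add_sub_cancel, nsmul_eq_mul, Algebra.smul_def, map_natCast]
      calc _ = f j ^ (b j + 1) * (Q * pderiv (v j) P) * h + P * (((b j + 1 : ℕ) :
            MvPolynomial (Fin 2) B) * (f j ^ b j * pderiv (v j) (f j))) * (Q * h) := by ring
        _ = _ := by rw [hw]; ring
    have h2 := hDG (Q * h)
    rw [h1, map_add, hG, zero_add, map_smul, smul_eq_mul] at h2
    rw [hξ]
    exact (mul_eq_zero.1 h2).resolve_left hunit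
  · intro h hh
    rw [hξ]
    apply fr_low p k η hη2
    have h1 := totalDegree_mul (∏ l, f l ^ b l) h
    have h2 : (∏ l, f l ^ b l).totalDegree ≤ a * d := by
      refine (totalDegree_finsetProd _ _).trans ?_
      refine le_trans ?_ (Nat.mul_le_mul_left a hd)
      rw [Finset.mul_sum]
      refine Finset.sum_le_sum fun l _ => ?_
      refine (totalDegree_pow _ _).trans ?_
      rw [← mul_assoc]
      exact Nat.mul_le_mul (hb1 l) (hδ l)
    have h3 : r * (a * d + 2 * E + 2) < r * (p * (k + 3)) := by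
      have h4 : r * a * d ≤ (p + r) * d := Nat.mul_le_mul_right d ha2
      have h5 : p * (d + 1) ≤ p * (r * (k + 3)) := Nat.mul_le_mul_left p hk
      nlinarith
    have h6 := Nat.lt_of_mul_lt_mul_left h3
    omega

end Pool.Agent.H959Z.HH
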