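import Pool.Agent.H959Z.HH2

/-!
Elimination certificates for two coprime plane curves, and factorisations.
-/

set_option autoImplicit false

namespace Pool.Agent.H959Z.HH

open MvPolynomial Pool.Agent.Chud

variable {K : Type*} [Field K]

theorem totalDegree_aeval_X (w : Fin 2) (z : Polynomial K) :
    (Polynomial.aeval (X w : MvPolynomial (Fin 2) K) z).totalDegree ≤ z.natDegree := by
  rw [Polynomial.aeval_eq_sum_range]
  refine totalDegree_finsetSum_le fun i hi => ?_
  refine (totalDegree_smul_le _ _).trans ?_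
  rw [totalDegree_X_pow]
  simpa [Nat.lt_succ_iff] using hi

theorem exists_univ (f g : MvPolynomial (Fin 2) K) (hf : Prime f) (hg : ¬ f ∣ g) (w w' : Fin 2)
    (hne : w' ≠ w) (hall : ∀ i, i = w ∨ i = w') :
    ∃ u : Polynomial K, u ≠ 0 ∧ ∃ α β : MvPolynomial (Fin 2) K,
      Polynomial.aeval (X w : MvPolynomial (Fin 2) K) u = f * α + g * β := by
  classical
  let I : Ideal (MvPolynomial (Fin 2) K) := Ideal.span {f}
  haveI hI : I.IsPrime := (Ideal.span_singleton_prime hf.ne_zero).2 hf
  let mk : MvPolynomial (Fin 2) K →ₐ[K] (MvPolynomial (Fin 2) K ⧸ I) := Ideal.Quotient.mkₐ K I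
  letI alg : Algebra (Polynomial K) (MvPolynomial (Fin 2) K ⧸ I) :=
    (Polynomial.aeval (mk (X w)) : Polynomial K →ₐ[K] _).toRingHom.toAlgebra
  have halg : ∀ u : Polynomial K, algebraMap (Polynomial K) (MvPolynomial (Fin 2) K ⧸ I) u =
      mk (Polynomial.aeval (X w : MvPolynomial (Fin 2) K) u) := by
    intro u
    rw [← Polynomial.aeval_algHom_apply]
    rfl
  let ψ : MvPolynomial (Fin 2) K →ₐ[K] Polynomial (Polynomial K) :=
    aeval (fun i => if i = w then Polynomial.C Polynomial.X else Polynomial.X)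
  let φ : Polynomial (Polynomial K) →+* MvPolynomial (Fin 2) K :=
    Polynomial.eval₂RingHom
      (Polynomial.aeval (X w : MvPolynomial (Fin 2) K) : Polynomial K →ₐ[K] _).toRingHom (X w')
  have hψC : ∀ a : K, ψ (C a) = Polynomial.C (Polynomial.C a) := by
    intro a
    simp only [ψ, aeval_C]
    rfl
  have hψw : ψ (X w) = Polynomial.C Polynomial.X := by simp [ψ]
  have hψw' : ψ (X w') = Polynomial.X := by simp [ψ, hne]
  have hφψ : ∀ h, φ (ψ h) = h := by
    intro h
    induction h using MvPolynomial.induction_on with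
    | C a => rw [hψC]; simp [φ]
    | add a b ha hb => rw [map_add, map_add, ha, hb]
    | mul_X a i ha =>
      rw [map_mul, map_mul, ha]
      rcases hall i with rfl | rfl
      · rw [hψw]; simp [φ]
      · rw [hψw']; simp [φ]
  have haev : ∀ h, Polynomial.aeval (mk (X w')) (ψ h) = mk h := by
    intro h
    induction h using MvPolynomial.induction_on with
    | C a => rw [hψC, Polynomial.aeval_C, halg, Polynomial.aeval_C]; rfl
    | add a b ha hb => rw [map_add, map_add, map_add, ha, hb]
    | mul_X a i ha =>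
      rw [map_mul, map_mul, map_mul, ha]
      rcases hall i with rfl | rfl
      · rw [hψw, Polynomial.aeval_C, halg, Polynomial.aeval_X]
      · rw [hψw', Polynomial.aeval_X]
  have hmk0 : ∀ h, mk h = 0 ↔ f ∣ h := by
    intro h
    rw [← Ideal.mem_span_singleton]
    exact Ideal.Quotient.eq_zero_iff_mem
  have hw' : IsAlgebraic (Polynomial K) (mk (X w')) := by
    refine ⟨ψ f, ?_, ?_⟩
    · intro h0
      have := hφψ f
      rw [h0, map_zero] at this
      exact hf.ne_zero this.symm
    · rw [haev, hmk0]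
  have hallalg : ∀ h, IsAlgebraic (Polynomial K) (mk h) := by
    intro h
    induction h using MvPolynomial.induction_on with
    | C a =>
      have : mk (C a) = algebraMap (Polynomial K) _ (Polynomial.C a) := by
        rw [halg, Polynomial.aeval_C]; rfl
      rw [this]; exact isAlgebraic_algebraMap _
    | add a b ha hb => rw [map_add]; exact ha.add hb
    | mul_X a i ha =>
      rw [map_mul]
      refine ha.mul ?_
      rcases hall i with rfl | rfl
      · have : mk (X i) = algebraMap (Polynomial K) _ Polynomial.X := by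
          rw [halg, Polynomial.aeval_X]
        rw [this]; exact isAlgebraic_algebraMap _
      · exact hw'
  have hg0 : mk g ∈ nonZeroDivisors (MvPolynomial (Fin 2) K ⧸ I) := by
    rw [mem_nonZeroDivisors_iff_ne_zero]
    intro h0
    exact hg ((hmk0 g).1 h0)
  obtain ⟨u, hu, β', hβ'⟩ := (hallalg g).exists_nonzero_dvd hg0
  obtain ⟨β, rfl⟩ := Ideal.Quotient.mkₐ_surjective K I β'
  refine ⟨u, hu, ?_⟩
  have h1 : mk (Polynomial.aeval (X w : MvPolynomial (Fin 2) K) u - g * β) = 0 := by
    rw [map_sub, map_mul, ← halg, hβ', sub_self]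
  obtain ⟨α, hα⟩ := (hmk0 _).1 h1
  exact ⟨α, β, by rw [← hα]; ring⟩

theorem exists_cert (f g : MvPolynomial (Fin 2) K) (hf : Prime f) (hg : ¬ f ∣ g) (w : Fin 2) :
    ∃ E₀ : ℕ, ∀ E, E₀ ≤ E → ∃ ρ α β : MvPolynomial (Fin 2) K,
      ρ.totalDegree < E ∧ X w ^ E = ρ + f * α + g * β := by
  obtain ⟨w', hne, hall⟩ : ∃ w' : Fin 2, w' ≠ w ∧ ∀ i, i = w ∨ i = w' := by
    fin_cases w
    · exact ⟨1, by decide, by decide⟩
    · exact ⟨0, by decide, by decide⟩
  obtain ⟨u, hu, α, β, he⟩ := exists_univ f g hf hg w w' hne hall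
  refine ⟨u.natDegree + 1, fun E hE => ?_⟩
  set q : Polynomial K := Polynomial.X ^ (E - u.natDegree) * (u * Polynomial.C u.leadingCoeff⁻¹)
    with hq
  have hm : (u * Polynomial.C u.leadingCoeff⁻¹).Monic := Polynomial.monic_mul_leadingCoeff_inv hu
  have hqm : q.Monic := (Polynomial.monic_X_pow _).mul hm
  have hqd : q.natDegree = E := by
    rw [hq, (Polynomial.monic_X_pow _).natDegree_mul hm, Polynomial.natDegree_X_pow,
      Polynomial.natDegree_mul_leadingCoeff_inv _ hu]
    omega
  have hlt : (Polynomial.X ^ E - q).natDegree < E := by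
    by_cases h0 : Polynomial.X ^ E - q = 0
    · rw [h0, Polynomial.natDegree_zero]; omega
    · rw [Polynomial.natDegree_lt_iff_degree_lt h0]
      have h1 : (Polynomial.X ^ E : Polynomial K).degree = q.degree := by
        rw [Polynomial.degree_X_pow, Polynomial.degree_eq_natDegree hqm.ne_zero, hqd]
      have h2 := Polynomial.degree_sub_lt_left h1 (Polynomial.monic_X_pow E).ne_zero
        (by rw [(Polynomial.monic_X_pow E).leadingCoeff, hqm.leadingCoeff])
      rwa [Polynomial.degree_X_pow] at h2
  refine ⟨Polynomial.aeval (X w : MvPolynomial (Fin 2) K) (Polynomial.X ^ E - q),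
    α * (X w ^ (E - u.natDegree) * C u.leadingCoeff⁻¹),
    β * (X w ^ (E - u.natDegree) * C u.leadingCoeff⁻¹),
    (totalDegree_aeval_X w _).trans_lt hlt, ?_⟩
  rw [map_sub, hq, map_mul, map_mul, he, map_pow, map_pow, Polynomial.aeval_X, Polynomial.aeval_C,
    algebraMap_eq]
  ring

theorem exists_pderiv [CharZero K] (f : MvPolynomial (Fin 2) K) (hf : Prime f) :
    ∃ v : Fin 2, ¬ f ∣ pderiv v f := by
  have hd : 0 < f.totalDegree := by
    rcases Nat.eq_zero_or_pos f.totalDegree with h0 | h0
    · exfalso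
      rw [totalDegree_eq_zero_iff_eq_C] at h0
      apply hf.not_isUnit
      rw [h0]
      refine IsUnit.map C (IsUnit.mk0 _ ?_)
      intro h1
      apply hf.ne_zero
      rw [h0, h1, map_zero]
    · exact h0
  obtain ⟨s, hs, hsd⟩ : ∃ s ∈ f.support, 0 < s 0 + s 1 := by
    by_contra hcon
    push Not at hcon
    have : f.totalDegree ≤ 0 := by
      unfold totalDegree
      refine Finset.sup_le fun s hs => ?_
      rw [sum_two]; exact hcon s hs
    omega
  obtain ⟨v, hv⟩ : ∃ v : Fin 2, 1 ≤ s v := by
    by_contra hcon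
    push Not at hcon
    have := hcon 0
    have := hcon 1
    omega
  refine ⟨v, fun hdvd => ?_⟩
  have hne : pderiv v f ≠ 0 := by
    intro h0
    have h1 := coeff_pderiv (i := v) f (s - Finsupp.single v 1)
    rw [h0, coeff_zero, tsub_add_cancel_of_le (Finsupp.single_le_iff.2 hv)] at h1
    rcases mul_eq_zero.1 h1.symm with h2 | h2
    · exact (mem_support_iff.1 hs) h2
    · exact Nat.cast_add_one_ne_zero _ h2
  have h1 := totalDegree_le_of_dvd_of_isDomain hdvd hne
  have h2 : (pderiv v f).totalDegree ≤ f.totalDegree - 1 := by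
    unfold totalDegree
    refine Finset.sup_le fun t ht => ?_
    rw [sum_two]
    have h3 : t + Finsupp.single v 1 ∈ f.support := by
      rw [mem_support_iff] at ht ⊢
      intro h0
      apply ht
      rw [coeff_pderiv, h0, zero_mul]
    have h4 := deg_le_of_mem h3
    have h5 : (t + Finsupp.single v 1 : Fin 2 →₀ ℕ) 0 + (t + Finsupp.single v 1 : Fin 2 →₀ ℕ) 1 =
        t 0 + t 1 + 1 := by
      fin_cases v
      · simp; omega
      · simp; omega
    unfold totalDegree at h4
    omega
  omega

/-- factorisation into pairwise non-associated primes -/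
theorem exists_factorisation {A : Type*} [CommRing A] [IsDomain A] [UniqueFactorizationMonoid A]
    (f : A) (hf : f ≠ 0) :
    ∃ (S : Finset A) (e : A → ℕ) (u : A), IsUnit u ∧ (∀ x ∈ S, Prime x) ∧
      (∀ x ∈ S, ∀ y ∈ S, x ∣ y → x = y) ∧ f = u * ∏ x ∈ S, x ^ e x := by
  classical
  letI : StrongNormalizationMonoid A := UniqueFactorizationMonoid.strongNormalizationMonoid
  obtain ⟨u, hu⟩ := UniqueFactorizationMonoid.prod_normalizedFactors hf
  refine ⟨(UniqueFactorizationMonoid.normalizedFactors f).toFinset,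
    fun x => (UniqueFactorizationMonoid.normalizedFactors f).count x, u, u.isUnit, ?_, ?_, ?_⟩
  · intro x hx
    exact UniqueFactorizationMonoid.prime_of_normalized_factor x (Multiset.mem_toFinset.1 hx)
  · intro x hx y hy hxy
    exact UniqueFactorizationMonoid.normalizedFactors_eq_of_dvd f x (Multiset.mem_toFinset.1 hx) y
      (Multiset.mem_toFinset.1 hy) hxy
  · rw [← Finset.prod_multiset_count, mul_comm, hu]

end Pool.Agent.H959Z.HH
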