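import Pool.Agent.H959Z.HH3
import Pool.Agent.H580C.CH.T_TR

/-!
Transfer to characteristic zero: fat points on a curve of small degree without components of
large multiplicity impose independent conditions.
-/

set_option autoImplicit false

universe u

namespace Pool.Agent.H959Z.HH

open MvPolynomial Pool.Agent.Chud Pool.Agent.H580C

theorem exists_red {K : Type u} [Field K] [CharZero K] {P Q : Type*} [Fintype P] [Fintype Q]
    (F : P → MvPolynomial (Fin 2) K) (x : Q → K) (N : ℕ) :
    ∃ (p : ℕ) (_ : Fact p.Prime) (k : Type) (_ : Field k) (_ : CharP k p) (A : Type u)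
      (_ : CommRing A) (ι : A →+* K) (φ : A →+* k), Function.Injective ι ∧ N < p ∧
      (∀ a, ∃ F₀, map ι F₀ = F a) ∧ (∀ b, ∃ x₀ : A, ι x₀ = x b) ∧
      (∀ b, ∀ y : A, ι y = x b → x b ≠ 0 → φ y ≠ 0) := by
  classical
  set T : Finset K := (Finset.univ.biUnion fun a => (F a).coeffs) ∪
    (Finset.univ.image x ∪ Finset.univ.image fun b => (x b)⁻¹) with hT
  obtain ⟨p, hp, k, ik, -, ic, hN, ⟨φ⟩⟩ := t_RD K T N
  let A := Algebra.adjoin ℤ (T : Set K)
  have hTA : ∀ y ∈ T, y ∈ A := fun y hy => Algebra.subset_adjoin hy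
  let ι : A →+* K := A.val.toRingHom
  have hι : Function.Injective ι := Subtype.val_injective
  refine ⟨p, hp, k, ik, ic, A, inferInstance, ι, φ, hι, hN, ?_, ?_, ?_⟩
  · intro a
    apply (mem_range_map_iff_coeffs_subset (f := ι) (x := F a)).2
    intro y hy
    refine ⟨⟨y, hTA y ?_⟩, rfl⟩
    rw [hT]
    exact Finset.mem_union_left _ (Finset.mem_biUnion.2 ⟨a, Finset.mem_univ _, hy⟩)
  · intro b
    refine ⟨⟨x b, hTA _ ?_⟩, rfl⟩
    rw [hT]
    exact Finset.mem_union_right _ (Finset.mem_union_left _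
      (Finset.mem_image.2 ⟨b, Finset.mem_univ _, rfl⟩))
  · intro b y hy hb h0
    have h1 : (x b)⁻¹ ∈ A := by
      apply hTA
      rw [hT]
      exact Finset.mem_union_right _ (Finset.mem_union_right _
        (Finset.mem_image.2 ⟨b, Finset.mem_univ _, rfl⟩))
    have e : y * ⟨(x b)⁻¹, h1⟩ = 1 := by
      apply hι
      rw [map_mul, hy, map_one]
      exact mul_inv_cancel₀ hb
    have e2 := congrArg φ e
    rw [map_mul, h0, zero_mul, map_one] at e2
    exact zero_ne_one e2

theorem totalDegree_red {A K k : Type*} [CommRing A] [CommRing K] [CommRing k] (ι : A →+* K)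
    (φ : A →+* k) (hι : Function.Injective ι) (F : MvPolynomial (Fin 2) A) :
    (map φ F).totalDegree ≤ (map ι F).totalDegree := by
  unfold totalDegree
  rw [support_map_of_injective F hι]
  exact Finset.sup_mono (support_map_subset φ F)

theorem mem_red {A K k : Type*} [CommRing A] [Field K] [Field k] (ι : A →+* K)
    (φ : A →+* k) (hι : Function.Injective ι) (v : Fin 2 → A) (F : MvPolynomial (Fin 2) A) (m : ℕ)
    (h : map ι F ∈ mI (fun i => ι (v i)) ^ m) : map φ F ∈ mI (fun i => φ (v i)) ^ m := by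
  rw [MT.mem_iff] at h ⊢
  intro x hx
  have h1 := h x hx
  rw [← MT.map_transA, coeff_map] at h1
  have h2 : coeff x (MT.transA v F) = 0 := hι (by rw [h1, map_zero])
  rw [← MT.map_transA, coeff_map, h2, map_zero]

theorem indep {K : Type u} [Field K] [CharZero K] {ι J : Type*} [Fintype ι] [Fintype J]
    [DecidableEq J] (c : ι → Fin 2 → K) (hc : Function.Injective c) (n : ι → ℕ) (r k d : ℕ)
    (f : J → MvPolynomial (Fin 2) K) (e : J → ℕ) (hr : 1 ≤ r) (he : ∀ j, e j < r)
    (hprime : ∀ j, Prime (f j)) (hnd : ∀ j l, f j ∣ f l → j = l)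
    (hd : ∑ j, e j * (f j).totalDegree ≤ d) (hk : d < r * (k + 3))
    (hmem : ∀ i, ∏ j, f j ^ e j ∈ mI (c i) ^ (r * (n i + 1))) (h : MvPolynomial (Fin 2) K) :
    ∃ h' : MvPolynomial (Fin 2) K, h'.totalDegree ≤ k ∧ ∀ i, h - h' ∈ mI (c i) ^ n i := by
  classical
  let T := Σ i : ι, {s // s ∈ bx 2 (n i)}
  let L : MvPolynomial (Fin 2) K →ₗ[K] (T → K) :=
    LinearMap.pi fun t => lcoeff K t.2.1 ∘ₗ (trans (c t.1)).toLinearMap
  have hL : ∀ g t, L g t = coeff t.2.1 (trans (c t.1) g) := fun g t => rfl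
  have hW : (restrictTotalDegree (Fin 2) K k).map L = ⊤ := by
    by_contra hW
    obtain ⟨lam, hlam0, hlam⟩ := Submodule.exists_le_ker_of_lt_top _ (lt_top_iff_ne_top.2 hW)
    let w : T → K := fun t => lam (fun t' => if t = t' then 1 else 0)
    have hw : ∀ y, lam y = ∑ t, y t * w t := by
      intro y
      rw [LinearMap.pi_apply_eq_sum_univ]
      rfl
    obtain ⟨t₀, ht₀⟩ : ∃ t, w t ≠ 0 := by
      by_contra hcon
      push Not at hcon
      apply hlam0
      apply LinearMap.ext
      intro y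
      rw [hw]
      simp [hcon]
    have hrel : ∀ s : Fin 2 →₀ ℕ, s 0 + s 1 ≤ k →
        ∑ t : T, coeff t.2.1 (trans (c t.1) (monomial s 1)) * w t = 0 := by
      intro s hs
      have h1 : L (monomial s 1) ∈ LinearMap.ker lam := by
        apply hlam
        refine Submodule.mem_map_of_mem ?_
        rw [mem_restrictTotalDegree]
        exact (totalDegree_monomial_two s 1).trans hs
      rw [LinearMap.mem_ker, hw] at h1
      exact h1
    -- the certificates
    choose v hv using fun j => exists_pderiv (f j) (hprime j)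
    have hg : ∀ j, ¬ f j ∣ pderiv (v j) (f j) * ∏ l ∈ Finset.univ.erase j, f l := by
      intro j hdvd
      rcases (hprime j).dvd_or_dvd hdvd with h1 | h1
      · exact hv j h1
      · obtain ⟨l, hl, h2⟩ := (Prime.dvd_finsetProd_iff (hprime j) _).1 h1
        exact Finset.ne_of_mem_erase hl (hnd j l h2).symm
    choose E₀ hE₀ using fun (jw : J × Fin 2) => exists_cert (f jw.1) _ (hprime jw.1) (hg jw.1) jw.2
    let E := Finset.univ.sup E₀
    choose ρ α β hρ hcert using fun jw => hE₀ jw E (Finset.le_sup (Finset.mem_univ jw))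
    -- reduction
    obtain ⟨p, hp, B, iB, icB, A, iA, j₀, φ, hj₀, hN, hF, hx, hx0⟩ :=
      exists_red (K := K) (P := J ⊕ (J × Fin 2) ⊕ (J × Fin 2) ⊕ (J × Fin 2))
        (Q := (ι × Fin 2) ⊕ (ι × ι × Fin 2) ⊕ T)
        (Sum.elim f (Sum.elim ρ (Sum.elim α β)))
        (Sum.elim (fun y => c y.1 y.2) (Sum.elim (fun y => c y.1 y.2.2 - c y.2.1 y.2.2) w))
        (r * (2 * E + 3 + d + r))
    choose f₀ hf₀ using fun j => hF (Sum.inl j)
    choose ρ₀ hρ₀ using fun j => hF (Sum.inr (Sum.inl j))
    choose α₀ hα₀ using fun j => hF (Sum.inr (Sum.inr (Sum.inl j)))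
    choose β₀ hβ₀ using fun j => hF (Sum.inr (Sum.inr (Sum.inr j)))
    choose c₀ hc₀ using fun i y => hx (Sum.inl (i, y))
    choose w₀ hw₀ using fun t => hx (Sum.inr (Sum.inr t))
    simp only [Sum.elim_inl, Sum.elim_inr] at hf₀ hρ₀ hα₀ hβ₀ hc₀ hw₀
    have hcc : ∀ i, (fun y => j₀ (c₀ i y)) = c i := fun i => funext (hc₀ i)
    let c' : ι → Fin 2 → B := fun i y => φ (c₀ i y)
    have hc' : Function.Injective c' := by
      intro i i' hii
      by_contra hne
      obtain ⟨y, hy⟩ : ∃ y, c i y ≠ c i' y := by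
        by_contra hcon
        push Not at hcon
        exact hne (hc (funext hcon))
      apply hx0 (Sum.inr (Sum.inl (i, i', y))) (c₀ i y - c₀ i' y)
      · simp [hc₀]
      · simpa [sub_eq_zero] using hy
      · rw [map_sub, sub_eq_zero]
        exact congrFun hii y
    let η : MvPolynomial (Fin 2) B →ₗ[B] B :=
      ∑ t : T, φ (w₀ t) • (lcoeff B t.2.1 ∘ₗ (trans (c' t.1)).toLinearMap)
    have hη : ∀ g, η g = ∑ t : T, φ (w₀ t) * coeff t.2.1 (trans (c' t.1) g) := by
      intro g
      simp only [η, LinearMap.sum_apply, LinearMap.smul_apply, smul_eq_mul]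
      rfl
    have hη1 : ∀ g, (∀ i, g ∈ mI (c' i) ^ n i) → η g = 0 := by
      intro g hg
      rw [hη]
      refine Finset.sum_eq_zero fun t _ => ?_
      rw [(MT.mem_iff _ _ _).1 (hg t.1) t.2.1 ((TR_mem_bx _ _).1 t.2.2), mul_zero]
    have hz : η = 0 := by
      refine core p c' hc' n r k d E (fun j => map φ (f₀ j)) e (fun j => (f j).totalDegree) v hr he
        ?_ hd hk ?_ ?_ hN η hη1 ?_
      · intro j
        rw [← hf₀ j]
        exact totalDegree_red j₀ φ hj₀ _
      · intro i
        have h1 := mem_red j₀ φ hj₀ (c₀ i) (∏ j, f₀ j ^ e j) (r * (n i + 1))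
        simp only [map_prod, map_pow, hf₀, hcc] at h1
        exact h1 (hmem i)
      · intro j y
        refine ⟨map φ (ρ₀ (j, y)), map φ (α₀ (j, y)), map φ (β₀ (j, y)), ?_, ?_⟩
        · refine (totalDegree_red j₀ φ hj₀ _).trans_lt ?_
          rw [hρ₀]
          exact hρ (j, y)
        · have h1 : (X y ^ E : MvPolynomial (Fin 2) A) = ρ₀ (j, y) + f₀ j * α₀ (j, y) +
              (pderiv (v j) (f₀ j) * ∏ l ∈ Finset.univ.erase j, f₀ l) * β₀ (j, y) := by
            apply map_injective j₀ hj₀
            simp only [map_add, map_mul, map_pow, map_X, map_prod, ← pderiv_map, hf₀, hρ₀, hα₀, hβ₀]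
            exact hcert (j, y)
          have h2 := congrArg (map φ) h1
          simpa only [map_add, map_mul, map_pow, map_X, map_prod, ← pderiv_map] using h2
      · intro s hs
        rw [hη]
        have h1 : ∑ t : T, w₀ t * coeff t.2.1 (MT.transA (c₀ t.1) (monomial s 1)) = 0 := by
          apply hj₀
          rw [map_zero, map_sum, ← hrel s hs]
          refine Finset.sum_congr rfl fun t _ => ?_
          rw [map_mul, hw₀, ← coeff_map, MT.map_transA, hcc, map_monomial, j₀.map_one, mul_comm]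
        have h2 := congrArg φ h1
        rw [map_zero, map_sum] at h2
        rw [← h2]
        refine Finset.sum_congr rfl fun t _ => ?_
        rw [map_mul, ← coeff_map, MT.map_transA, map_monomial, φ.map_one]
    -- but the functional is not zero
    obtain ⟨g, hg⟩ := Ideal.exists_forall_sub_mem_ideal (I := fun i => mI (c' i) ^ n i)
      (fun i i' hii => mI_coprime (fun h => hii (hc' h)) _ _)
      (fun i => if i = t₀.1 then trans (-c' i) (monomial t₀.2.1 1) else 0)
    have h1 : η g = φ (w₀ t₀) := by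
      rw [hη, Finset.sum_eq_single t₀]
      · have h2 := (MT.mem_iff _ _ _).1 (hg t₀.1) t₀.2.1 ((TR_mem_bx _ _).1 t₀.2.2)
        have h3 := trans_neg_trans (-c' t₀.1) (monomial t₀.2.1 1)
        rw [neg_neg] at h3
        rw [if_pos rfl, map_sub, coeff_sub, h3, coeff_monomial, if_pos rfl, sub_eq_zero] at h2
        rw [h2, mul_one]
      · intro t _ ht
        have h2 := (MT.mem_iff _ _ _).1 (hg t.1) t.2.1 ((TR_mem_bx _ _).1 t.2.2)
        by_cases h4 : t.1 = t₀.1
        · have h3 := trans_neg_trans (-c' t.1) (monomial t₀.2.1 1)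
          rw [neg_neg] at h3
          rw [if_pos h4, map_sub, coeff_sub, h3, coeff_monomial, if_neg, sub_zero] at h2
          · rw [h2, mul_zero]
          · intro h5
            apply ht
            obtain ⟨i, s, hs⟩ := t
            obtain ⟨i₀, s₀, hs₀⟩ := t₀
            simp only at h4 h5
            subst h4
            subst h5
            rfl
        · rw [if_neg h4, sub_zero] at h2
          rw [h2, mul_zero]
      · intro h2
        exact absurd (Finset.mem_univ _) h2
    apply hx0 (Sum.inr (Sum.inr t₀)) (w₀ t₀) (hw₀ t₀) ht₀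
    rw [← h1, hz]
    rfl
  have h1 : L h ∈ (restrictTotalDegree (Fin 2) K k).map L := by rw [hW]; trivial
  obtain ⟨h', hh', he'⟩ := Submodule.mem_map.1 h1
  refine ⟨h', (mem_restrictTotalDegree _ _ _).1 hh', fun i => ?_⟩
  rw [MT.mem_iff]
  intro s hs
  have h2 := congrFun he' ⟨i, s, (TR_mem_bx _ _).2 hs⟩
  rw [hL, hL] at h2
  rw [map_sub, coeff_sub, sub_eq_zero]
  exact h2.symm

end Pool.Agent.H959Z.HH
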