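import Pool.Agent.H959Z.HH2

/-!
Products of ideals of finite colength in two variables, with control of the degrees.
-/

set_option autoImplicit false

namespace Pool.Agent.H959Z.HH

open MvPolynomial

variable {K : Type*} [Field K]

/-- polynomials of degree at most `e` -/
noncomputable abbrev Dg (K : Type*) [Field K] (e : ℕ) : Submodule K (MvPolynomial (Fin 2) K) :=
  restrictTotalDegree (Fin 2) K e

theorem mem_Dg {e : ℕ} {h : MvPolynomial (Fin 2) K} : h ∈ Dg K e ↔ h.totalDegree ≤ e :=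
  mem_restrictTotalDegree _ _ _

theorem Dg_mono {e e' : ℕ} (h : e ≤ e') : Dg K e ≤ Dg K e' :=
  fun _ hx => mem_Dg.2 ((mem_Dg.1 hx).trans h)

theorem mul_mem_Dg {a b : ℕ} {x y : MvPolynomial (Fin 2) K} (hx : x ∈ Dg K a) (hy : y ∈ Dg K b) :
    x * y ∈ Dg K (a + b) :=
  mem_Dg.2 ((totalDegree_mul x y).trans (Nat.add_le_add (mem_Dg.1 hx) (mem_Dg.1 hy)))

theorem smL {M N P : Submodule K (MvPolynomial (Fin 2) K)} (h : M ≤ N) : M * P ≤ N * P :=
  Submodule.mul_le.2 fun _ hx _ hy => Submodule.mul_mem_mul (h hx) hy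

theorem smR {M N P : Submodule K (MvPolynomial (Fin 2) K)} (h : M ≤ N) : P * M ≤ P * N :=
  Submodule.mul_le.2 fun _ hx _ hy => Submodule.mul_mem_mul hx (h hy)

/-- elements of an ideal of degree at most `e` -/
noncomputable def Vd (I : Ideal (MvPolynomial (Fin 2) K)) (e : ℕ) :
    Submodule K (MvPolynomial (Fin 2) K) := I.restrictScalars K ⊓ Dg K e

theorem mem_Vd {I : Ideal (MvPolynomial (Fin 2) K)} {e : ℕ} {h : MvPolynomial (Fin 2) K} :
    h ∈ Vd I e ↔ h ∈ I ∧ h ∈ Dg K e := Iff.rfl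

/-- exponent vector -/
noncomputable def ex (i j : ℕ) : Fin 2 →₀ ℕ := Finsupp.single 0 i + Finsupp.single 1 j

@[simp] theorem ex_zero (i j : ℕ) : ex i j 0 = i := by simp [ex]
@[simp] theorem ex_one (i j : ℕ) : ex i j 1 = j := by simp [ex]

theorem ex_eq (s : Fin 2 →₀ ℕ) : ex (s 0) (s 1) = s := by
  ext i; fin_cases i <;> simp

/-- monomial -/
noncomputable def mo (K : Type*) [Field K] (i j : ℕ) : MvPolynomial (Fin 2) K := X 0 ^ i * X 1 ^ j

theorem mo_eq (i j : ℕ) : mo K i j = monomial (ex i j) 1 := by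
  rw [mo, X_pow_eq_monomial, X_pow_eq_monomial, monomial_mul, mul_one, ex]

theorem mo_mul (i j i' j' : ℕ) : mo K i j * mo K i' j' = mo K (i + i') (j + j') := by
  simp only [mo]; ring

theorem mo_mem (i j : ℕ) : mo K i j ∈ Dg K (i + j) := by
  rw [mem_Dg, mo_eq]
  simpa using totalDegree_monomial_two (ex i j) (1 : K)

/-- replace the monomials of degree `N` by given polynomials -/
noncomputable def lift (N : ℕ) (τ : ℕ → MvPolynomial (Fin 2) K) :
    MvPolynomial (Fin 2) K →ₗ[K] MvPolynomial (Fin 2) K :=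
  ∑ z ∈ Finset.range (N + 1), (lcoeff K (ex z (N - z))).smulRight (τ z)

theorem lift_apply (N : ℕ) (τ : ℕ → MvPolynomial (Fin 2) K) (h : MvPolynomial (Fin 2) K) :
    lift N τ h = ∑ z ∈ Finset.range (N + 1), coeff (ex z (N - z)) h • τ z := by
  simp [lift, LinearMap.sum_apply]

theorem lift_low {N : ℕ} (τ : ℕ → MvPolynomial (Fin 2) K) {h : MvPolynomial (Fin 2) K}
    (hh : h ∈ Dg K N) : lift (N + 1) τ h = 0 := by
  rw [lift_apply]
  refine Finset.sum_eq_zero fun z hz => ?_
  have hz' : z ≤ N + 1 := by simpa [Nat.lt_succ_iff] using hz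
  have : coeff (ex z (N + 1 - z)) h = 0 := by
    by_contra hne
    have h1 := deg_le_of_mem (mem_support_iff.2 hne)
    have h2 := mem_Dg.1 hh
    simp only [ex_zero, ex_one] at h1
    omega
  rw [this, zero_smul]

theorem lift_mo {N z : ℕ} (τ : ℕ → MvPolynomial (Fin 2) K) (hz : z ≤ N) :
    lift N τ (mo K z (N - z)) = τ z := by
  classical
  rw [lift_apply, Finset.sum_eq_single z]
  · rw [mo_eq, coeff_monomial, if_pos rfl, one_smul]
  · intro y _ hy
    rw [mo_eq, coeff_monomial, if_neg, zero_smul]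
    intro h
    have := congrArg (fun s => s 0) h
    simp only [ex_zero] at this
    exact hy this.symm
  · intro h
    exact absurd (Finset.mem_range.2 (by omega)) h

theorem lift_mem {N : ℕ} {τ : ℕ → MvPolynomial (Fin 2) K}
    (W : Submodule K (MvPolynomial (Fin 2) K)) (hτ : ∀ z ≤ N, τ z ∈ W)
    (h : MvPolynomial (Fin 2) K) : lift N τ h ∈ W := by
  rw [lift_apply]
  exact W.sum_mem fun z hz => W.smul_mem _ (hτ z (by simpa [Nat.lt_succ_iff] using hz))

theorem lift_mul_mem {N : ℕ} {τ : ℕ → MvPolynomial (Fin 2) K}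
    (W : Submodule K (MvPolynomial (Fin 2) K)) (y : MvPolynomial (Fin 2) K)
    (hτ : ∀ z ≤ N, τ z * y ∈ W) (h : MvPolynomial (Fin 2) K) : lift N τ h * y ∈ W :=
  lift_mem (W.comap (LinearMap.mulRight K y)) hτ h

theorem sub_top_mem {N : ℕ} {h : MvPolynomial (Fin 2) K} (hh : h ∈ Dg K (N + 1)) :
    h - lift (N + 1) (fun z => mo K z (N + 1 - z)) h ∈ Dg K N := by
  classical
  rw [mem_Dg]
  unfold totalDegree
  refine Finset.sup_le fun s hs => ?_
  rw [sum_two]
  by_contra hlt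
  apply mem_support_iff.1 hs
  rw [coeff_sub, lift_apply, coeff_sum, sub_eq_zero]
  by_cases h1 : s 0 + s 1 = N + 1
  · rw [Finset.sum_eq_single (s 0)]
    · have : N + 1 - s 0 = s 1 := by omega
      rw [this, ex_eq, coeff_smul, mo_eq, ex_eq, coeff_monomial, if_pos rfl, smul_eq_mul, mul_one]
    · intro y _ hy
      rw [coeff_smul, mo_eq, coeff_monomial, if_neg, smul_zero]
      intro h2
      have := congrArg (fun s => s 0) h2
      simp only [ex_zero] at this
      exact hy this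
    · intro h2
      exact absurd (Finset.mem_range.2 (by omega)) h2
  · have h2 : coeff s h = 0 := by
      by_contra hne
      have h3 := deg_le_of_mem (mem_support_iff.2 hne)
      have h4 := mem_Dg.1 hh
      omega
    rw [h2]
    refine (Finset.sum_eq_zero fun z hz => ?_).symm
    have hz' : z ≤ N + 1 := by simpa [Nat.lt_succ_iff] using hz
    rw [coeff_smul, mo_eq, coeff_monomial, if_neg, smul_zero]
    intro h3
    have h4 := congrArg (fun s => s 0 + s 1) h3
    simp only [ex_zero, ex_one] at h4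
    omega

theorem sub_lift_mem {N : ℕ} {τ : ℕ → MvPolynomial (Fin 2) K}
    (hτ : ∀ z ≤ N + 1, τ z - mo K z (N + 1 - z) ∈ Dg K N) {h : MvPolynomial (Fin 2) K}
    (hh : h ∈ Dg K (N + 1)) : h - lift (N + 1) τ h ∈ Dg K N := by
  have h1 : h - lift (N + 1) τ h = (h - lift (N + 1) (fun z => mo K z (N + 1 - z)) h) -
      lift (N + 1) (fun z => τ z - mo K z (N + 1 - z)) h := by
    rw [lift_apply, lift_apply, lift_apply]
    simp only [smul_sub, Finset.sum_sub_distrib]
    ring
  rw [h1]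
  exact (Dg K N).sub_mem (sub_top_mem hh) (lift_mem _ hτ h)

/-- every polynomial is congruent to one of degree at most `k` -/
def Reg (I : Ideal (MvPolynomial (Fin 2) K)) (k : ℕ) : Prop :=
  ∀ h, ∃ h' ∈ Dg K k, h - h' ∈ I

/-- `s` lifts the monomials of degree `k + 1` -/
def Lead (I : Ideal (MvPolynomial (Fin 2) K)) (k : ℕ) (s : ℕ → MvPolynomial (Fin 2) K) : Prop :=
  ∀ a ≤ k + 1, s a ∈ I ∧ s a - mo K a (k + 1 - a) ∈ Dg K k

theorem Reg.lead {I : Ideal (MvPolynomial (Fin 2) K)} {k : ℕ} (h : Reg I k) : ∃ s, Lead I k s := by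
  choose g hg hI using fun a => h (mo K a (k + 1 - a))
  refine ⟨fun a => mo K a (k + 1 - a) - g a, fun a _ => ⟨hI a, ?_⟩⟩
  have : mo K a (k + 1 - a) - g a - mo K a (k + 1 - a) = -g a := by ring
  rw [this]
  exact (Dg K k).neg_mem (hg a)

theorem Lead.mem_Vd {I : Ideal (MvPolynomial (Fin 2) K)} {k : ℕ} {s : ℕ → MvPolynomial (Fin 2) K}
    (hs : Lead I k s) {a : ℕ} (ha : a ≤ k + 1) : s a ∈ Vd I (k + 1) := by
  refine ⟨(hs a ha).1, ?_⟩
  have h1 : s a = (s a - mo K a (k + 1 - a)) + mo K a (k + 1 - a) := by ring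
  rw [h1]
  refine (Dg K _).add_mem (Dg_mono (Nat.le_succ k) (hs a ha).2) ?_
  have := mo_mem (K := K) a (k + 1 - a)
  rwa [show a + (k + 1 - a) = k + 1 by omega] at this

/-- lifts of the monomials of larger degree -/
theorem Lead.up {I : Ideal (MvPolynomial (Fin 2) K)} {k : ℕ} {s : ℕ → MvPolynomial (Fin 2) K}
    (hs : Lead I k s) (e : ℕ) : ∃ τ, Lead I (k + e) τ ∧
      ∀ z ≤ k + e + 1, τ z ∈ Dg K e * Vd I (k + 1) := by
  refine ⟨fun z => mo K (z - min z (k + 1)) (e - (z - min z (k + 1))) * s (min z (k + 1)),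
    fun z hz => ⟨I.mul_mem_left _ (hs _ (min_le_right _ _)).1, ?_⟩, fun z hz => ?_⟩
  · have h1 : mo K z (k + e + 1 - z) = mo K (z - min z (k + 1)) (e - (z - min z (k + 1))) *
        mo K (min z (k + 1)) (k + 1 - min z (k + 1)) := by
      rw [mo_mul]; congr 1 <;> omega
    rw [h1, ← mul_sub]
    have h2 := mul_mem_Dg (mo_mem (K := K) (z - min z (k + 1)) (e - (z - min z (k + 1))))
      (hs _ (min_le_right z _)).2
    exact Dg_mono (by omega) h2
  · refine Submodule.mul_mem_mul ?_ (hs.mem_Vd (min_le_right _ _))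
    exact Dg_mono (by omega) (mo_mem _ _)

theorem Lead.reg {I : Ideal (MvPolynomial (Fin 2) K)} {k : ℕ} {s : ℕ → MvPolynomial (Fin 2) K}
    (hs : Lead I k s) : Reg I k := by
  have key : ∀ e, ∀ h ∈ Dg K (k + e), ∃ h' ∈ Dg K k, h - h' ∈ I := by
    intro e
    induction e with
    | zero => exact fun h hh => ⟨h, hh, by simp⟩
    | succ e ih =>
      intro h hh
      obtain ⟨τ, hτ, -⟩ := hs.up e
      obtain ⟨h', hh', hI⟩ := ih _ (sub_lift_mem (fun z hz => (hτ z hz).2) hh)
      refine ⟨h', hh', ?_⟩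
      have h1 : h - h' = (h - lift (k + e + 1) τ h - h') + lift (k + e + 1) τ h := by ring
      rw [h1]
      exact I.add_mem hI (lift_mem (I.restrictScalars K) (fun z hz => (hτ z hz).1) h)
  intro h
  exact key h.totalDegree h (mem_Dg.2 (Nat.le_add_left _ _))

theorem Lead.gen {I : Ideal (MvPolynomial (Fin 2) K)} {k : ℕ} {s : ℕ → MvPolynomial (Fin 2) K}
    (hs : Lead I k s) (e : ℕ) : Vd I (k + 1 + e) ≤ Dg K e * Vd I (k + 1) := by
  induction e with
  | zero =>
    intro g hg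
    rw [← one_mul g]
    exact Submodule.mul_mem_mul (mem_Dg.2 (by simp)) hg
  | succ e ih =>
    intro g hg
    obtain ⟨τ, hτ, hτ'⟩ := hs.up (e + 1)
    have hg2 : g ∈ Dg K (k + (e + 1) + 1) := Dg_mono (by omega) hg.2
    have h1 : g = (g - lift (k + (e + 1) + 1) τ g) + lift (k + (e + 1) + 1) τ g := by ring
    rw [h1]
    refine Submodule.add_mem _ ?_ (lift_mem _ hτ' g)
    refine smL (Dg_mono (Nat.le_succ e)) (ih ⟨?_, ?_⟩)
    · exact I.sub_mem hg.1 (lift_mem (I.restrictScalars K) (fun z hz => (hτ z hz).1) g)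
    · exact Dg_mono (by omega) (sub_lift_mem (fun z hz => (hτ z hz).2) hg2)

theorem Lead.mul {I J : Ideal (MvPolynomial (Fin 2) K)} {k l : ℕ}
    {s t : ℕ → MvPolynomial (Fin 2) K} (hs : Lead I k s) (ht : Lead J l t) :
    Lead (I * J) (k + l + 1) fun z => s (min z (k + 1)) * t (z - min z (k + 1)) := by
  intro z hz
  have ha : min z (k + 1) ≤ k + 1 := min_le_right _ _
  have hb : z - min z (k + 1) ≤ l + 1 := by omega
  refine ⟨Ideal.mul_mem_mul (hs _ ha).1 (ht _ hb).1, ?_⟩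
  have h1 : mo K z (k + l + 1 + 1 - z) = mo K (min z (k + 1)) (k + 1 - min z (k + 1)) *
      mo K (z - min z (k + 1)) (l + 1 - (z - min z (k + 1))) := by
    rw [mo_mul]; congr 1 <;> omega
  set a := min z (k + 1)
  set b := z - a
  have h2 : s a * t b - mo K a (k + 1 - a) * mo K b (l + 1 - b) =
      (s a - mo K a (k + 1 - a)) * t b + mo K a (k + 1 - a) * (t b - mo K b (l + 1 - b)) := by ring
  rw [h1, h2]
  refine (Dg K _).add_mem ?_ ?_
  · exact Dg_mono (by omega) (mul_mem_Dg (hs a ha).2 (ht.mem_Vd hb).2)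
  · exact Dg_mono (by omega) (mul_mem_Dg (mo_mem _ _) (ht b hb).2)

theorem shift_mem {I : Ideal (MvPolynomial (Fin 2) K)} {k e : ℕ} {h a : MvPolynomial (Fin 2) K}
    (hh : h ∈ Dg K (e + 1)) (ha : a ∈ Vd I k) : h * a ∈ Dg K e * Vd I (k + 1) := by
  have h1 : h * a = (h - lift (e + 1) (fun z => mo K z (e + 1 - z)) h) * a +
      lift (e + 1) (fun z => mo K z (e + 1 - z)) h * a := by ring
  rw [h1]
  refine Submodule.add_mem _ (Submodule.mul_mem_mul (sub_top_mem hh)
    ⟨ha.1, Dg_mono (Nat.le_succ k) ha.2⟩) (lift_mul_mem _ a (fun z hz => ?_) h)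
  rcases Nat.eq_zero_or_pos z with h0 | h0
  · subst h0
    have h2 : mo K 0 (e + 1 - 0) * a = mo K 0 e * (mo K 0 1 * a) := by
      rw [← mul_assoc, mo_mul]; rfl
    rw [h2]
    refine Submodule.mul_mem_mul (Dg_mono (by omega) (mo_mem 0 e)) ⟨I.mul_mem_left _ ha.1, ?_⟩
    exact Dg_mono (by omega) (mul_mem_Dg (mo_mem 0 1) ha.2)
  · have h2 : mo K z (e + 1 - z) * a = mo K (z - 1) (e + 1 - z) * (mo K 1 0 * a) := by
      rw [← mul_assoc, mo_mul]; congr 2; omega
    rw [h2]
    refine Submodule.mul_mem_mul (Dg_mono (by omega) (mo_mem _ _)) ⟨I.mul_mem_left _ ha.1, ?_⟩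
    exact Dg_mono (by omega) (mul_mem_Dg (mo_mem 1 0) ha.2)

theorem Lead.swap {I : Ideal (MvPolynomial (Fin 2) K)} {k : ℕ} {s : ℕ → MvPolynomial (Fin 2) K}
    (hs : Lead I k s) {a : ℕ} (ha : a ≤ k) :
    mo K 1 0 * s a - mo K 0 1 * s (a + 1) ∈ Vd I (k + 1) := by
  have h1 := hs a (by omega)
  have h2 := hs (a + 1) (by omega)
  refine ⟨I.sub_mem (I.mul_mem_left _ h1.1) (I.mul_mem_left _ h2.1), ?_⟩
  have h3 : mo K 1 0 * mo K a (k + 1 - a) = mo K 0 1 * mo K (a + 1) (k + 1 - (a + 1)) := by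
    rw [mo_mul, mo_mul]; congr 1 <;> omega
  have h4 : mo K 1 0 * s a - mo K 0 1 * s (a + 1) = mo K 1 0 * (s a - mo K a (k + 1 - a)) -
      mo K 0 1 * (s (a + 1) - mo K (a + 1) (k + 1 - (a + 1))) := by
    rw [mul_sub, mul_sub, h3]; ring
  rw [h4]
  exact (Dg K _).sub_mem (Dg_mono (by omega) (mul_mem_Dg (mo_mem 1 0) h1.2))
    (Dg_mono (by omega) (mul_mem_Dg (mo_mem 0 1) h2.2))

theorem moves {M : Type*} (F : ℕ → ℕ → ℕ → M) (e k l : ℕ)
    (h1 : ∀ i ≤ e, ∀ a ≤ k, ∀ b ≤ l + 1, F (i + 1) a b = F i (a + 1) b)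
    (h2 : ∀ i ≤ e, ∀ a ≤ k + 1, ∀ b ≤ l, F (i + 1) a b = F i a (b + 1)) :
    ∀ n i a b, 2 * i + b = n → i ≤ e + 1 → a ≤ k + 1 → b ≤ l + 1 →
      F i a b = F (i + a + b - min (i + a + b) (k + 1) -
          min (i + a + b - min (i + a + b) (k + 1)) (l + 1))
        (min (i + a + b) (k + 1)) (min (i + a + b - min (i + a + b) (k + 1)) (l + 1)) := by
  have h3 : ∀ i ≤ e + 1, ∀ a ≤ k, ∀ b ≤ l, F i a (b + 1) = F i (a + 1) b := by
    intro i hi a ha b hb
    by_cases hie : i ≤ e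
    · rw [← h2 i hie a (by omega) b hb, h1 i hie a ha b (by omega)]
    · obtain rfl : i = e + 1 := by omega
      rw [h1 e le_rfl a ha (b + 1) (by omega), h2 e le_rfl (a + 1) (by omega) b hb]
  intro n
  induction n using Nat.strong_induction_on with
  | _ n ih =>
    intro i a b hn hi ha hb
    by_cases c1 : a ≤ k ∧ 0 < i
    · obtain ⟨i', rfl⟩ : ∃ i', i = i' + 1 := ⟨i - 1, by omega⟩
      rw [h1 i' (by omega) a c1.1 b hb, ih _ (by omega) i' (a + 1) b rfl (by omega) (by omega) hb,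
        show i' + (a + 1) + b = i' + 1 + a + b by omega]
    · by_cases c2 : a ≤ k ∧ 0 < b
      · obtain ⟨b', rfl⟩ : ∃ b', b = b' + 1 := ⟨b - 1, by omega⟩
        rw [h3 i hi a c2.1 b' (by omega), ih _ (by omega) i (a + 1) b' rfl hi (by omega) (by omega),
          show i + (a + 1) + b' = i + a + (b' + 1) by omega]
      · by_cases c3 : b ≤ l ∧ 0 < i
        · obtain ⟨i', rfl⟩ : ∃ i', i = i' + 1 := ⟨i - 1, by omega⟩
          rw [h2 i' (by omega) a ha b c3.1, ih _ (by omega) i' a (b + 1) rfl (by omega) ha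
            (by omega), show i' + a + (b + 1) = i' + 1 + a + b by omega]
        · congr 1 <;> omega

theorem step_down {I J : Ideal (MvPolynomial (Fin 2) K)} {k l : ℕ}
    {s t : ℕ → MvPolynomial (Fin 2) K} (hs : Lead I k s) (ht : Lead J l t) (e : ℕ)
    {u : MvPolynomial (Fin 2) K} (hu : u ∈ Dg K (e + 1) * Vd I (k + 1) * Vd J (l + 1))
    (hd : u ∈ Dg K (e + k + l + 2)) : u ∈ Dg K e * Vd I (k + 1) * Vd J (l + 1) := by
  set U := Dg K e * Vd I (k + 1) * Vd J (l + 1) with hU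
  let T : ℕ → ℕ → ℕ → MvPolynomial (Fin 2) K := fun i a b => mo K i (e + 1 - i) * s a * t b
  let τ : ℕ → MvPolynomial (Fin 2) K := fun z =>
    T (z - min z (k + 1) - min (z - min z (k + 1)) (l + 1)) (min z (k + 1))
      (min (z - min z (k + 1)) (l + 1))
  let Θ := lift (e + k + l + 2 + 1) τ
  let S : Submodule K (MvPolynomial (Fin 2) K) := U.comap (LinearMap.id - Θ)
  have hS : ∀ x, x ∈ S ↔ x - Θ x ∈ U := fun x => Iff.rfl
  have hUD : U ≤ Dg K (e + k + l + 2) := by
    rw [hU]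
    refine Submodule.mul_le.2 fun x hx y hy => ?_
    have h1 : x ∈ Dg K (e + (k + 1)) := by
      refine (Submodule.mul_le.2 fun a ha b hb => ?_ : Dg K e * Vd I (k + 1) ≤ _) hx
      exact mul_mem_Dg ha hb.2
    exact Dg_mono (by omega) (mul_mem_Dg h1 hy.2)
  have hUS : U ≤ S := by
    intro x hx
    rw [hS, lift_low τ (hUD hx), sub_zero]
    exact hx
  have hT : ∀ i ≤ e + 1, ∀ a ≤ k + 1, ∀ b ≤ l + 1, T i a b ∈ S := by
    intro i hi a ha b hb
    have h1 : T i a b - mo K (i + a + b) (e + k + l + 2 + 1 - (i + a + b)) ∈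
        Dg K (e + k + l + 2) := by
      have h2 : mo K (i + a + b) (e + k + l + 2 + 1 - (i + a + b)) =
          mo K i (e + 1 - i) * mo K a (k + 1 - a) * mo K b (l + 1 - b) := by
        rw [mo_mul, mo_mul]; congr 1; omega
      have h3 : T i a b - mo K i (e + 1 - i) * mo K a (k + 1 - a) * mo K b (l + 1 - b) =
          mo K i (e + 1 - i) * ((s a - mo K a (k + 1 - a)) * t b +
            mo K a (k + 1 - a) * (t b - mo K b (l + 1 - b))) := by
        simp only [T]; ring
      rw [h2, h3]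
      have h4 : (s a - mo K a (k + 1 - a)) * t b +
          mo K a (k + 1 - a) * (t b - mo K b (l + 1 - b)) ∈ Dg K (k + l + 1) :=
        (Dg K _).add_mem (Dg_mono (by omega) (mul_mem_Dg (hs a ha).2 (ht.mem_Vd hb).2))
          (Dg_mono (by omega) (mul_mem_Dg (mo_mem _ _) (ht b hb).2))
      exact Dg_mono (by omega) (mul_mem_Dg (mo_mem _ _) h4)
    have h5 : Θ (T i a b) = τ (i + a + b) := by
      have h6 := lift_low τ h1
      rw [map_sub, lift_mo τ (by omega), sub_eq_zero] at h6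
      exact h6
    rw [hS, h5, ← Submodule.Quotient.eq]
    refine moves (fun i a b => (Submodule.Quotient.mk (T i a b) : _ ⧸ U)) e k l ?_ ?_ _ i a b rfl
      hi ha hb
    · intro i hi a ha b hb
      rw [Submodule.Quotient.eq]
      have h7 : T (i + 1) a b - T i (a + 1) b =
          mo K i (e - i) * (mo K 1 0 * s a - mo K 0 1 * s (a + 1)) * t b := by
        have e1 : mo K (i + 1) (e + 1 - (i + 1)) = mo K i (e - i) * mo K 1 0 := by
          rw [mo_mul]; congr 1; omega
        have e2 : mo K i (e + 1 - i) = mo K i (e - i) * mo K 0 1 := by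
          rw [mo_mul]; congr 1; omega
        simp only [T]; rw [e1, e2]; ring
      rw [h7]
      exact Submodule.mul_mem_mul (Submodule.mul_mem_mul (Dg_mono (by omega) (mo_mem _ _))
        (hs.swap ha)) (ht.mem_Vd hb)
    · intro i hi a ha b hb
      rw [Submodule.Quotient.eq]
      have h7 : T (i + 1) a b - T i a (b + 1) =
          mo K i (e - i) * s a * (mo K 1 0 * t b - mo K 0 1 * t (b + 1)) := by
        have e1 : mo K (i + 1) (e + 1 - (i + 1)) = mo K i (e - i) * mo K 1 0 := by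
          rw [mo_mul]; congr 1; omega
        have e2 : mo K i (e + 1 - i) = mo K i (e - i) * mo K 0 1 := by
          rw [mo_mul]; congr 1; omega
        simp only [T]; rw [e1, e2]; ring
      rw [h7]
      exact Submodule.mul_mem_mul (Submodule.mul_mem_mul (Dg_mono (by omega) (mo_mem _ _))
        (hs.mem_Vd ha)) (ht.swap hb)
  have hmain : Dg K (e + 1) * Vd I (k + 1) * Vd J (l + 1) ≤ S := by
    rw [mul_assoc]
    refine Submodule.mul_le.2 fun h hh y hy => ?_
    refine Submodule.mul_induction_on hy (fun a ha b hb => ?_)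
      (fun x y hx hy => by rw [mul_add]; exact S.add_mem hx hy)
    set H := lift (e + 1) (fun z => mo K z (e + 1 - z)) h with hH
    set A := lift (k + 1) s a with hA
    set Bq := lift (l + 1) t b with hB
    have hHm : H ∈ Dg K (e + 1) := lift_mem _ (fun z hz => Dg_mono (by omega) (mo_mem _ _)) h
    have hAm : A ∈ Vd I (k + 1) := lift_mem _ (fun z hz => hs.mem_Vd hz) a
    have hBm : Bq ∈ Vd J (l + 1) := lift_mem _ (fun z hz => ht.mem_Vd hz) b
    have ha0 : a - A ∈ Vd I k :=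
      ⟨I.sub_mem ha.1 hAm.1, sub_lift_mem (fun z hz => (hs z hz).2) ha.2⟩
    have hb0 : b - Bq ∈ Vd J l :=
      ⟨J.sub_mem hb.1 hBm.1, sub_lift_mem (fun z hz => (ht z hz).2) hb.2⟩
    have h1 : h * (a * b) = (h - H) * a * b + H * (a - A) * b + H * (b - Bq) * A + H * (A * Bq) := by
      ring
    rw [h1]
    refine S.add_mem (S.add_mem (S.add_mem (hUS ?_) (hUS ?_)) (hUS ?_)) ?_
    · exact Submodule.mul_mem_mul (Submodule.mul_mem_mul (sub_top_mem hh) ha) hb
    · exact Submodule.mul_mem_mul (shift_mem hHm ha0) hb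
    · rw [hU, mul_right_comm (Dg K e)]
      exact Submodule.mul_mem_mul (shift_mem hHm hb0) hAm
    · refine lift_mul_mem S _ (fun i hi => ?_) h
      rw [mul_left_comm]
      refine lift_mul_mem S _ (fun a' ha' => ?_) a
      rw [← mul_assoc, mul_comm]
      refine lift_mul_mem S _ (fun b' hb' => ?_) b
      have := hT i hi a' ha' b' hb'
      simp only [T] at this
      convert this using 1
      ring
  have h1 := (hS u).1 (hmain hu)
  rwa [lift_low τ hd, sub_zero] at h1

theorem Lead.mul_gen {I J : Ideal (MvPolynomial (Fin 2) K)} {k l : ℕ}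
    {s t : ℕ → MvPolynomial (Fin 2) K} (hs : Lead I k s) (ht : Lead J l t) (e : ℕ) :
    Vd (I * J) (e + k + l + 2) ≤ Dg K e * Vd I (k + 1) * Vd J (l + 1) := by
  have hmono : ∀ {a b : ℕ}, a ≤ b → Dg K a * Vd I (k + 1) * Vd J (l + 1) ≤
      Dg K b * Vd I (k + 1) * Vd J (l + 1) := fun hab =>
    smL (smL (Dg_mono hab))
  have hA : ∀ g ∈ I * J, ∃ e', g ∈ Dg K e' * Vd I (k + 1) * Vd J (l + 1) := by
    intro g hg
    refine Submodule.mul_induction_on hg (fun a ha b hb => ?_) (fun x y hx hy => ?_)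
    · have h1 := hs.gen a.totalDegree (show a ∈ _ from ⟨ha, mem_Dg.2 (Nat.le_add_left _ _)⟩)
      have h2 := ht.gen b.totalDegree (show b ∈ _ from ⟨hb, mem_Dg.2 (Nat.le_add_left _ _)⟩)
      refine ⟨a.totalDegree + b.totalDegree, ?_⟩
      have h3 := Submodule.mul_mem_mul h1 h2
      rw [mul_mul_mul_comm, ← mul_assoc] at h3
      refine smL (smL ?_) h3
      exact Submodule.mul_le.2 fun x hx y hy => mul_mem_Dg hx hy
    · obtain ⟨a, ha⟩ := hx
      obtain ⟨b, hb⟩ := hy
      exact ⟨max a b, Submodule.add_mem _ (hmono (le_max_left _ _) ha) (hmono (le_max_right _ _) hb)⟩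
  intro g hg
  obtain ⟨e', he'⟩ := hA g hg.1
  have key : ∀ n, g ∈ Dg K (e + n) * Vd I (k + 1) * Vd J (l + 1) →
      g ∈ Dg K e * Vd I (k + 1) * Vd J (l + 1) := by
    intro n
    induction n with
    | zero => exact id
    | succ n ih =>
      intro h
      exact ih (step_down hs ht (e + n) h (Dg_mono (by omega) hg.2))
  exact key e' (hmono (Nat.le_add_left _ _) he')

theorem Reg.pow_gen {I : Ideal (MvPolynomial (Fin 2) K)} {k : ℕ} (hI : Reg I k) (r : ℕ) :
    (∃ τ, Lead (I ^ (r + 1)) (k + r * (k + 1)) τ) ∧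
      ∀ e, Vd (I ^ (r + 1)) (e + (r + 1) * (k + 1)) ≤ Dg K e * Vd I (k + 1) ^ (r + 1) := by
  obtain ⟨s, hs⟩ := hI.lead
  induction r with
  | zero =>
    refine ⟨⟨s, by simpa using hs⟩, fun e => ?_⟩
    have := hs.gen e
    simpa [add_comm] using this
  | succ r ih =>
    obtain ⟨⟨τ, hτ⟩, h2⟩ := ih
    constructor
    · have h1 := hτ.mul hs
      rw [← pow_succ, show k + r * (k + 1) + k + 1 = k + (r + 1) * (k + 1) by ring] at h1
      exact ⟨_, h1⟩
    · intro e
      have h1 := hτ.mul_gen hs e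
      rw [← pow_succ, show e + (k + r * (k + 1)) + k + 2 = e + (r + 1 + 1) * (k + 1) by ring] at h1
      refine h1.trans ?_
      rw [pow_succ _ (r + 1), ← mul_assoc]
      refine smL ?_
      have h3 := h2 0
      rw [zero_add, show (r + 1) * (k + 1) = k + r * (k + 1) + 1 by ring] at h3
      refine (smR h3).trans ?_
      rw [← mul_assoc]
      refine smL ?_
      exact Submodule.mul_le.2 fun x hx y hy => mul_mem_Dg hx hy

end Pool.Agent.H959Z.HH
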