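import Pool.Agent.H959Z.HH4
import Pool.Agent.H959Z.HH5
import Pool.Agent.Chud.PB

/-!
The affine form of the containment.
-/

set_option autoImplicit false

namespace Pool.Agent.H959Z.HH

open MvPolynomial Pool.Agent.Chud

universe u

section aux

variable {K : Type*} [Field K]

theorem pderiv_mem_Dg {c : ℕ} {g : MvPolynomial (Fin 2) K} (hg : g ∈ Dg K (c + 1)) (i : Fin 2) :
    pderiv i g ∈ Dg K c := by
  rw [g.as_sum, map_sum]
  refine Submodule.sum_mem _ fun s hs => ?_
  have h1 := deg_le_of_mem hs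
  have h2 := mem_Dg.1 hg
  rw [pderiv_monomial]
  by_cases h0 : s i = 0
  · simp [h0]
  · refine mem_Dg.2 ((totalDegree_monomial_two _ _).trans ?_)
    fin_cases i
    · simp only [Fin.zero_eta, Finsupp.coe_tsub, Pi.sub_apply, Finsupp.single_eq_same] at h0 ⊢
      omega
    · simp only [Fin.mk_one, Finsupp.coe_tsub, Pi.sub_apply, Finsupp.single_eq_same] at h0 ⊢
      omega

theorem euler_mem_Dg {c : ℕ} {g : MvPolynomial (Fin 2) K} (hg : g ∈ Dg K (c + 1)) :
    ((c + 1 : ℕ) : K) • g - X 0 * pderiv 0 g - X 1 * pderiv 1 g ∈ Dg K c := by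
  have h0 : ((c + 1 : ℕ) : K) • g - X 0 * pderiv 0 g - X 1 * pderiv 1 g =
      ∑ s ∈ g.support, (((c + 1 : ℕ) : K) - (s 0 : K) - (s 1 : K)) • monomial s (coeff s g) := by
    conv_lhs => rw [g.as_sum]
    rw [map_sum, map_sum, Finset.smul_sum, Finset.mul_sum, Finset.mul_sum, ← Finset.sum_sub_distrib,
      ← Finset.sum_sub_distrib]
    refine Finset.sum_congr rfl fun s _ => ?_
    rw [X_mul_pderiv_monomial, X_mul_pderiv_monomial, sub_smul, sub_smul, Nat.cast_smul_eq_nsmul K (s 0),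
      Nat.cast_smul_eq_nsmul K (s 1)]
  rw [h0]
  refine Submodule.sum_mem _ fun s hs => ?_
  have h1 := deg_le_of_mem hs
  have h2 := mem_Dg.1 hg
  by_cases h3 : s 0 + s 1 = c + 1
  · rw [← h3]; simp
  · exact Submodule.smul_mem _ _ (mem_Dg.2 ((totalDegree_monomial_two _ _).trans (by omega)))

theorem X_mem_Dg (i : Fin 2) : (X i : MvPolynomial (Fin 2) K) ∈ Dg K 1 :=
  mem_Dg.2 (by rw [totalDegree_X])

theorem sm_pow {M N : Submodule K (MvPolynomial (Fin 2) K)} (h : M ≤ N) (r : ℕ) : M ^ r ≤ N ^ r := by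
  induction r with
  | zero => simp
  | succ r ih => rw [pow_succ, pow_succ]; exact (smL ih).trans (smR h)

theorem Dg_mul_le (a b : ℕ) : Dg K a * Dg K b ≤ Dg K (a + b) :=
  Submodule.mul_le.2 fun _ hx _ hy => mul_mem_Dg hx hy

theorem Dg_pow_le (a r : ℕ) : Dg K a ^ r ≤ Dg K (r * a) := by
  induction r with
  | zero =>
    rw [pow_zero, Submodule.one_le]
    exact mem_Dg.2 (by simp)
  | succ r ih =>
    rw [pow_succ, add_mul, one_mul]
    exact (smL ih).trans (Dg_mul_le _ _)

theorem totalDegree_pow_eq {g : MvPolynomial (Fin 2) K} (hg : g ≠ 0) (r : ℕ) :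
    (g ^ r).totalDegree = r * g.totalDegree := by
  induction r with
  | zero => simp
  | succ r ih => rw [pow_succ, totalDegree_mul_of_isDomain (pow_ne_zero _ hg) hg, ih]; ring

theorem totalDegree_prod_eq {J : Type*} (S : Finset J) (f : J → MvPolynomial (Fin 2) K)
    (hf : ∀ j, f j ≠ 0) : (∏ j ∈ S, f j).totalDegree = ∑ j ∈ S, (f j).totalDegree := by
  classical
  induction S using Finset.induction_on with
  | empty => simp
  | insert a S ha ih =>
    rw [Finset.prod_insert ha, Finset.sum_insert ha,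
      totalDegree_mul_of_isDomain (hf a) (Finset.prod_ne_zero_iff.2 fun j _ => hf j), ih]

theorem mu_pow (v : Fin 2 → K) {g : MvPolynomial (Fin 2) K} (hg : g ≠ 0) (r : ℕ) :
    mu v (g ^ r) = r * mu v g := by
  induction r with
  | zero =>
    have := mu_le_totalDegree v (F := (1 : MvPolynomial (Fin 2) K)) one_ne_zero
    simpa using this
  | succ r ih => rw [pow_succ, mu_mul v (pow_ne_zero _ hg) hg, ih]; ring

theorem unit_deg {w : MvPolynomial (Fin 2) K} (hw : IsUnit w) : w.totalDegree = 0 := by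
  have h := totalDegree_le_of_dvd_of_isDomain (hw.dvd (a := (1 : MvPolynomial (Fin 2) K))) one_ne_zero
  simpa using h

end aux

theorem affine_main {K : Type u} [Field K] [CharZero K] {ι : Type*} [Fintype ι]
    (c : ι → Fin 2 → K) (hc : Function.Injective c) (μ : ι → ℕ) (i₀ : ι) (hμ : 1 ≤ μ i₀)
    (m r d : ℕ) (hm : 1 ≤ m) (hr : 1 ≤ r) (f : MvPolynomial (Fin 2) K) (hf : f ≠ 0)
    (hd : f.totalDegree ≤ d) (hmem : ∀ i, f ∈ mI (c i) ^ (r * ((m + 1) * μ i))) :
    ∃ a e, r ≤ e ∧ e + r * a = d ∧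
      f ∈ Dg K e * Vd (⨅ i, mI (c i) ^ (m * μ i)) a ^ r := by
  classical
  obtain ⟨S, E, w, hw, hprime, hnd, hfac⟩ := exists_factorisation f hf
  set I : Ideal (MvPolynomial (Fin 2) K) := ⨅ i, mI (c i) ^ (m * μ i) with hI
  set Cc : MvPolynomial (Fin 2) K := ∏ x : S, (x : MvPolynomial (Fin 2) K) ^ (E x / r) with hCc
  set f1 : MvPolynomial (Fin 2) K := ∏ x : S, (x : MvPolynomial (Fin 2) K) ^ (E x % r) with hf1
  have hx0 : ∀ x : S, (x : MvPolynomial (Fin 2) K) ≠ 0 := fun x => (hprime x x.2).ne_zero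
  have hC0 : Cc ≠ 0 := Finset.prod_ne_zero_iff.2 fun x _ => pow_ne_zero _ (hx0 x)
  have hf10 : f1 ≠ 0 := Finset.prod_ne_zero_iff.2 fun x _ => pow_ne_zero _ (hx0 x)
  have hfe : f = w * (Cc ^ r * f1) := by
    rw [hfac, hCc, hf1, ← Finset.prod_pow, ← Finset.prod_mul_distrib, ← Finset.prod_coe_sort S]
    congr 1
    refine Finset.prod_congr rfl fun x _ => ?_
    rw [← pow_mul, ← pow_add, Nat.div_add_mod']
  have hw0 := hw.ne_zero
  have hwd := unit_deg hw
  set γ := Cc.totalDegree with hγ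
  have hdeg : r * γ + f1.totalDegree ≤ d := by
    rw [hfe, totalDegree_mul_of_isDomain hw0 (mul_ne_zero (pow_ne_zero _ hC0) hf10),
      totalDegree_mul_of_isDomain (pow_ne_zero _ hC0) hf10, totalDegree_pow_eq hC0, hwd, zero_add] at hd
    exact hd
  have hmu : ∀ i, r * ((m + 1) * μ i) ≤ r * mu (c i) Cc + mu (c i) f1 := by
    intro i
    have h1 := (mem_mI_pow_iff (c i) hf _).1 (hmem i)
    have h2 := mu_le_totalDegree (c i) hw0
    rw [hfe, mu_mul _ hw0 (mul_ne_zero (pow_ne_zero _ hC0) hf10),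
      mu_mul _ (pow_ne_zero _ hC0) hf10, mu_pow _ hC0] at h1
    omega
  have hmuf : ∀ i, mu (c i) f1 ≤ f1.totalDegree := fun i => mu_le_totalDegree _ hf10
  have hwD : w ∈ Dg K 0 := mem_Dg.2 hwd.le
  set n : ι → ℕ := fun i => m * μ i - mu (c i) Cc with hn
  by_cases hA : ∃ i, n i ≠ 0
  · have hlow : ∀ i, n i ≠ 0 → r * (n i + 1) ≤ mu (c i) f1 := by
      intro i hi
      have h1 := hmu i
      have h2 : mu (c i) Cc + n i = m * μ i := by simp only [hn] at hi ⊢; omega
      have h3 : 1 ≤ μ i := by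
        rcases Nat.eq_zero_or_pos (μ i) with h0 | h0
        · rw [h0] at h2; omega
        · exact h0
      have h4 : r * (mu (c i) Cc + (n i + 1)) ≤ r * ((m + 1) * μ i) :=
        Nat.mul_le_mul_left r (by rw [add_mul, one_mul]; omega)
      rw [mul_add] at h4
      omega
    obtain ⟨i₁, hi₁⟩ := hA
    have h2r : r * 2 ≤ f1.totalDegree :=
      (Nat.mul_le_mul_left r (by omega)).trans ((hlow i₁ hi₁).trans (hmuf i₁))
    obtain ⟨k, hk⟩ : ∃ k, d / r = γ + k + 2 := by
      have : γ + 2 ≤ d / r := by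
        rw [Nat.le_div_iff_mul_le (by omega), mul_comm, mul_add]; omega
      exact ⟨d / r - γ - 2, by omega⟩
    have hdm := Nat.div_add_mod d r
    have hml := Nat.mod_lt d (show r > 0 by omega)
    rw [hk] at hdm
    have hreg : Reg (∏ i, mI (c i) ^ n i) k := by
      intro h
      obtain ⟨h', hh', hI'⟩ := indep (ι := {i // n i ≠ 0}) (J := S) (fun i => c i.1)
        (fun i j hij => Subtype.ext (hc hij)) (fun i => n i.1) r k f1.totalDegree
        (fun x => (x : MvPolynomial (Fin 2) K)) (fun x => E x % r) hr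
        (fun x => Nat.mod_lt _ (by omega)) (fun x => hprime x x.2)
        (fun x y hxy => Subtype.ext (hnd x x.2 y y.2 hxy))
        (by
          rw [hf1, totalDegree_prod_eq _ _ (fun x => pow_ne_zero _ (hx0 x))]
          exact le_of_eq (Finset.sum_congr rfl fun x _ => (totalDegree_pow_eq (hx0 x) _).symm))
        (by
          have e1 : r * (γ + k + 2) = r * γ + r * k + 2 * r := by ring
          have e2 : r * (k + 3) = r * k + 3 * r := by ring
          omega)
        (fun i => (mem_mI_pow_iff _ hf10 _).2 (hlow i.1 i.2)) h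
      refine ⟨h', mem_Dg.2 hh', (mem_prod_iff c hc n _).2 fun i => ?_⟩
      by_cases hi : n i = 0
      · rw [hi]; simp
      · exact hI' ⟨i, hi⟩
    obtain ⟨r', rfl⟩ : ∃ r', r = r' + 1 := ⟨r - 1, by omega⟩
    have hgen := (hreg.pow_gen r').2 (d % (r' + 1) + (r' + 1))
    have hf1m : f1 ∈ Vd ((∏ i, mI (c i) ^ n i) ^ (r' + 1))
        (d % (r' + 1) + (r' + 1) + (r' + 1) * (k + 1)) := by
      refine ⟨?_, mem_Dg.2 ?_⟩
      · change f1 ∈ (∏ i, mI (c i) ^ n i) ^ (r' + 1)
        rw [← Finset.prod_pow]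
        simp only [← pow_mul]
        refine (mem_prod_iff c hc _ _).2 fun i => ?_
        by_cases hi : n i = 0
        · rw [hi]; simp
        · refine (mem_mI_pow_iff _ hf10 _).2 (le_trans ?_ (hlow i hi))
          rw [mul_comm]; exact Nat.mul_le_mul_left _ (Nat.le_succ _)
      · have e1 : (r' + 1) * (γ + k + 2) = (r' + 1) * γ + (r' + 1) * (k + 1) + (r' + 1) := by ring
        omega
    refine ⟨γ + (k + 1), d % (r' + 1) + (r' + 1), by omega, ?_, ?_⟩
    · have e1 : (r' + 1) * (γ + k + 2) = (r' + 1) * (γ + (k + 1)) + (r' + 1) := by ring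
      omega
    · have h1 : Submodule.span K {Cc} * Vd (∏ i, mI (c i) ^ n i) (k + 1) ≤ Vd I (γ + (k + 1)) := by
        rw [Submodule.span_singleton_mul]
        rintro _ ⟨y, hy, rfl⟩
        refine ⟨?_, mul_mem_Dg (mem_Dg.2 le_rfl) hy.2⟩
        change Cc * y ∈ I
        rw [hI, Ideal.mem_iInf]
        intro i
        have h2 := Ideal.mul_mem_mul ((mem_mI_pow_iff (c i) hC0 _).2 le_rfl)
          ((mem_prod_iff c hc n _).1 hy.1 i)
        rw [← pow_add] at h2
        exact Ideal.pow_le_pow_right (by simp only [hn]; omega) h2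
      have h2 := Submodule.mul_mem_mul hwD (Submodule.mul_mem_mul
        (Submodule.pow_mem_pow _ (Submodule.mem_span_singleton_self Cc) (r' + 1)) (hgen hf1m))
      rw [← hfe, mul_left_comm (Submodule.span K {Cc} ^ (r' + 1)), ← mul_pow, ← mul_assoc] at h2
      refine smL ?_ (smR (sm_pow h1 _) h2)
      simpa using Dg_mul_le (K := K) 0 (d % (r' + 1) + (r' + 1))
  · push Not at hA
    have hCI : Cc ∈ I := by
      rw [hI, Ideal.mem_iInf]
      intro i
      have := hA i
      exact (mem_mI_pow_iff _ hC0 _).2 (by simp only [hn] at this; omega)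
    have hwf : w * f1 ∈ Dg K (d - r * γ) := Dg_mono (by omega) (mul_mem_Dg hwD (mem_Dg.2 le_rfl))
    have hfe' : f = (w * f1) * Cc ^ r := by rw [hfe]; ring
    by_cases hB : r * γ + r ≤ d
    · refine ⟨γ, d - r * γ, by omega, by omega, ?_⟩
      rw [hfe']
      exact Submodule.mul_mem_mul hwf
        (Submodule.pow_mem_pow _ (mem_Vd.2 ⟨hCI, mem_Dg.2 le_rfl⟩) r)
    · have hbig : ∀ i, (m + 1) * μ i ≤ mu (c i) Cc := by
        intro i
        have h1 := hmu i
        have h2 := hmuf i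
        have h3 : r * ((m + 1) * μ i) < r * (mu (c i) Cc + 1) := by rw [mul_add]; omega
        exact Nat.lt_succ_iff.1 (Nat.lt_of_mul_lt_mul_left h3)
      have hγ1 : 1 ≤ γ := by
        have h1 := hbig i₀
        have h2 := mu_le_totalDegree (c i₀) hC0
        have h3 : 1 * 1 ≤ (m + 1) * μ i₀ := Nat.mul_le_mul (by omega) hμ
        omega
      obtain ⟨γ', hγ'⟩ : ∃ γ', γ = γ' + 1 := ⟨γ - 1, by omega⟩
      have hCD : Cc ∈ Dg K (γ' + 1) := mem_Dg.2 (by omega)
      have hder : ∀ j : Fin 2, pderiv j Cc ∈ Vd I γ' := by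
        intro j
        refine ⟨?_, pderiv_mem_Dg hCD j⟩
        change pderiv j Cc ∈ I
        rw [hI, Ideal.mem_iInf]
        intro i
        rcases Nat.eq_zero_or_pos (μ i) with h0 | h0
        · rw [h0]; simp
        · refine deriv_mem _ _ _ _ ((mem_mI_pow_iff _ hC0 _).2 (le_trans ?_ (hbig i)))
          rw [add_mul, one_mul]; omega
      have hrest : ((γ' + 1 : ℕ) : K) • Cc - X 0 * pderiv 0 Cc - X 1 * pderiv 1 Cc ∈ Vd I γ' := by
        refine ⟨?_, euler_mem_Dg hCD⟩
        exact I.sub_mem (I.sub_mem ((I.restrictScalars K).smul_mem _ hCI)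
          (I.mul_mem_left _ (hder 0).1)) (I.mul_mem_left _ (hder 1).1)
      have hC1 : Cc ∈ Dg K 1 * Vd I γ' := by
        have h1 : Cc = (((γ' + 1 : ℕ) : K))⁻¹ • (1 * (((γ' + 1 : ℕ) : K) • Cc - X 0 * pderiv 0 Cc -
            X 1 * pderiv 1 Cc) + X 0 * pderiv 0 Cc + X 1 * pderiv 1 Cc) := by
          have h2 : ((γ' + 1 : ℕ) : K) ≠ 0 := Nat.cast_ne_zero.2 (by omega)
          have h3 : 1 * (((γ' + 1 : ℕ) : K) • Cc - X 0 * pderiv 0 Cc -
            X 1 * pderiv 1 Cc) + X 0 * pderiv 0 Cc + X 1 * pderiv 1 Cc = ((γ' + 1 : ℕ) : K) • Cc := by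
            ring
          rw [h3, smul_smul, inv_mul_cancel₀ h2, one_smul]
        rw [h1]
        refine Submodule.smul_mem _ _ (Submodule.add_mem _ (Submodule.add_mem _ ?_ ?_) ?_)
        · exact Submodule.mul_mem_mul (mem_Dg.2 (by simp)) hrest
        · exact Submodule.mul_mem_mul (X_mem_Dg 0) (hder 0)
        · exact Submodule.mul_mem_mul (X_mem_Dg 1) (hder 1)
      refine ⟨γ', d - r * γ + r * 1, by omega, ?_, ?_⟩
      · have e1 : r * γ = r * γ' + r * 1 := by rw [hγ']; ring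
        omega
      · have h2 := Submodule.mul_mem_mul hwf (Submodule.pow_mem_pow _ hC1 r)
        rw [← hfe', mul_pow, ← mul_assoc] at h2
        exact smL ((smR (Dg_pow_le 1 r)).trans (Dg_mul_le _ _)) h2

end Pool.Agent.H959Z.HH
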