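import Pool.Agent.H959Z.HH6

/-!
Homogenisation and the projective form of the containment.
-/

set_option autoImplicit false

namespace Pool.Agent.H959Z.HH

open MvPolynomial Pool.Agent.Chud

universe u

section aux

variable {K : Type*} [Field K]

/-- a linear form -/
noncomputable def lf (α β : K) : MvPolynomial (Fin 3) K := X 2 + C α * X 0 + C β * X 1

/-- dehomogenisation with respect to `lf α β` -/
noncomputable def dh (α β : K) : MvPolynomial (Fin 3) K →ₐ[K] MvPolynomial (Fin 2) K :=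
  aeval ![X 0, X 1, 1 - C α * X 0 - C β * X 1]

@[simp] theorem dh_X0 (α β : K) : dh α β (X 0) = X 0 := by simp [dh]
@[simp] theorem dh_X1 (α β : K) : dh α β (X 1) = X 1 := by simp [dh]
@[simp] theorem dh_X2 (α β : K) : dh α β (X 2) = 1 - C α * X 0 - C β * X 1 := by simp [dh]
@[simp] theorem dh_C (α β a : K) : dh α β (C a) = C a := by simp [dh]

@[simp] theorem dh_lf (α β : K) : dh α β (lf α β) = 1 := by
  simp only [lf, map_add, map_mul, dh_X0, dh_X1, dh_X2, dh_C]; ring

theorem lf_hom (α β : K) : (lf α β).IsHomogeneous 1 :=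
  ((isHomogeneous_X K 2).add (isHomogeneous_C_mul_X α 0)).add (isHomogeneous_C_mul_X β 1)

theorem eval_dh (α β : K) (v : Fin 2 → K) (F : MvPolynomial (Fin 3) K) :
    eval v (dh α β F) = eval ![v 0, v 1, 1 - α * v 0 - β * v 1] F := by
  induction F using MvPolynomial.induction_on with
  | C a => simp
  | add a b ha hb => rw [map_add, map_add, map_add, ha, hb]
  | mul_X a i ha =>
    rw [map_mul, map_mul, map_mul, ha]
    congr 1
    fin_cases i <;> simp

theorem eval_smul_hom {σ : Type*} [Fintype σ] {F : MvPolynomial σ K} {d : ℕ}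
    (hF : F.IsHomogeneous d) (a : K) (v : σ → K) : eval (a • v) F = a ^ d * eval v F := by
  rw [eval_eq', eval_eq', Finset.mul_sum]
  refine Finset.sum_congr rfl fun m hm => ?_
  have hdeg : ∑ i, m i = d := by
    have h1 := hF (mem_support_iff.1 hm)
    rw [Finsupp.weight_apply, Finsupp.sum_fintype _ _ (by simp)] at h1
    simpa using h1
  have h2 : ∏ i, (a • v) i ^ m i = a ^ d * ∏ i, v i ^ m i := by
    rw [← hdeg, ← Finset.prod_pow_eq_pow_sum, ← Finset.prod_mul_distrib]
    refine Finset.prod_congr rfl fun i _ => ?_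
    rw [Pi.smul_apply, smul_eq_mul, mul_pow]
  rw [h2]
  ring

theorem vec_eq (α β : K) (v : Fin 3 → K) (h : v 2 + α * v 0 + β * v 1 ≠ 0) :
    v = (v 2 + α * v 0 + β * v 1) • ![v 0 / (v 2 + α * v 0 + β * v 1),
      v 1 / (v 2 + α * v 0 + β * v 1),
      1 - α * (v 0 / (v 2 + α * v 0 + β * v 1)) - β * (v 1 / (v 2 + α * v 0 + β * v 1))] := by
  funext i
  fin_cases i
  · simp only [Fin.zero_eta, Pi.smul_apply, Matrix.cons_val_zero, smul_eq_mul]
    rw [mul_div_cancel₀ _ h]
  · simp only [Fin.mk_one, Pi.smul_apply, Matrix.cons_val_one, Matrix.cons_val_zero, smul_eq_mul]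
    rw [mul_div_cancel₀ _ h]
  · simp only [Fin.reduceFinMk, Pi.smul_apply, Matrix.cons_val, smul_eq_mul]
    field_simp
    ring

theorem dh_inj [Infinite K] (α β : K) {F : MvPolynomial (Fin 3) K} {d : ℕ} (hF : F.IsHomogeneous d)
    (h0 : dh α β F = 0) : F = 0 := by
  have h1 : lf α β * F = 0 := by
    apply MvPolynomial.funext
    intro v
    rw [map_mul, map_zero]
    by_cases h : v 2 + α * v 0 + β * v 1 = 0
    · have : eval v (lf α β) = 0 := by simpa [lf] using h
      rw [this, zero_mul]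
    · have h2 := eval_dh α β ![v 0 / (v 2 + α * v 0 + β * v 1), v 1 / (v 2 + α * v 0 + β * v 1)] F
      rw [h0, map_zero] at h2
      simp only [Matrix.cons_val_zero, Matrix.cons_val_one] at h2
      have h3 : eval v F = 0 := by
        rw [vec_eq α β v h, eval_smul_hom hF, ← h2, mul_zero]
      rw [h3, mul_zero]
  rcases mul_eq_zero.1 h1 with h | h
  · have := dh_lf α β
    rw [h, map_zero] at this
    exact absurd this zero_ne_one
  · exact h

theorem dh_mem_Dg (α β : K) {F : MvPolynomial (Fin 3) K} {d : ℕ} (hF : F.IsHomogeneous d) :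
    dh α β F ∈ Dg K d := by
  have h1 : (homogeneousSubmodule (Fin 3) K 1).map (dh α β).toLinearMap ≤ Dg K 1 := by
    rw [homogeneousSubmodule_one_eq_span_X, Submodule.map_span, Submodule.span_le]
    rintro _ ⟨_, ⟨i, rfl⟩, rfl⟩
    have hc : ∀ (a : K) (j : Fin 2), C a * X j ∈ Dg K 1 := fun a j => by
      rw [← smul_eq_C_mul]; exact Submodule.smul_mem _ _ (X_mem_Dg j)
    fin_cases i
    · simpa using X_mem_Dg (K := K) 0
    · simpa using X_mem_Dg (K := K) 1
    · have : (1 : MvPolynomial (Fin 2) K) - C α * X 0 - C β * X 1 ∈ Dg K 1 :=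
        Submodule.sub_mem _ (Submodule.sub_mem _ (mem_Dg.2 (by simp)) (hc _ _)) (hc _ _)
      simpa using this
  have h2 : F ∈ homogeneousSubmodule (Fin 3) K 1 ^ d := by
    rw [homogeneousSubmodule_one_pow]; exact hF
  have h3 := Submodule.mem_map_of_mem (f := (dh α β).toLinearMap) h2
  rw [Submodule.map_pow] at h3
  simpa using Dg_pow_le (K := K) 1 d (sm_pow h1 d h3)

theorem exists_hom (α β : K) (c : Fin 2 → K) {g : MvPolynomial (Fin 2) K} {e : ℕ} (hg : g ∈ Dg K e)
    (N : ℕ) (hN : g ∈ mI c ^ N) (P : Ideal (MvPolynomial (Fin 3) K))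
    (h0 : X 0 - C (c 0) * lf α β ∈ P) (h1 : X 1 - C (c 1) * lf α β ∈ P) :
    ∃ G : MvPolynomial (Fin 3) K, G.IsHomogeneous e ∧ dh α β G = g ∧ G ∈ P ^ N := by
  have hl : ∀ (a : K) (j : Fin 3), (X j - C a * lf α β : MvPolynomial (Fin 3) K).IsHomogeneous 1 :=
    fun a j => (isHomogeneous_X K j).sub ((lf_hom α β).C_mul a)
  have hdeg : ∀ s ∈ (trans c g).support, s 0 + s 1 ≤ e := fun s hs =>
    (deg_le_of_mem hs).trans ((totalDegree_trans_le c g).trans (mem_Dg.1 hg))
  refine ⟨∑ s ∈ (trans c g).support, C (coeff s (trans c g)) * ((X 0 - C (c 0) * lf α β) ^ s 0 *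
    (X 1 - C (c 1) * lf α β) ^ s 1 * lf α β ^ (e - s 0 - s 1)), ?_, ?_, ?_⟩
  · refine IsHomogeneous.sum _ _ _ fun s hs => IsHomogeneous.C_mul ?_ _
    have h2 := (((hl (c 0) 0).pow (s 0)).mul ((hl (c 1) 1).pow (s 1))).mul
      ((lf_hom α β).pow (e - s 0 - s 1))
    have h3 := hdeg s hs
    rwa [show 1 * s 0 + 1 * s 1 + 1 * (e - s 0 - s 1) = e by omega] at h2
  · conv_rhs => rw [← trans_neg_trans c g, (trans c g).as_sum]
    rw [map_sum, map_sum]
    refine Finset.sum_congr rfl fun s _ => ?_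
    simp only [map_mul, map_pow, map_sub, dh_X0, dh_X1, dh_C, dh_lf, one_pow, mul_one]
    unfold Chud.trans
    rw [aeval_monomial, Finsupp.prod_fintype _ _ (by simp), Fin.prod_univ_two]
    simp [sub_eq_add_neg]
  · refine Ideal.sum_mem _ fun s hs => Ideal.mul_mem_left _ _ (Ideal.mul_mem_right _ _ ?_)
    have h2 := Ideal.mul_mem_mul (Ideal.pow_mem_pow h0 (s 0)) (Ideal.pow_mem_pow h1 (s 1))
    rw [← pow_add] at h2
    refine Ideal.pow_le_pow_right ?_ h2
    by_contra hlt
    exact mem_support_iff.1 hs ((H580C.MT.mem_iff c g N).1 hN s (by rw [degree_two]; omega))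

/-- the ideal of a point of the projective plane -/
noncomputable abbrev pI (p : Fin 3 → K) : Ideal (MvPolynomial (Fin 3) K) :=
  Ideal.span (Set.range (fun ij : Fin 3 × Fin 3 =>
    (C (p ij.1) : MvPolynomial (Fin 3) K) * X ij.2 - (C (p ij.2) : MvPolynomial (Fin 3) K) * X ij.1))

theorem pI_gen (p : Fin 3 → K) (i j : Fin 3) :
    (C (p i) : MvPolynomial (Fin 3) K) * X j - C (p j) * X i ∈ pI p :=
  Ideal.subset_span ⟨(i, j), rfl⟩

attribute [local instance] MvPolynomial.gradedAlgebra in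
theorem pI_comp (p : Fin 3 → K) (N : ℕ) {F : MvPolynomial (Fin 3) K} (hF : F ∈ pI p ^ N) (n : ℕ) :
    homogeneousComponent n F ∈ pI p ^ N := by
  have h1 : (pI p).IsHomogeneous (homogeneousSubmodule (Fin 3) K) := by
    apply Ideal.homogeneous_span
    rintro _ ⟨ij, rfl⟩
    exact ⟨1, (isHomogeneous_C_mul_X _ _).sub (isHomogeneous_C_mul_X _ _)⟩
  have h2 : ∀ N, (pI p ^ N).IsHomogeneous (homogeneousSubmodule (Fin 3) K) := by
    intro N
    induction N with
    | zero => rw [pow_zero, Ideal.one_eq_top]; exact Ideal.IsHomogeneous.top _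
    | succ N ih => rw [pow_succ]; exact ih.mul h1
  exact homogeneousComponent_mem_of_mem (h2 N) hF n

theorem exists_lf [Infinite K] {ι : Type*} [Fintype ι] (p : ι → Fin 3 → K) (hp : ∀ i, p i ≠ 0) :
    ∃ α β : K, ∀ i, p i 2 + α * p i 0 + β * p i 1 ≠ 0 := by
  classical
  let Q : MvPolynomial (Fin 2) K := ∏ i, (C (p i 2) + X 0 * C (p i 0) + X 1 * C (p i 1))
  have hQ : Q ≠ 0 := by
    refine Finset.prod_ne_zero_iff.2 fun i _ h => hp i ?_
    have e0 := congrArg (eval ![0, 0]) h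
    have e1 := congrArg (eval ![1, 0]) h
    have e2 := congrArg (eval ![0, 1]) h
    simp at e0 e1 e2
    funext j
    fin_cases j
    · simpa [e0] using e1
    · simpa [e0] using e2
    · simpa using e0
  by_contra hcon
  push Not at hcon
  apply hQ
  apply MvPolynomial.funext
  intro v
  obtain ⟨i, hi⟩ := hcon (v 0) (v 1)
  rw [map_zero, map_prod]
  exact Finset.prod_eq_zero (Finset.mem_univ i) (by simpa using hi)

theorem hom_mem_M {F : MvPolynomial (Fin 3) K} {e r : ℕ} (hF : F.IsHomogeneous e) (h : r ≤ e) :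
    F ∈ Ideal.span (Set.range (fun i : Fin 3 => (X i : MvPolynomial (Fin 3) K))) ^ r :=
  (mem_pow_idealOfVars_iff' r F).2 fun x hx => hF.coeff_eq_zero (by omega)

end aux

theorem proj_main {K : Type u} [Field K] [CharZero K] {ι : Type*} [Fintype ι]
    (p : ι → Fin 3 → K) (hp : ∀ i, p i ≠ 0) (hpp : ∀ i j (a : K), p j = a • p i → j = i)
    (μ : ι → ℕ) (i₀ : ι) (hμ : 1 ≤ μ i₀) (m r : ℕ) (hm : 1 ≤ m) (hr : 1 ≤ r) :
    (⨅ i, pI (p i) ^ (r * ((m + 1) * μ i))) ≤
      Ideal.span (Set.range (fun i : Fin 3 => (X i : MvPolynomial (Fin 3) K))) ^ r *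
        (⨅ i, pI (p i) ^ (m * μ i)) ^ r := by
  classical
  have : Infinite K := Infinite.of_injective (Nat.cast : ℕ → K) Nat.cast_injective
  obtain ⟨α, β, hl⟩ := exists_lf p hp
  set M := Ideal.span (Set.range (fun i : Fin 3 => (X i : MvPolynomial (Fin 3) K))) with hM
  set J := ⨅ i, pI (p i) ^ (m * μ i) with hJ
  let L : ι → K := fun i => p i 2 + α * p i 0 + β * p i 1
  let c : ι → Fin 2 → K := fun i => ![p i 0 / L i, p i 1 / L i]
  have hv : ∀ i, p i = L i • ![c i 0, c i 1, 1 - α * c i 0 - β * c i 1] := fun i =>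
    vec_eq α β (p i) (hl i)
  have hc : Function.Injective c := by
    intro i j hij
    refine hpp j i (L i / L j) ?_
    have h1 : L j ≠ 0 := hl j
    rw [hv i, hv j, smul_smul, div_mul_cancel₀ _ h1, hij]
  have hdown : ∀ i N, ∀ G ∈ pI (p i) ^ N, dh α β G ∈ mI (c i) ^ N := by
    intro i N G hG
    have h1 : (pI (p i)).map (dh α β) ≤ mI (c i) := by
      rw [Ideal.map_le_iff_le_comap, Ideal.span_le]
      rintro _ ⟨ij, rfl⟩
      change eval (c i) (dh α β _) = 0
      rw [eval_dh]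
      have h2 := congrFun (hv i) ij.1
      have h3 := congrFun (hv i) ij.2
      simp only [map_sub, map_mul, eval_C, eval_X]
      rw [h2, h3, Pi.smul_apply, Pi.smul_apply, smul_eq_mul, smul_eq_mul]
      ring
    have h2 := Ideal.mem_map_of_mem (dh α β) hG
    rw [Ideal.map_pow] at h2
    exact Ideal.pow_right_mono h1 N h2
  have hg0 : ∀ i, X 0 - C (c i 0) * lf α β ∈ pI (p i) := by
    intro i
    have h1 : L i ≠ 0 := hl i
    have h2 : X 0 - C (c i 0) * lf α β = C (L i)⁻¹ * ((C (p i 2) * X 0 - C (p i 0) * X 2) +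
        C β * (C (p i 1) * X 0 - C (p i 0) * X 1)) := by
      have h3 : (C (L i)⁻¹ : MvPolynomial (Fin 3) K) * C (L i) = 1 := by
        rw [← map_mul, inv_mul_cancel₀ h1, map_one]
      have h4 : (C (c i 0) : MvPolynomial (Fin 3) K) = C (L i)⁻¹ * C (p i 0) := by
        rw [← map_mul]; simp [c, div_eq_inv_mul]
      have h5 : (C (L i) : MvPolynomial (Fin 3) K) = C (p i 2) + C α * C (p i 0) + C β * C (p i 1) := by
        simp [L]
      rw [h5] at h3
      rw [h4, lf]
      linear_combination (-X 0) * h3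
    rw [h2]
    exact Ideal.mul_mem_left _ _ (Ideal.add_mem _ (pI_gen _ _ _) (Ideal.mul_mem_left _ _ (pI_gen _ _ _)))
  have hg1 : ∀ i, X 1 - C (c i 1) * lf α β ∈ pI (p i) := by
    intro i
    have h1 : L i ≠ 0 := hl i
    have h2 : X 1 - C (c i 1) * lf α β = C (L i)⁻¹ * ((C (p i 2) * X 1 - C (p i 1) * X 2) +
        C α * (C (p i 0) * X 1 - C (p i 1) * X 0)) := by
      have h3 : (C (L i)⁻¹ : MvPolynomial (Fin 3) K) * C (L i) = 1 := by
        rw [← map_mul, inv_mul_cancel₀ h1, map_one]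
      have h4 : (C (c i 1) : MvPolynomial (Fin 3) K) = C (L i)⁻¹ * C (p i 1) := by
        rw [← map_mul]; simp [c, div_eq_inv_mul]
      have h5 : (C (L i) : MvPolynomial (Fin 3) K) = C (p i 2) + C α * C (p i 0) + C β * C (p i 1) := by
        simp [L]
      rw [h5] at h3
      rw [h4, lf]
      linear_combination (-X 1) * h3
    rw [h2]
    exact Ideal.mul_mem_left _ _ (Ideal.add_mem _ (pI_gen _ _ _) (Ideal.mul_mem_left _ _ (pI_gen _ _ _)))
  have hD : ∀ e, Dg K e ≤ (homogeneousSubmodule (Fin 3) K e).map (dh α β).toLinearMap := by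
    intro e g hg
    obtain ⟨G, hG, hG', -⟩ := exists_hom α β 0 hg 0 (by simp) ⊤ trivial trivial
    exact ⟨G, hG, hG'⟩
  have hV : ∀ a, Vd (⨅ i, mI (c i) ^ (m * μ i)) a ≤
      (homogeneousSubmodule (Fin 3) K a ⊓ J.restrictScalars K).map (dh α β).toLinearMap := by
    intro a g hg
    obtain ⟨G, hG, hG'⟩ := hD a hg.2
    refine ⟨G, ⟨hG, ?_⟩, hG'⟩
    change G ∈ J
    rw [hJ, Ideal.mem_iInf]
    intro i
    obtain ⟨G', h1, h2, h3⟩ := exists_hom α β (c i) hg.2 (m * μ i) (Ideal.mem_iInf.1 hg.1 i) (pI (p i))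
      (hg0 i) (hg1 i)
    have h4 : G - G' = 0 := dh_inj α β (IsHomogeneous.sub hG h1) (by
      rw [map_sub, h2]; exact sub_eq_zero.2 hG')
    rw [sub_eq_zero.1 h4]
    exact h3
  have hom : ∀ d, ∀ F : MvPolynomial (Fin 3) K, F.IsHomogeneous d →
      (∀ i, F ∈ pI (p i) ^ (r * ((m + 1) * μ i))) → F ∈ M ^ r * J ^ r := by
    intro d F hF hFm
    by_cases h0 : F = 0
    · rw [h0]; exact Ideal.zero_mem _
    obtain ⟨a, e, hre, hd, hf⟩ := affine_main c hc μ i₀ hμ m r d hm hr (dh α β F)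
      (fun h => h0 (dh_inj α β hF h)) (mem_Dg.1 (dh_mem_Dg α β hF)) (fun i => hdown i _ F (hFm i))
    have h1 := smL (hD e) (smR (sm_pow (hV a) r) hf)
    rw [← Submodule.map_pow, ← Submodule.map_mul] at h1
    obtain ⟨G, hG, hG'⟩ := h1
    have h2 : ∀ n, ∀ y ∈ (homogeneousSubmodule (Fin 3) K a ⊓ J.restrictScalars K) ^ n,
        y.IsHomogeneous (n * a) ∧ y ∈ J ^ n := by
      intro n
      induction n with
      | zero =>
        intro y hy
        rw [pow_zero, Submodule.mem_one] at hy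
        obtain ⟨z, rfl⟩ := hy
        exact ⟨by simpa using isHomogeneous_C _ z, by simp⟩
      | succ n ih =>
        intro y hy
        rw [pow_succ] at hy
        refine Submodule.mul_induction_on hy (fun x hx z hz => ⟨?_, ?_⟩)
          (fun x z hx hz => ⟨hx.1.add hz.1, Ideal.add_mem _ hx.2 hz.2⟩)
        · rw [add_mul, one_mul]; exact (ih x hx).1.mul hz.1
        · rw [pow_succ]; exact Ideal.mul_mem_mul (ih x hx).2 hz.2
    have h3 : G.IsHomogeneous d ∧ G ∈ M ^ r * J ^ r := by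
      refine Submodule.mul_induction_on hG (fun x hx z hz => ⟨?_, ?_⟩)
        (fun x z hx hz => ⟨hx.1.add hz.1, Ideal.add_mem _ hx.2 hz.2⟩)
      · rw [← hd]; exact IsHomogeneous.mul hx (h2 r z hz).1
      · exact Ideal.mul_mem_mul (hom_mem_M hx hre) (h2 r z hz).2
    have h4 : G - F = 0 := dh_inj α β (h3.1.sub hF) (by
      rw [map_sub]; exact sub_eq_zero.2 hG')
    rw [← sub_eq_zero.1 h4]
    exact h3.2
  intro F hF
  rw [← sum_homogeneousComponent F]
  refine Ideal.sum_mem _ fun n _ => hom n _ (homogeneousComponent_isHomogeneous n F) fun i => ?_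
  exact pI_comp _ _ (Ideal.mem_iInf.1 hF i) n

end Pool.Agent.H959Z.HH
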