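import Pool.Agent.H959Z.HH7

/-!
The containment for points of the projective plane and ideals of forms vanishing at them.
-/

set_option autoImplicit false

namespace Pool.Agent.H959Z.HH

open MvPolynomial Pool.Agent.Chud

universe u

theorem forms_eq_pI {K : Type*} [Field K] [Infinite K] (p : Fin 3 → K) (hp : p ≠ 0) :
    Ideal.span {F : MvPolynomial (Fin 3) K | (∃ d, F.IsHomogeneous d) ∧ eval p F = 0} = pI p := by
  apply le_antisymm
  · rw [Ideal.span_le]
    rintro F ⟨⟨d, hF⟩, h0⟩
    obtain ⟨j, hj⟩ : ∃ j, p j ≠ 0 := Function.ne_iff.1 hp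
    have key : ∀ G : MvPolynomial (Fin 3) K,
        G - aeval (fun i => C (p i / p j) * X j) G ∈ pI p := by
      intro G
      induction G using MvPolynomial.induction_on with
      | C a => simp
      | add a b ha hb =>
        have : a + b - aeval (fun i => C (p i / p j) * X j) (a + b) =
            (a - aeval (fun i => C (p i / p j) * X j) a) +
              (b - aeval (fun i => C (p i / p j) * X j) b) := by
          rw [map_add]; ring
        rw [this]; exact Ideal.add_mem _ ha hb
      | mul_X a i ha =>
        have h1 : (C (p i / p j) : MvPolynomial (Fin 3) K) = C (p j)⁻¹ * C (p i) := by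
          rw [← map_mul, div_eq_inv_mul]
        have h2 : (C (p j)⁻¹ : MvPolynomial (Fin 3) K) * C (p j) = 1 := by
          rw [← map_mul, inv_mul_cancel₀ hj, map_one]
        have : a * X i - aeval (fun i => C (p i / p j) * X j) (a * X i) =
            (a - aeval (fun i => C (p i / p j) * X j) a) * X i +
              aeval (fun i => C (p i / p j) * X j) a * C (p j)⁻¹ * (C (p j) * X i - C (p i) * X j) := by
          rw [map_mul, aeval_X, h1]
          linear_combination (-(aeval (fun i => C (p i / p j) * X j) a) * X i) * h2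
        rw [this]
        exact Ideal.add_mem _ (Ideal.mul_mem_right _ _ ha) (Ideal.mul_mem_left _ _ (pI_gen p j i))
    have h3 : aeval (fun i => (C (p i / p j) * X j : MvPolynomial (Fin 3) K)) F = 0 := by
      apply MvPolynomial.funext
      intro v
      have h4 : eval v (aeval (fun i => (C (p i / p j) * X j : MvPolynomial (Fin 3) K)) F) =
          eval ((v j / p j) • p) F := by
        clear hF h0
        induction F using MvPolynomial.induction_on with
        | C a => simp
        | add a b ha hb => rw [map_add, map_add, map_add, ha, hb]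
        | mul_X a i ha =>
          rw [map_mul, map_mul, map_mul, ha]
          congr 1
          simp only [aeval_X, map_mul, eval_C, eval_X, Pi.smul_apply, smul_eq_mul]
          field_simp
      rw [h4, eval_smul_hom hF, h0, mul_zero, map_zero]
    have h5 := key F
    rwa [h3, sub_zero] at h5
  · rw [Ideal.span_le]
    rintro _ ⟨ij, rfl⟩
    refine Ideal.subset_span ⟨⟨1, (isHomogeneous_C_mul_X _ _).sub (isHomogeneous_C_mul_X _ _)⟩, ?_⟩
    simp [mul_comm]

theorem proj_final {K : Type u} [Field K] [CharZero K] {s : ℕ}
    (P : Fin s → Projectivization K (Fin 3 → K)) (hP : Function.Injective P) (μ : Fin s → ℕ)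
    (hμ : ∃ i, 1 ≤ μ i) (r m : ℕ) (hr : 1 ≤ r) (hm : 1 ≤ m) :
    (⨅ i, Ideal.span {F : MvPolynomial (Fin 3) K |
        (∃ d, F.IsHomogeneous d) ∧ eval (P i).rep F = 0} ^ (r * (m + 1) * μ i)) ≤
      Ideal.span (Set.range (fun i : Fin 3 => (X i : MvPolynomial (Fin 3) K))) ^ r *
        (⨅ i, Ideal.span {F : MvPolynomial (Fin 3) K |
          (∃ d, F.IsHomogeneous d) ∧ eval (P i).rep F = 0} ^ (m * μ i)) ^ r := by
  have : Infinite K := Infinite.of_injective (Nat.cast : ℕ → K) Nat.cast_injective
  obtain ⟨i₀, hi₀⟩ := hμ
  simp only [fun i => forms_eq_pI (P i).rep (P i).rep_nonzero, mul_assoc]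
  refine proj_main (fun i => (P i).rep) (fun i => (P i).rep_nonzero) (fun i j a h => hP ?_) μ i₀ hi₀
    m r hm hr
  rw [← (P j).mk_rep, ← (P i).mk_rep, Projectivization.mk_eq_mk_iff']
  exact ⟨a, h.symm⟩

end Pool.Agent.H959Z.HH
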