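import Mathlib

set_option autoImplicit false

/-! A heap game with five kinds of heaps whose misere quotient (of order 36) has a maximal
subgroup that contains no P-position. -/

namespace Pool.Agent.H959Z.Misere

/-- A position: the numbers of heaps of each of the five kinds. -/
@[ext] structure G where
  a : ℕ
  b : ℕ
  c : ℕ
  d : ℕ
  e : ℕ

def G.add (x y : G) : G := ⟨x.a + y.a, x.b + y.b, x.c + y.c, x.d + y.d, x.e + y.e⟩

/-- Remove `u` and put `v`. -/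
def G.mv (x u v : G) : G :=
  ⟨x.a - u.a + v.a, x.b - u.b + v.b, x.c - u.c + v.c, x.d - u.d + v.d, x.e - u.e + v.e⟩

def G.le (u x : G) : Bool :=
  decide (u.a ≤ x.a) && decide (u.b ≤ x.b) && decide (u.c ≤ x.c) && decide (u.d ≤ x.d) &&
    decide (u.e ≤ x.e)

/-- The moves: remove one heap (first component), put the heaps of the second component. -/
def moves : List (G × G) :=
  [(⟨1,0,0,0,0⟩, ⟨0,0,0,0,0⟩),
   (⟨0,1,0,0,0⟩, ⟨0,0,0,0,0⟩), (⟨0,1,0,0,0⟩, ⟨1,0,0,0,0⟩),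
   (⟨0,0,1,0,0⟩, ⟨1,0,0,0,0⟩), (⟨0,0,1,0,0⟩, ⟨0,1,0,0,0⟩), (⟨0,0,1,0,0⟩, ⟨1,1,0,0,0⟩),
   (⟨0,0,1,0,0⟩, ⟨0,2,0,0,0⟩),
   (⟨0,0,0,1,0⟩, ⟨1,0,0,0,0⟩), (⟨0,0,0,1,0⟩, ⟨0,1,0,0,0⟩), (⟨0,0,0,1,0⟩, ⟨1,1,0,0,0⟩),
   (⟨0,0,0,1,0⟩, ⟨0,2,0,0,0⟩), (⟨0,0,0,1,0⟩, ⟨1,2,0,0,0⟩), (⟨0,0,0,1,0⟩, ⟨1,0,1,0,0⟩),
   (⟨0,0,0,0,1⟩, ⟨1,1,0,0,0⟩), (⟨0,0,0,0,1⟩, ⟨0,0,1,0,0⟩), (⟨0,0,0,0,1⟩, ⟨1,0,1,1,0⟩),
   (⟨0,0,0,0,1⟩, ⟨1,0,0,2,0⟩)]

def opts (x : G) : Set G := {y | ∃ m ∈ moves, G.le m.1 x = true ∧ y = x.mv m.1 m.2}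

/-- Class of a multiplicity: zero, odd, or even and positive. -/
def k (v : ℕ) : ℕ := if v = 0 then 0 else 2 - v % 2

def Pb (a b c d e : ℕ) : Bool :=
  if d = 0 then
    (if e = 0 then (b == 0 && a == 1) || (b == 2 && a != 1 && c != 1)
     else (b == 1 && a != 1 && c != 1))
  else ((c == 1) == (d == 1)) && ((b == 0 && a == 1) || (b == 2 && a != 1))

/-- The P-positions. -/
def P (x : G) : Bool := Pb (k x.a) (k x.b) (k x.c) (k x.d) (k x.e)

def hasOpt (x : G) : Bool := moves.any (fun m => G.le m.1 x)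

def win (x : G) : Bool := moves.any (fun m => G.le m.1 x && P (x.mv m.1 m.2))

theorem fin_check : ∀ a ∈ List.range 4, ∀ b ∈ List.range 4, ∀ c ∈ List.range 4,
    ∀ d ∈ List.range 4, ∀ e ∈ List.range 4,
    P ⟨a, b, c, d, e⟩ = (hasOpt ⟨a, b, c, d, e⟩ && !win ⟨a, b, c, d, e⟩) := by
  decide +kernel

theorem moves_small : ∀ m ∈ moves, m.1.a ≤ 1 ∧ m.1.b ≤ 1 ∧ m.1.c ≤ 1 ∧ m.1.d ≤ 1 ∧ m.1.e ≤ 1 := by
  decide +kernel

/-- Representative in `{0,1,2,3}`. -/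
def r (v : ℕ) : ℕ := if v ≤ 1 then v else 2 + v % 2

theorem r_lt (v : ℕ) : r v ∈ List.range 4 := by
  rw [List.mem_range]; unfold r; split_ifs <;> omega

theorem k_r (v u w : ℕ) (hu : u ≤ 1) : k (v - u + w) = k (r v - u + w) := by
  unfold k r; split_ifs <;> omega

theorem k_r0 (v : ℕ) : k v = k (r v) := by
  unfold k r; split_ifs <;> omega

theorem le_r (v u : ℕ) (hu : u ≤ 1) : (u ≤ v) = (u ≤ r v) := by
  apply propext; unfold r; split_ifs <;> omega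

def G.rep (x : G) : G := ⟨r x.a, r x.b, r x.c, r x.d, r x.e⟩

theorem P_rep (x : G) : P x = P x.rep := by
  unfold P G.rep
  simp only
  rw [k_r0 x.a, k_r0 x.b, k_r0 x.c, k_r0 x.d, k_r0 x.e]

theorem le_rep (x : G) (m : G × G) (hm : m ∈ moves) : G.le m.1 x = G.le m.1 x.rep := by
  obtain ⟨h1, h2, h3, h4, h5⟩ := moves_small m hm
  unfold G.le G.rep
  simp only [le_r x.a _ h1, le_r x.b _ h2, le_r x.c _ h3, le_r x.d _ h4, le_r x.e _ h5]

theorem P_mv_rep (x : G) (m : G × G) (hm : m ∈ moves) :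
    P (x.mv m.1 m.2) = P (x.rep.mv m.1 m.2) := by
  obtain ⟨h1, h2, h3, h4, h5⟩ := moves_small m hm
  unfold P G.mv G.rep
  simp only
  rw [k_r x.a _ _ h1, k_r x.b _ _ h2, k_r x.c _ _ h3, k_r x.d _ _ h4, k_r x.e _ _ h5]

theorem any_congr' {β : Type} (l : List β) (f g : β → Bool) (h : ∀ m ∈ l, f m = g m) :
    l.any f = l.any g := by
  induction l with
  | nil => rfl
  | cons m t ih =>
    simp only [List.any_cons]
    rw [h m (List.mem_cons_self ..), ih (fun n hn => h n (List.mem_cons_of_mem _ hn))]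

theorem P_rec (x : G) : P x = (hasOpt x && !win x) := by
  have h1 : hasOpt x = hasOpt x.rep := any_congr' _ _ _ (fun m hm => le_rep x m hm)
  have h2 : win x = win x.rep :=
    any_congr' _ _ _ (fun m hm => by rw [le_rep x m hm, P_mv_rep x m hm])
  rw [P_rep x, h1, h2]
  exact fin_check _ (r_lt _) _ (r_lt _) _ (r_lt _) _ (r_lt _) _ (r_lt _)

/-- The N-positions. -/
def N (x : G) : Prop := P x = false

theorem N_rec (x : G) : N x ↔ (opts x = ∅ ∨ ∃ y ∈ opts x, ¬ N y) := by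
  unfold N
  rw [P_rec x]
  have h1 : hasOpt x = false ↔ opts x = ∅ := by
    unfold hasOpt opts
    rw [Set.eq_empty_iff_forall_notMem, List.any_eq_false]
    constructor
    · rintro h y ⟨m, hm, hle, _⟩
      exact h m hm hle
    · intro h m hm hle
      exact h _ ⟨m, hm, hle, rfl⟩
  have h2 : win x = true ↔ ∃ y ∈ opts x, ¬ P y = false := by
    unfold win opts
    rw [List.any_eq_true]
    constructor
    · rintro ⟨m, hm, h⟩
      rw [Bool.and_eq_true] at h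
      exact ⟨_, ⟨m, hm, h.1, rfl⟩, by rw [h.2]; decide⟩
    · rintro ⟨y, ⟨m, hm, hle, rfl⟩, h⟩
      refine ⟨m, hm, ?_⟩
      rw [Bool.and_eq_true]
      exact ⟨hle, by simpa using h⟩
  rw [← h1, ← h2]
  cases hasOpt x <;> cases win x <;> simp

theorem opts_finite (x : G) : (opts x).Finite := by
  refine ((List.finite_toSet moves).image (fun m => x.mv m.1 m.2)).subset ?_
  rintro y ⟨m, hm, _, rfl⟩
  exact ⟨m, hm, rfl⟩

def wt (x : G) : ℕ := x.a + 2 * x.b + 5 * x.c + 7 * x.d + 16 * x.e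

theorem moves_wt : ∀ m ∈ moves, wt m.2 < wt m.1 := by decide +kernel

theorem le_iff (u x : G) : G.le u x = true ↔
    u.a ≤ x.a ∧ u.b ≤ x.b ∧ u.c ≤ x.c ∧ u.d ≤ x.d ∧ u.e ≤ x.e := by
  unfold G.le
  simp only [Bool.and_eq_true, decide_eq_true_eq, and_assoc]

theorem opts_wf : WellFounded (fun y x : G => y ∈ opts x) := by
  refine Subrelation.wf (r := InvImage (· < ·) wt) ?_ (InvImage.wf wt wellFounded_lt)
  rintro y x ⟨m, hm, hle, rfl⟩
  have h := moves_wt m hm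
  rw [le_iff] at hle
  unfold InvImage
  unfold wt at h ⊢
  unfold G.mv
  simp only
  omega

theorem moves_unit : ∀ m ∈ moves, m.1.a + m.1.b + m.1.c + m.1.d + m.1.e = 1 := by
  decide +kernel

theorem opts_add (g h : G) : opts (g.add h) =
    (fun g' => G.add g' h) '' opts g ∪ (fun h' => G.add g h') '' opts h := by
  ext y
  constructor
  · rintro ⟨m, hm, hle, rfl⟩
    have hu := moves_unit m hm
    rw [le_iff] at hle
    simp only [G.add] at hle
    by_cases hg : G.le m.1 g = true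
    · left
      refine ⟨_, ⟨m, hm, hg, rfl⟩, ?_⟩
      rw [le_iff] at hg
      ext <;> simp only [G.add, G.mv] <;> omega
    · right
      have hh : G.le m.1 h = true := by
        rw [le_iff] at hg ⊢
        omega
      refine ⟨_, ⟨m, hm, hh, rfl⟩, ?_⟩
      rw [le_iff] at hh
      ext <;> simp only [G.add, G.mv] <;> omega
  · rintro (⟨g', ⟨m, hm, hle, rfl⟩, rfl⟩ | ⟨h', ⟨m, hm, hle, rfl⟩, rfl⟩)
    · refine ⟨m, hm, ?_, ?_⟩
      · rw [le_iff] at hle ⊢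
        simp only [G.add]
        omega
      · rw [le_iff] at hle
        ext <;> simp only [G.add, G.mv] <;> omega
    · refine ⟨m, hm, ?_, ?_⟩
      · rw [le_iff] at hle ⊢
        simp only [G.add]
        omega
      · rw [le_iff] at hle
        ext <;> simp only [G.add, G.mv] <;> omega

/-- The idempotent: one heap of the fifth kind. -/
def E : G := ⟨0, 0, 0, 0, 1⟩

theorem opts_E : (opts E).Nonempty :=
  ⟨_, ⟨(⟨0,0,0,0,1⟩, ⟨0,0,1,0,0⟩), by simp [moves], by decide, rfl⟩⟩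

theorem Pb_e (a b c d e e' : ℕ) (he : e ≠ 0) (he' : e' ≠ 0) : Pb a b c d e = Pb a b c d e' := by
  unfold Pb
  simp only [he, he', if_false]

theorem k_ne (v : ℕ) (hv : v ≠ 0) : k v ≠ 0 := by
  unfold k
  rw [if_neg hv]
  have : v % 2 < 2 := Nat.mod_lt _ (by norm_num)
  intro h
  omega

theorem E_idem (Z : G) : N ((E.add E).add Z) ↔ N (E.add Z) := by
  unfold N P G.add E
  simp only [Nat.zero_add]
  rw [Pb_e _ _ _ _ (k (1 + 1 + Z.e)) (k (1 + Z.e)) (k_ne _ (by omega)) (k_ne _ (by omega))]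

/-- Test positions. -/
def tests : List G :=
  [⟨0,0,0,0,0⟩, ⟨1,0,0,0,0⟩, ⟨0,1,0,0,0⟩, ⟨1,0,0,2,0⟩, ⟨0,2,0,0,0⟩, ⟨1,0,0,1,0⟩, ⟨0,2,0,2,0⟩]

theorem k_r1 (v w : ℕ) : k (v + w) = k (r v + w) := by
  unfold k r; split_ifs <;> omega

theorem P_add_rep (x z : G) : P (x.add z) = P (x.rep.add z) := by
  unfold P G.add G.rep
  simp only
  rw [k_r1 x.a, k_r1 x.b, k_r1 x.c, k_r1 x.d, k_r1 x.e]

theorem fin_check2 : ∀ a ∈ List.range 4, ∀ b ∈ List.range 4, ∀ c ∈ List.range 4,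
    ∀ d ∈ List.range 4, ∀ e ∈ List.range 4,
    (∀ z ∈ tests, P (G.add ⟨a, b, c, d, e⟩ z) = P (E.add z)) → b = 0 ∧ d = 0 := by
  decide +kernel

theorem fin_check3 : ∀ a ∈ List.range 4, ∀ c ∈ List.range 4, ∀ e ∈ List.range 4,
    P (G.add ⟨a, 0, c, 0, e⟩ E) = false := by
  decide +kernel

theorem r_zero (v : ℕ) (h : r v = 0) : v = 0 := by
  unfold r at h
  by_cases hv : v ≤ 1
  · rw [if_pos hv] at h; exact h
  · rw [if_neg hv] at h; omega

theorem no_P (X : G) (h1 : ∀ Z, N ((X.add E).add Z) ↔ N (X.add Z))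
    (Y : G) (h2 : ∀ Z, N ((X.add Y).add Z) ↔ N (E.add Z)) : N X := by
  have hz : ∀ z ∈ tests, P (G.add (X.add Y).rep z) = P (E.add z) := by
    intro z _
    rw [← P_add_rep]
    have := h2 z
    unfold N at this
    cases h : P ((X.add Y).add z) <;> cases h' : P (E.add z) <;> simp_all
  have hbd := fin_check2 _ (r_lt _) _ (r_lt _) _ (r_lt _) _ (r_lt _) _ (r_lt _) hz
  have hb : X.b = 0 := by
    have h3 : r (X.b + Y.b) = 0 := hbd.1
    have := r_zero _ h3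
    omega
  have hd : X.d = 0 := by
    have h3 : r (X.d + Y.d) = 0 := hbd.2
    have := r_zero _ h3
    omega
  have h0 := h1 ⟨0, 0, 0, 0, 0⟩
  have e1 : (X.add E).add ⟨0, 0, 0, 0, 0⟩ = X.add E := by
    ext <;> simp [G.add]
  have e2 : X.add ⟨0, 0, 0, 0, 0⟩ = X := by
    ext <;> simp [G.add]
  rw [e1, e2] at h0
  apply h0.1
  unfold N
  rw [P_add_rep]
  have e3 : X.rep = ⟨r X.a, 0, r X.c, 0, r X.e⟩ := by
    unfold G.rep
    rw [hb, hd]
    rfl
  rw [e3]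
  exact fin_check3 _ (r_lt _) _ (r_lt _) _ (r_lt _)

end Pool.Agent.H959Z.Misere
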