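import Pool.Agent.H959Z.OrbMu

set_option autoImplicit false

/-! Counting cyclic words in the orbit of the product of cubes. -/

namespace Pool.Agent.H959Z.Orb

open FreeGroup List

section Rot

variable {α : Type} [DecidableEq α]

omit [DecidableEq α] in
theorem cyc_rot (a : α × Bool) (M : List (α × Bool)) :
    IsCyclicallyReduced (a :: M) ↔ IsCyclicallyReduced (M ++ [a]) := by
  rcases M with _ | ⟨b, M⟩
  · rfl
  · unfold IsCyclicallyReduced FreeGroup.IsReduced
    rw [List.isChain_cons (x := a), List.isChain_append]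
    have e1 : (a :: b :: M).getLast? = (b :: M).getLast? := by simp [List.getLast?_cons_cons]
    have e2 : (b :: M ++ [a]).getLast? = some a := List.getLast?_concat ..
    rw [e1, e2]
    simp only [List.head?_cons, Option.mem_def, Option.some.injEq, forall_eq', List.cons_append,
      List.isChain_singleton, true_and]
    tauto

theorem eq_of_mk_eq {L L' : List (α × Bool)} (h : IsReduced L) (h' : IsReduced L')
    (e : mk L = mk L') : L = L' := by
  rw [← h.reduce_eq, ← h'.reduce_eq]
  exact reduce.sound e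

theorem isReduced_invRev {L : List (α × Bool)} (h : IsReduced L) : IsReduced (invRev L) := by
  rw [isReduced_iff_reduce_eq, reduce_invRev, h.reduce_eq]

omit [DecidableEq α] in
theorem invRev_single (a : α × Bool) : invRev [a] = [(a.1, !a.2)] := by simp [invRev]

omit [DecidableEq α] in
theorem mk_single_inv (a : α × Bool) : mk [(a.1, !a.2)] = (mk [a])⁻¹ := by
  rw [inv_mk, invRev_single]

theorem conj_rot (c : List (α × Bool)) (hc : IsReduced c) :
    ∀ L L' : List (α × Bool), IsCyclicallyReduced L → IsCyclicallyReduced L' →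
      mk L' = mk c * mk L * (mk c)⁻¹ → L ~r L' := by
  induction c using List.reverseRecOn with
  | nil =>
    intro L L' hL hL' e
    have : mk L' = mk L := by
      rw [e]
      change 1 * mk L * 1⁻¹ = mk L
      group
    rw [eq_of_mk_eq hL'.1 hL.1 this]
  | append_singleton c y ih =>
    intro L L' hL hL' e
    have hc' : IsReduced c := (List.isChain_append.1 hc).1
    have ec : mk (c ++ [y]) = mk c * mk [y] := by rw [mul_mk]
    rcases L with _ | ⟨a, M⟩
    · have : mk L' = mk [] := by
        rw [e]
        change _ * 1 * _ = 1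
        group
      rw [eq_of_mk_eq hL'.1 IsReduced.nil this]
    by_cases h1 : a = (y.1, !y.2)
    · have hrot := (cyc_rot a M).1 hL
      refine (List.isRotated_concat a M).symm.trans (ih hc' _ _ hrot hL' ?_)
      have e1 : mk (a :: M) = mk [a] * mk M := by rw [mul_mk]; rfl
      have e2 : mk (M ++ [a]) = mk M * mk [a] := by rw [mul_mk]
      rw [e, ec, e1, e2, h1, mk_single_inv]
      group
    obtain ⟨M', z, hz⟩ : ∃ M' z, a :: M = M' ++ [z] :=
      ⟨(a :: M).dropLast, (a :: M).getLast (by simp), (List.dropLast_append_getLast _).symm⟩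
    by_cases h2 : z = y
    · rw [hz] at hL e ⊢
      have hrot := (cyc_rot z M').2 hL
      refine (List.isRotated_concat z M').trans (ih hc' _ _ hrot hL' ?_)
      have e1 : mk (z :: M') = mk [z] * mk M' := by rw [mul_mk]; rfl
      have e2 : mk (M' ++ [z]) = mk M' * mk [z] := by rw [mul_mk]
      rw [e, ec, e1, e2, h2]
      group
    exfalso
    have hred : IsReduced ((c ++ [y]) ++ (a :: M) ++ invRev (c ++ [y])) := by
      unfold FreeGroup.IsReduced
      rw [List.isChain_append, List.isChain_append]
      refine ⟨⟨hc, hL.1, ?_⟩, isReduced_invRev hc, ?_⟩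
      · intro p hp q hq
        rw [List.getLast?_concat] at hp
        simp only [List.head?_cons, Option.mem_def, Option.some.injEq] at hp hq
        subst hp hq
        intro hh
        by_contra hne
        apply h1
        ext
        · exact hh.symm
        · simp only
          revert hne
          cases y.2 <;> cases a.2 <;> simp
      · intro p hp q hq
        rw [hz, ← List.append_assoc, List.getLast?_concat] at hp
        rw [invRev_append, invRev_single] at hq
        simp only [List.cons_append, List.nil_append, List.head?_cons, Option.mem_def,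
          Option.some.injEq] at hp hq
        subst hp hq
        intro hh
        by_contra hne
        apply h2
        ext
        · exact hh
        · revert hne
          simp only
          cases y.2 <;> cases z.2 <;> simp
    have e3 : mk L' = mk ((c ++ [y]) ++ (a :: M) ++ invRev (c ++ [y])) := by
      rw [e, inv_mk, mul_mk, mul_mk]
    have e4 := eq_of_mk_eq hL'.1 hred e3
    obtain ⟨f, c', hf⟩ : ∃ f c', c ++ [y] = f :: c' := by
      rcases c with _ | ⟨f, c'⟩
      · exact ⟨y, [], rfl⟩
      · exact ⟨f, c' ++ [y], rfl⟩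
    rw [hf, invRev_cons, invRev_single] at e4
    have h5 := hL'.2 (f.1, !f.2) (by rw [e4, ← List.append_assoc, List.getLast?_concat]; rfl) f
      (by rw [e4]; rfl) rfl
    revert h5
    cases f.2 <;> simp

theorem rot_of_conj {L L' : List (α × Bool)} (hL : IsCyclicallyReduced L)
    (hL' : IsCyclicallyReduced L') (h : ConjClasses.mk (mk L) = ConjClasses.mk (mk L')) :
    L ~r L' := by
  rw [ConjClasses.mk_eq_mk_iff_isConj, isConj_iff] at h
  obtain ⟨c, hc⟩ := h
  refine conj_rot c.toWord isReduced_toWord L L' hL hL' ?_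
  rw [mk_toWord, hc]

omit [DecidableEq α] in
theorem cyc_of_pos (L : List (α × Bool)) (h : ∀ a ∈ L, a.2 = true) : IsCyclicallyReduced L := by
  refine ⟨?_, ?_⟩
  · unfold FreeGroup.IsReduced
    apply List.Pairwise.isChain
    rw [List.pairwise_iff_forall_sublist]
    intro a b hab _
    rw [h a (hab.subset (by simp)), h b (hab.subset (by simp))]
  · intro a ha b hb _
    rw [h a (List.mem_of_mem_getLast? ha), h b (List.mem_of_mem_head? hb)]

end Rot

variable {k : ℕ}

def cube (i : Fin k) : List (Fin k × Bool) := [(i, true), (i, true), (i, true)]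

theorem mk_cube (i : Fin k) : mk (cube i) = FreeGroup.of i ^ 3 := by
  rw [pow_succ, pow_two]
  change _ = mk [(i, true)] * mk [(i, true)] * mk [(i, true)]
  rw [mul_mk, mul_mk]
  rfl

theorem mk_flatMap (l : List (Fin k)) :
    mk (l.flatMap cube) = (l.map (fun i => FreeGroup.of i ^ 3)).prod := by
  induction l with
  | nil => rfl
  | cons i l ih => rw [List.flatMap_cons, ← mul_mk, ih, mk_cube, List.map_cons, List.prod_cons]

theorem pos_flatMap (l : List (Fin k)) : ∀ a ∈ l.flatMap cube, a.2 = true := by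
  intro a ha
  rw [List.mem_flatMap] at ha
  obtain ⟨i, _, hi⟩ := ha
  simp only [cube, List.mem_cons, List.not_mem_nil, or_false, or_self] at hi
  rw [hi]

theorem count_flatMap (x : Fin k) (l : List (Fin k)) :
    (l.flatMap cube).countP (fun a => a.1 = x) = 3 * l.count x := by
  induction l with
  | nil => rfl
  | cons i l ih =>
    rw [List.flatMap_cons, List.countP_append, ih, List.count_cons]
    by_cases h : i = x
    · simp [cube, h]; omega
    · simp [cube, h]

theorem toWord_cubes : (cubes k).toWord = (List.finRange k).flatMap cube := by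
  unfold cubes
  rw [← mk_flatMap, toWord_mk, (cyc_of_pos _ (pos_flatMap _)).1.reduce_eq]

theorem occ_cubes (x : Fin k) : occ x (cubes k) = 3 := by
  unfold occ
  rw [toWord_cubes, count_flatMap, List.count_finRange]

theorem cubes_mem : cubes k ∈ orbit (cubes k) := ⟨1, rfl⟩

theorem cubes_cyc : IsCyclicallyReduced (cubes k).toWord := by
  rw [toWord_cubes]
  exact cyc_of_pos _ (pos_flatMap _)

theorem exists_words (z : Fin k) (m : ℕ) : ∀ p : Fin k × Bool, p.1 ≠ z →
    ∃ T : Finset (List (Fin k × Bool)), T.card = (2 * k - 3) ^ m ∧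
      ∀ u ∈ T, u.length = m + 1 ∧ u.head? = some p ∧ IsReduced u ∧ ∀ a ∈ u, a.1 ≠ z := by
  classical
  induction m with
  | zero =>
    intro p hp
    refine ⟨{[p]}, by simp, ?_⟩
    intro u hu
    rw [Finset.mem_singleton] at hu
    subst hu
    refine ⟨rfl, rfl, IsReduced.singleton, ?_⟩
    intro a ha
    rw [List.mem_singleton] at ha
    rwa [ha]
  | succ m ih =>
    intro p hp
    have ih' : ∀ q : Fin k × Bool, ∃ T : Finset (List (Fin k × Bool)), q.1 ≠ z →
        (T.card = (2 * k - 3) ^ m ∧
        ∀ u ∈ T, u.length = m + 1 ∧ u.head? = some q ∧ IsReduced u ∧ ∀ a ∈ u, a.1 ≠ z) := by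
      intro q
      by_cases hq : q.1 ≠ z
      · obtain ⟨T, hT⟩ := ih q hq
        exact ⟨T, fun _ => hT⟩
      · exact ⟨∅, fun h => absurd h hq⟩
    choose T hT using ih'
    let S : Finset (Fin k × Bool) :=
      ((Finset.univ.erase z) ×ˢ (Finset.univ : Finset Bool)).erase (p.1, !p.2)
    have hS : ∀ q ∈ S, q.1 ≠ z ∧ q ≠ (p.1, !p.2) := by
      intro q hq
      simp only [S, Finset.mem_erase, Finset.mem_product, Finset.mem_univ, and_true] at hq
      exact ⟨hq.2, hq.1⟩
    have hScard : S.card = 2 * k - 3 := by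
      rw [Finset.card_erase_of_mem (by simp [hp]), Finset.card_product,
        Finset.card_erase_of_mem (Finset.mem_univ _)]
      simp only [Finset.card_univ, Fintype.card_fin, Fintype.card_bool]
      omega
    refine ⟨(S.biUnion T).image (fun u => p :: u), ?_, ?_⟩
    · rw [Finset.card_image_of_injective _ (List.cons_injective), Finset.card_biUnion]
      · rw [Finset.sum_congr rfl (fun q hq => (hT q (hS q hq).1).1), Finset.sum_const, hScard,
          smul_eq_mul, pow_succ, mul_comm]
      · intro q hq q' hq' hne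
        rw [Function.onFun, Finset.disjoint_left]
        intro u hu hu'
        have h1 := ((hT q (hS q hq).1).2 u hu).2.1
        have h2 := ((hT q' (hS q' hq').1).2 u hu').2.1
        rw [h1] at h2
        exact hne (Option.some.inj h2)
    · intro u hu
      rw [Finset.mem_image] at hu
      obtain ⟨v, hv, rfl⟩ := hu
      rw [Finset.mem_biUnion] at hv
      obtain ⟨q, hq, hv⟩ := hv
      obtain ⟨h1, h2, h3, h4⟩ := (hT q (hS q hq).1).2 v hv
      refine ⟨by simp [h1], rfl, ?_, ?_⟩
      · unfold FreeGroup.IsReduced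
        rw [List.isChain_cons]
        refine ⟨?_, h3⟩
        intro y hy hh
        rw [h2] at hy
        simp only [Option.mem_def, Option.some.injEq] at hy
        subst hy
        by_contra hne
        apply (hS q hq).2
        refine Prod.ext hh.symm ?_
        revert hne
        simp only
        cases p.2 <;> cases q.2 <;> simp
      · intro a ha
        rw [List.mem_cons] at ha
        rcases ha with rfl | ha
        · exact hp
        · exact h4 a ha

/-- Partial conjugation of the letter `z` by `g`. -/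
def pconj (z : Fin k) (g : F k) : F k →* F k :=
  FreeGroup.lift (fun j => if j = z then g * FreeGroup.of z * g⁻¹ else FreeGroup.of j)

theorem pconj_of (z : Fin k) (g : F k) (j : Fin k) : pconj z g (FreeGroup.of j) =
    if j = z then g * FreeGroup.of z * g⁻¹ else FreeGroup.of j := FreeGroup.lift_apply_of

theorem pconj_F0 (z : Fin k) (g f : F k) (hf : f ∈ F0 z) : pconj z g f = f := by
  induction hf using Subgroup.closure_induction with
  | mem g hg =>
    obtain ⟨j, hj, rfl⟩ := hg
    rw [pconj_of, if_neg hj]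
  | one => simp
  | mul f g _ _ ihf ihg => rw [_root_.map_mul, ihf, ihg]
  | inv f _ ih => rw [_root_.map_inv, ih]

theorem pconj_comp (z : Fin k) (g : F k) (hg : g ∈ F0 z) :
    (pconj z g⁻¹).comp (pconj z g) = MonoidHom.id _ := by
  ext j
  change pconj z g⁻¹ (pconj z g (FreeGroup.of j)) = FreeGroup.of j
  rw [pconj_of]
  split_ifs with h
  · rw [_root_.map_mul, _root_.map_mul, _root_.map_inv, pconj_F0 z _ g hg, pconj_of, if_pos rfl, h]
    group
  · rw [pconj_of, if_neg h]

def pconjAut (z : Fin k) (g : F k) (hg : g ∈ F0 z) : MulAut (F k) :=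
  MonoidHom.toMulEquiv (pconj z g) (pconj z g⁻¹) (pconj_comp z g hg) (by
    have := pconj_comp z g⁻¹ ((F0 z).inv_mem hg)
    rwa [inv_inv] at this)

variable (n : ℕ)

def Rl : List (Fin (n + 3) × Bool) := ((List.finRange (n + 2)).map Fin.succ).flatMap cube

theorem cubes_split : cubes (n + 3) = FreeGroup.of 0 ^ 3 * mk (Rl n) := by
  unfold cubes Rl
  rw [List.finRange_succ, List.map_cons, List.prod_cons, mk_flatMap]

theorem Rl_head : (Rl n).head? = some (1, true) := by
  unfold Rl
  rw [List.finRange_succ]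
  rfl

theorem Rl_mem : mk (Rl n) ∈ F0 (0 : Fin (n + 3)) := by
  apply mk_mem_F0
  unfold Rl
  rw [count_flatMap, List.count_eq_zero_of_not_mem]
  simp

def W (u : List (Fin (n + 3) × Bool)) : List (Fin (n + 3) × Bool) :=
  u ++ (cube 0 ++ (invRev u ++ Rl n))

theorem W_orbit (u : List (Fin (n + 3) × Bool)) (hu : ∀ a ∈ u, a.1 ≠ 0) :
    mk (W n u) ∈ orbit (cubes (n + 3)) := by
  have hg : mk u ∈ F0 (0 : Fin (n + 3)) := by
    apply mk_mem_F0
    rw [List.countP_eq_zero]
    intro a ha
    simpa using hu a ha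
  refine ⟨pconjAut 0 (mk u) hg, ?_⟩
  change pconj 0 (mk u) (cubes (n + 3)) = _
  rw [cubes_split, _root_.map_mul, map_pow, pconj_F0 _ _ _ (Rl_mem n), pconj_of, if_pos rfl]
  unfold W
  rw [← mul_mk, ← mul_mk, ← mul_mk, ← inv_mk, mk_cube, conj_pow]
  group

theorem W_cyc (u : List (Fin (n + 3) × Bool)) (hu : ∀ a ∈ u, a.1 ≠ 0)
    (hh : u.head? = some (2, true)) (hr : IsReduced u) : IsCyclicallyReduced (W n u) := by
  have hpos : ∀ a ∈ Rl n, a.2 = true := pos_flatMap _
  have hRl := Rl_head n
  have hinv : ∀ a ∈ invRev u, a.1 ≠ 0 := by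
    intro a ha
    simp only [invRev, List.mem_reverse, List.mem_map] at ha
    obtain ⟨b, hb, rfl⟩ := ha
    exact hu b hb
  obtain ⟨u', rfl⟩ : ∃ u', u = (2, true) :: u' := by
    rcases u with _ | ⟨a, u'⟩
    · simp at hh
    · simp only [List.head?_cons, Option.some.injEq] at hh
      exact ⟨u', by rw [hh]⟩
  obtain ⟨R', hR'⟩ : ∃ R', Rl n = (1, true) :: R' := by
    rcases hq : Rl n with _ | ⟨a, R'⟩
    · rw [hq] at hRl; simp at hRl
    · rw [hq] at hRl
      simp only [List.head?_cons, Option.some.injEq] at hRl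
      exact ⟨R', by rw [hRl]⟩
  have h21 : (2 : Fin (n + 3)) ≠ 1 := by
    intro h
    have := congrArg Fin.val h
    rw [Fin.val_two, Fin.val_one] at this
    omega
  refine ⟨?_, ?_⟩
  · unfold FreeGroup.IsReduced W
    rw [List.isChain_append, List.isChain_append, List.isChain_append]
    refine ⟨hr, ⟨(cyc_of_pos (cube (0 : Fin (n + 3))) (by simp [cube])).1,
      ⟨isReduced_invRev hr, (cyc_of_pos _ hpos).1, ?_⟩, ?_⟩, ?_⟩
    · intro a ha b hb hab
      rw [invRev_cons, invRev_single, List.getLast?_concat] at ha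
      rw [hRl] at hb
      simp only [Option.mem_def, Option.some.injEq] at ha hb
      subst ha hb
      exact absurd hab h21
    · intro a ha b hb hab
      exfalso
      have ha' : a.1 = 0 := by
        have := List.mem_of_mem_getLast? ha
        simp only [cube, List.mem_cons, List.not_mem_nil, or_false, or_self] at this
        rw [this]
      have hne : invRev ((2, true) :: u') ≠ [] := by
        intro h
        have := congrArg List.length h
        simp at this
      rw [List.head?_append_of_ne_nil _ hne] at hb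
      exact hinv b (List.mem_of_mem_head? hb) (hab ▸ ha')
    · intro a ha b hb hab
      exfalso
      have hb' : b.1 = 0 := by
        simp only [cube, List.cons_append, List.head?_cons, Option.mem_def,
          Option.some.injEq] at hb
        rw [← hb]
      exact hu a (List.mem_of_mem_getLast? ha) (hab ▸ hb')
  · intro a ha b hb _
    unfold W at ha hb
    simp only [List.cons_append, List.head?_cons, Option.mem_def, Option.some.injEq] at hb
    have hne : Rl n ≠ [] := by rw [hR']; simp
    rw [← List.append_assoc, ← List.append_assoc, List.getLast?_append_of_ne_nil _ hne] at ha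
    rw [hpos a (List.mem_of_mem_getLast? ha), ← hb]

theorem W_length (u : List (Fin (n + 3) × Bool)) :
    (W n u).length = 2 * u.length + (3 + (Rl n).length) := by
  unfold W
  simp only [List.length_append, invRev_length, cube, List.length_cons, List.length_nil]
  omega

theorem cyclicWords_sub (w : F k) (N : ℕ) : cyclicWords w N ⊆
    (fun v : List.Vector (Fin k × Bool) N => ConjClasses.mk (mk v.1)) '' Set.univ := by
  rintro c ⟨g, _, _, hl, rfl⟩
  exact ⟨⟨g.toWord, hl⟩, Set.mem_univ _, by simp only [mk_toWord]⟩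

theorem cyclicWords_finite (w : F k) (N : ℕ) : (cyclicWords w N).Finite :=
  (Set.finite_univ.image _).subset (cyclicWords_sub w N)

theorem cyclicWords_le (w : F k) (N : ℕ) : (cyclicWords w N).ncard ≤ (k * 2) ^ N := by
  refine (Set.ncard_le_ncard (cyclicWords_sub w N) (Set.finite_univ.image _)).trans ?_
  refine (Set.ncard_image_le Set.finite_univ).trans ?_
  rw [Set.ncard_univ, Nat.card_eq_fintype_card, card_vector]
  simp

theorem cyclicWords_ge (m : ℕ) : (2 * (n + 3) - 3) ^ m ≤
    (2 * (m + 1) + (3 + (Rl n).length) + 1) *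
      (cyclicWords (cubes (n + 3)) (2 * (m + 1) + (3 + (Rl n).length))).ncard := by
  classical
  have h20 : (2 : Fin (n + 3)) ≠ 0 := by
    intro h
    have := congrArg Fin.val h
    rw [Fin.val_two, Fin.val_zero] at this
    omega
  obtain ⟨T, hT, hu⟩ := exists_words (0 : Fin (n + 3)) m (2, true) h20
  set N := 2 * (m + 1) + (3 + (Rl n).length) with hN
  let U := T.image (W n)
  have hU : U.card = T.card := by
    apply Finset.card_image_of_injOn
    intro u h1 v h2 e
    unfold W at e
    exact (List.append_inj e (by rw [(hu u h1).1, (hu v h2).1])).1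
  have hUp : ∀ L ∈ U, IsCyclicallyReduced L ∧ L.length = N ∧ mk L ∈ orbit (cubes (n + 3)) := by
    intro L hL
    obtain ⟨u, h1, rfl⟩ := Finset.mem_image.1 hL
    obtain ⟨a1, a2, a3, a4⟩ := hu u h1
    exact ⟨W_cyc n u a4 a2 a3, by rw [W_length, a1], W_orbit n u a4⟩
  let f : List (Fin (n + 3) × Bool) → ConjClasses (F (n + 3)) := fun L => ConjClasses.mk (mk L)
  have h1 : U.card ≤ (N + 1) * (U.image f).card := by
    apply Finset.card_le_mul_card_image
    intro c hc
    obtain ⟨L0, hL0, rfl⟩ := Finset.mem_image.1 hc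
    have : U.filter (fun a => f a = f L0) ⊆ (Finset.range (N + 1)).image (fun i => L0.rotate i) := by
      intro L hL
      rw [Finset.mem_filter] at hL
      have hr := rot_of_conj (hUp L0 hL0).1 (hUp L hL.1).1 hL.2.symm
      obtain ⟨i, hi, e⟩ := List.isRotated_iff_mod.1 hr
      rw [(hUp L0 hL0).2.1] at hi
      exact Finset.mem_image.2 ⟨i, Finset.mem_range.2 (by omega), e⟩
    refine (Finset.card_le_card this).trans (Finset.card_image_le.trans ?_)
    rw [Finset.card_range]
  have h2 : (U.image f).card ≤ (cyclicWords (cubes (n + 3)) N).ncard := by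
    rw [← Set.ncard_coe_finset]
    apply Set.ncard_le_ncard _ (cyclicWords_finite _ _)
    intro c hc
    obtain ⟨L, hL, rfl⟩ := Finset.mem_image.1 (Finset.mem_coe.1 hc)
    obtain ⟨a1, a2, a3⟩ := hUp L hL
    have e : (mk L).toWord = L := by rw [toWord_mk, a1.1.reduce_eq]
    exact ⟨mk L, a3, by rwa [e], by rwa [e], rfl⟩
  rw [← hT, ← hU]
  exact h1.trans (Nat.mul_le_mul_left _ h2)

open Filter in
theorem limsup_ge (a : ℕ → ℕ) (B D c0 : ℕ) (hB : ∀ N, a N ≤ B ^ N) (hB1 : 1 ≤ B) (hD : 1 ≤ D)
    (h : ∀ m, D ^ m ≤ (2 * (m + 1) + c0 + 1) * a (2 * (m + 1) + c0)) :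
    Real.sqrt D ≤ limsup (fun N : ℕ => (a N : ℝ) ^ (1 / (N : ℝ))) atTop := by
  have hbd : IsBoundedUnder (· ≤ ·) atTop (fun N : ℕ => (a N : ℝ) ^ (1 / (N : ℝ))) := by
    refine isBoundedUnder_of ⟨(B : ℝ), fun N => ?_⟩
    rcases Nat.eq_zero_or_pos N with rfl | hN
    · simp only [Nat.cast_zero, div_zero, Real.rpow_zero]
      exact_mod_cast hB1
    · have h1 : (a N : ℝ) ≤ (B : ℝ) ^ N := by exact_mod_cast hB N
      calc (a N : ℝ) ^ (1 / (N : ℝ)) ≤ ((B : ℝ) ^ N) ^ (1 / (N : ℝ)) :=
            Real.rpow_le_rpow (by positivity) h1 (by positivity)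
        _ = B := by
            rw [one_div]
            exact Real.pow_rpow_inv_natCast (by positivity) hN.ne'
  apply le_of_forall_lt_imp_le_of_dense
  intro c hc
  rcases le_or_gt c 0 with hc0 | hc0
  · refine hc0.trans (le_limsup_of_frequently_le (Frequently.of_forall fun N => ?_) hbd)
    positivity
  have hc2 : c ^ 2 < D := by
    have := Real.lt_sqrt hc0.le |>.1 hc
    exact this
  have hr : 1 < (D : ℝ) / c ^ 2 := by rw [one_lt_div (by positivity)]; exact hc2
  set r := (D : ℝ) / c ^ 2 with hrdef
  have ht := tendsto_pow_const_div_const_pow_of_one_lt 1 hr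
  set K : ℝ := c ^ (c0 + 2) * (c0 + 5) with hK
  have hKpos : 0 < K := by positivity
  have hev : ∀ᶠ m : ℕ in atTop, (m : ℝ) ^ 1 / r ^ m < 1 / K :=
    ht.eventually (gt_mem_nhds (by positivity))
  refine le_limsup_of_frequently_le ?_ hbd
  rw [frequently_atTop]
  intro N0
  obtain ⟨m, hm1, hm2⟩ := (hev.and (eventually_ge_atTop (N0 + 1))).exists
  refine ⟨2 * (m + 1) + c0, by omega, ?_⟩
  set N := 2 * (m + 1) + c0 with hN
  have hm : (1 : ℝ) ≤ m := by exact_mod_cast (by omega : 1 ≤ m)
  have h1 : (D : ℝ) ^ m ≤ ((N : ℝ) + 1) * a N := by exact_mod_cast h m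
  have h2 : (D : ℝ) ^ m = r ^ m * c ^ (2 * m) := by
    rw [hrdef, div_pow, pow_mul, div_mul_cancel₀]
    positivity
  have h3 : K * m < r ^ m := by
    rw [pow_one, div_lt_div_iff₀ (by positivity) hKpos] at hm1
    linarith
  have h4 : (N : ℝ) + 1 ≤ (c0 + 5) * m := by
    rw [hN]
    push_cast
    have : (0 : ℝ) ≤ c0 := by positivity
    nlinarith
  have h5 : c ^ N ≤ a N := by
    have e : c ^ N = c ^ (c0 + 2) * c ^ (2 * m) := by
      rw [← pow_add]; congr 1; omega
    have h6 : ((N : ℝ) + 1) * c ^ N ≤ ((N : ℝ) + 1) * a N := by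
      calc ((N : ℝ) + 1) * c ^ N ≤ ((c0 + 5) * m) * c ^ N :=
            mul_le_mul_of_nonneg_right h4 (by positivity)
        _ = (K * m) * c ^ (2 * m) := by rw [e, hK]; ring
        _ ≤ r ^ m * c ^ (2 * m) := mul_le_mul_of_nonneg_right h3.le (by positivity)
        _ ≤ _ := by rw [← h2]; exact h1
    exact le_of_mul_le_mul_left h6 (by positivity)
  calc c = (c ^ N) ^ (1 / (N : ℝ)) := by
        rw [one_div]
        exact (Real.pow_rpow_inv_natCast hc0.le (by omega)).symm
    _ ≤ _ := Real.rpow_le_rpow (by positivity) h5 (by positivity)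

theorem growth_ge : Real.sqrt ((2 * (n + 3) - 3 : ℕ) : ℝ) ≤ growth (cubes (n + 3)) :=
  limsup_ge (fun N => (cyclicWords (cubes (n + 3)) N).ncard) ((n + 3) * 2) (2 * (n + 3) - 3)
    (3 + (Rl n).length) (cyclicWords_le _) (by omega) (by omega) (cyclicWords_ge n)

theorem main (k : ℕ) (hk : 3 ≤ k) (x : Fin k) :
    IsLeast (occSet (cubes k) x) 3 ∧ IsLeast (cycOccSet (cubes k) x) 3 ∧
      (2 * (k : ℝ) - 3) ^ (1 / 2 : ℝ) ≤ growth (cubes k) ∧
      (2 * (k : ℝ) - 3) ^ (1 / 3 : ℝ) < growth (cubes k) := by
  have h3 : (2 * (k : ℝ) - 3) ^ (1 / 2 : ℝ) ≤ growth (cubes k) := by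
    obtain ⟨n, rfl⟩ : ∃ n, k = n + 3 := ⟨k - 3, by omega⟩
    have h := growth_ge n
    rw [Real.sqrt_eq_rpow] at h
    have e : ((2 * (n + 3) - 3 : ℕ) : ℝ) = 2 * ((n + 3 : ℕ) : ℝ) - 3 := by
      rw [Nat.cast_sub (by omega)]
      push_cast
      ring
    rwa [e] at h
  refine ⟨⟨⟨by norm_num, _, cubes_mem, occ_cubes x⟩, ?_⟩,
    ⟨⟨by norm_num, _, cubes_mem, cubes_cyc, occ_cubes x⟩, ?_⟩, h3, lt_of_lt_of_le ?_ h3⟩
  · rintro m ⟨h0, g, hg, rfl⟩
    exact three_le_occ hk x g hg h0
  · rintro m ⟨h0, g, hg, _, rfl⟩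
    exact three_le_occ hk x g hg h0
  · have : (3 : ℝ) ≤ k := by exact_mod_cast hk
    exact Real.rpow_lt_rpow_of_exponent_lt (by linarith) (by norm_num)

end Pool.Agent.H959Z.Orb
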