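import Mathlib

set_option autoImplicit false

/-! Definitions for the growth of automorphism orbits of cyclic words in free groups. -/

namespace Pool.Agent.H959Z.Orb

variable {k : ℕ}

/-- The orbit of `w` under the automorphism group of the free group. -/
def orbit (w : FreeGroup (Fin k)) : Set (FreeGroup (Fin k)) :=
  {g | ∃ φ : MulAut (FreeGroup (Fin k)), φ w = g}

/-- The number of occurrences of the letter `x` or its inverse in the reduced word of `g`. -/
def occ (x : Fin k) (g : FreeGroup (Fin k)) : ℕ :=
  g.toWord.countP (fun l => l.1 = x)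

/-- The positive numbers of occurrences of `x` in reduced words of elements of the orbit. -/
def occSet (w : FreeGroup (Fin k)) (x : Fin k) : Set ℕ :=
  {n | 0 < n ∧ ∃ g ∈ orbit w, occ x g = n}

/-- The positive numbers of occurrences of `x` in cyclically reduced words of the orbit. -/
def cycOccSet (w : FreeGroup (Fin k)) (x : Fin k) : Set ℕ :=
  {n | 0 < n ∧ ∃ g ∈ orbit w, FreeGroup.IsCyclicallyReduced g.toWord ∧ occ x g = n}

/-- The cyclic words (conjugacy classes) of length `N` contained in the orbit of `w`. -/
def cyclicWords (w : FreeGroup (Fin k)) (N : ℕ) : Set (ConjClasses (FreeGroup (Fin k))) :=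
  {c | ∃ g ∈ orbit w, FreeGroup.IsCyclicallyReduced g.toWord ∧ g.toWord.length = N ∧
    ConjClasses.mk g = c}

/-- The exponential growth rate of the set of cyclic words in the orbit of `w`. -/
noncomputable def growth (w : FreeGroup (Fin k)) : ℝ :=
  Filter.limsup (fun N : ℕ => ((cyclicWords w N).ncard : ℝ) ^ (1 / (N : ℝ))) Filter.atTop

/-- The product of the cubes of all the generators, in order. -/
def cubes (k : ℕ) : FreeGroup (Fin k) :=
  ((List.finRange k).map (fun i => FreeGroup.of i ^ 3)).prod

end Pool.Agent.H959Z.Orb
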