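import Mathlib

set_option autoImplicit false

/-! A faithful integral representation of the free product of cyclic groups of order three in
which every generator satisfies `a ^ 2 + a + 1 = 0`. -/

namespace Pool.Agent.H959Z.Orb

open Monoid

abbrev C3 := Multiplicative (ZMod 3)

/-- The homomorphism from the cyclic group of order three determined by an element whose cube is
trivial. -/
def homC3 {G : Type*} [Group G] (g : G) (hg : g ^ 3 = 1) : C3 →* G :=
  MonoidHom.mk' (fun a => g ^ (Multiplicative.toAdd a).val) (by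
    intro a b
    rw [toAdd_mul, ZMod.val_add, ← pow_add, ← pow_eq_pow_mod _ hg])

theorem homC3_one {G : Type*} [Group G] (g : G) (hg : g ^ 3 = 1) :
    homC3 g hg (Multiplicative.ofAdd 1) = g := by
  change g ^ (1 : ZMod 3).val = g
  rw [show (1 : ZMod 3).val = 1 from rfl, pow_one]

theorem C3_cases (a : C3) : a = 1 ∨ a = Multiplicative.ofAdd 1 ∨
    a = Multiplicative.ofAdd 1 * Multiplicative.ofAdd 1 := by
  revert a
  decide

abbrev Gam (k : ℕ) := CoprodI (fun _ : Fin k => C3)

/-- The generators of the free product. -/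
def gam {k : ℕ} (i : Fin k) : Gam k := CoprodI.of (i := i) (Multiplicative.ofAdd (1 : ZMod 3))

theorem gam_cube {k : ℕ} (i : Fin k) : gam i ^ 3 = 1 := by
  unfold gam
  rw [← map_pow]
  have : (Multiplicative.ofAdd (1 : ZMod 3)) ^ 3 = 1 := by decide
  rw [this, map_one]

/-- The homomorphism from the free product determined by elements with trivial cubes. -/
def liftG {k : ℕ} {G : Type*} [Group G] (p : Fin k → G) (hp : ∀ i, p i ^ 3 = 1) : Gam k →* G :=
  CoprodI.lift (fun i => homC3 (p i) (hp i))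

theorem liftG_gam {k : ℕ} {G : Type*} [Group G] (p : Fin k → G) (hp : ∀ i, p i ^ 3 = 1)
    (i : Fin k) : liftG p hp (gam i) = p i := by
  unfold liftG gam
  rw [CoprodI.lift_of, homC3_one]

theorem Gam_ind {k : ℕ} {P : Gam k → Prop} (h1 : P 1) (hg : ∀ i, P (gam i))
    (hm : ∀ a b, P a → P b → P (a * b)) (g : Gam k) : P g := by
  induction g using CoprodI.induction_on with
  | one => exact h1
  | of i m =>
    rcases C3_cases m with rfl | rfl | rfl
    · rw [map_one]; exact h1
    · exact hg i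
    · rw [map_mul]; exact hm _ _ (hg i) (hg i)
  | mul a b ha hb => exact hm a b ha hb

abbrev V := ℤ × ℤ

/-- The shear. -/
def T (n : ℤ) : V ≃ₗ[ℤ] V where
  toFun v := (v.1 + n * v.2, v.2)
  invFun v := (v.1 - n * v.2, v.2)
  map_add' u v := by ext <;> simp; ring
  map_smul' c v := by ext <;> simp; ring
  left_inv v := by ext <;> simp
  right_inv v := by ext <;> simp

/-- The rotation of order three. -/
def A : V ≃ₗ[ℤ] V where
  toFun v := (-v.2, v.1 - v.2)
  invFun v := (v.2 - v.1, -v.1)
  map_add' u v := by ext <;> simp <;> ring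
  map_smul' c v := by ext <;> simp; ring
  left_inv v := by ext <;> simp
  right_inv v := by ext <;> simp

theorem A_apply (v : V) : A v = (-v.2, v.1 - v.2) := rfl

theorem A_quad (v : V) : A (A v) + A v + v = 0 := by
  simp only [A_apply]
  ext <;> simp <;> ring

def Ai (n : ℤ) : V ≃ₗ[ℤ] V := T n * A * (T n)⁻¹

theorem Ai_apply (n : ℤ) (v : V) : Ai n v = T n (A ((T n).symm v)) := rfl

theorem Ai_quad (n : ℤ) (v : V) : Ai n (Ai n v) + Ai n v + v = 0 := by
  simp only [Ai_apply, LinearEquiv.symm_apply_apply]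
  have h := congrArg (T n) (A_quad ((T n).symm v))
  simpa only [map_add, LinearEquiv.apply_symm_apply, map_zero] using h

theorem cube_of_quad (B : V ≃ₗ[ℤ] V) (h : ∀ v, B (B v) + B v + v = 0) : B ^ 3 = 1 := by
  ext1 v
  have h1 := h (B v)
  have h2 := h v
  change B (B (B v)) = v
  have : B (B (B v)) = (B (B (B v)) + B (B v) + B v) - (B (B v) + B v + v) + v := by abel
  rw [this, h1, h2]
  abel

def X0 (v : V) : Prop :=
  (0 < v.2 ∧ -v.2 < v.1 ∧ v.1 < 2 * v.2) ∨ (v.2 < 0 ∧ 2 * v.2 < v.1 ∧ v.1 < -v.2)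

def Out (v : V) : Prop :=
  (0 < v.2 ∧ (v.1 < -v.2 ∨ 2 * v.2 < v.1)) ∨ (v.2 < 0 ∧ (v.1 < 2 * v.2 ∨ -v.2 < v.1))

theorem X0_A (v : V) (h : Out v) : X0 (A v) := by
  unfold X0 Out at *
  simp only [A_apply]
  omega

theorem X0_AA (v : V) (h : Out v) : X0 (A (A v)) := by
  unfold X0 Out at *
  simp only [A_apply]
  omega

theorem not_out (v : V) (h : X0 v) : ¬ Out v := by
  unfold X0 Out at *
  omega

theorem out_of_ne (i j : ℤ) (hij : i ≠ j) (v : V) (h : X0 ((T (3 * j)).symm v)) :
    Out ((T (3 * i)).symm v) := by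
  change X0 (v.1 - 3 * j * v.2, v.2) at h
  change Out (v.1 - 3 * i * v.2, v.2)
  unfold X0 at h
  unfold Out
  simp only at h ⊢
  rcases h with ⟨h0, h1, h2⟩ | ⟨h0, h1, h2⟩
  · left
    refine ⟨h0, ?_⟩
    rcases lt_or_gt_of_ne hij with h | h
    · right
      have : 0 ≤ (j - i - 1) * v.2 := mul_nonneg (by omega) h0.le
      nlinarith
    · left
      have : 0 ≤ (i - j - 1) * v.2 := mul_nonneg (by omega) h0.le
      nlinarith
  · right
    refine ⟨h0, ?_⟩
    rcases lt_or_gt_of_ne hij with h | h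
    · left
      have : 0 ≤ (j - i - 1) * (-v.2) := mul_nonneg (by omega) (by omega)
      nlinarith
    · right
      have : 0 ≤ (i - j - 1) * (-v.2) := mul_nonneg (by omega) (by omega)
      nlinarith

/-- The representation. -/
def rho (k : ℕ) : Gam k →* (V ≃ₗ[ℤ] V) :=
  liftG (fun i => Ai (3 * (i.val : ℤ))) (fun _ => cube_of_quad _ (Ai_quad _))

theorem rho_quad {k : ℕ} (i : Fin k) (v : V) :
    rho k (gam i) (rho k (gam i) v) + rho k (gam i) v + v = 0 := by
  unfold rho
  rw [liftG_gam]
  exact Ai_quad _ v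

theorem rho_inj {k : ℕ} (hk : 3 ≤ k) : Function.Injective (rho k) := by
  unfold rho liftG
  haveI : Nontrivial (Fin k) := Fin.nontrivial_iff_two_le.2 (by omega)
  refine CoprodI.lift_injective_of_ping_pong _ (Or.inl ?_)
    (fun i : Fin k => {v : V | X0 ((T (3 * (i.val : ℤ))).symm v)}) ?_ ?_ ?_
  · simp only [Cardinal.mk_fintype, Fintype.card_fin]
    exact_mod_cast hk
  · intro i
    refine ⟨T (3 * (i.val : ℤ)) (0, 1), ?_⟩
    simp only [Set.mem_setOf_eq, LinearEquiv.symm_apply_apply]
    left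
    simp
  · intro i j hij
    rw [Function.onFun, Set.disjoint_left]
    intro v hi hj
    have hne : (i.val : ℤ) ≠ (j.val : ℤ) := by
      intro h
      exact hij (Fin.ext (by exact_mod_cast h))
    exact not_out _ hi (out_of_ne _ _ hne v hj)
  · intro i j hij h hh
    have hne : (i.val : ℤ) ≠ (j.val : ℤ) := by
      intro h
      exact hij (Fin.ext (by exact_mod_cast h))
    rintro _ ⟨v, hv, rfl⟩
    have ho := out_of_ne _ _ hne v hv
    rcases C3_cases h with rfl | rfl | rfl
    · exact absurd rfl hh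
    · simp only [homC3_one, Set.mem_setOf_eq]
      change X0 ((T (3 * (i.val : ℤ))).symm (Ai (3 * (i.val : ℤ)) v))
      rw [Ai_apply, LinearEquiv.symm_apply_apply]
      exact X0_A _ ho
    · simp only [map_mul, homC3_one, Set.mem_setOf_eq]
      change X0 ((T (3 * (i.val : ℤ))).symm (Ai (3 * (i.val : ℤ)) (Ai (3 * (i.val : ℤ)) v)))
      rw [Ai_apply, LinearEquiv.symm_apply_apply, Ai_apply, LinearEquiv.symm_apply_apply]
      exact X0_AA _ ho

end Pool.Agent.H959Z.Orb
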