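import Pool.Agent.H959Z.OrbDefs
import Pool.Agent.H959Z.OrbPP

set_option autoImplicit false

/-! No element of the orbit of the product of cubes has one or two occurrences of a letter. -/

namespace Pool.Agent.H959Z.Orb

open Monoid

variable {k : ℕ}

abbrev F (k : ℕ) := FreeGroup (Fin k)

/-- The free factor generated by the letters other than `x`. -/
def F0 (x : Fin k) : Subgroup (F k) := Subgroup.closure {g | ∃ j, j ≠ x ∧ g = FreeGroup.of j}

/-- The projection to the free product of cyclic groups. -/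
def pr : F k →* Gam k := FreeGroup.lift gam

theorem pr_of (i : Fin k) : pr (FreeGroup.of i) = gam i := FreeGroup.lift_apply_of

theorem map_cubes_eq_one {G : Type*} [Group G] (θ : F k →* G)
    (h : ∀ i, θ (FreeGroup.of i) ^ 3 = 1) : θ (cubes k) = 1 := by
  unfold cubes
  rw [map_list_prod]
  apply List.prod_eq_one
  intro y hy
  simp only [List.map_map, List.mem_map, Function.comp] at hy
  obtain ⟨i, _, rfl⟩ := hy
  rw [map_pow, h]

theorem map_cubes_comm {G : Type*} [CommGroup G] (θ : F k →* G) :
    θ (cubes k) = (∏ i, θ (FreeGroup.of i)) ^ 3 := by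
  unfold cubes
  rw [map_list_prod, List.map_map, ← Finset.prod_pow, Fin.prod_univ_def]
  congr 1
  apply List.map_congr_left
  intro i _
  simp only [Function.comp, map_pow]

/-- The affine permutation `v ↦ B v + d`. -/
def aff (B : V ≃ₗ[ℤ] V) (d : V) : Equiv.Perm V := B.toEquiv.trans (Equiv.addRight d)

theorem aff_apply (B : V ≃ₗ[ℤ] V) (d v : V) : aff B d v = B v + d := rfl

theorem step1 (hk : 3 ≤ k) (ψ : MulAut (F k)) (x : Fin k) (s t : F k) (hs : s ∈ F0 x)
    (ht : t ∈ F0 x) (h : ψ (FreeGroup.of x * s * (FreeGroup.of x)⁻¹ * t) = cubes k) :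
    pr (ψ s) = 1 := by
  classical
  let R : F k →* (V ≃ₗ[ℤ] V) := ((rho k).comp pr).comp ψ.toMonoidHom
  have hR : ∀ f, R f = rho k (pr (ψ f)) := fun f => rfl
  apply rho_inj hk
  rw [map_one, ← hR]
  ext1 u0
  let v0 : V := - R (FreeGroup.of x) u0
  let Θ : F k →* Equiv.Perm V :=
    FreeGroup.lift (fun j => aff (R (FreeGroup.of j)) (if j = x then v0 else 0))
  have hΘ : ∀ j v, Θ (FreeGroup.of j) v = R (FreeGroup.of j) v + (if j = x then v0 else 0) := by
    intro j v
    have : Θ (FreeGroup.of j) = aff (R (FreeGroup.of j)) (if j = x then v0 else 0) :=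
      FreeGroup.lift_apply_of
    rw [this, aff_apply]
  have hinv : ∀ (f : F k) (d : V), (∀ v, Θ f v = R f v + d) →
      ∀ v, Θ f⁻¹ v = R f⁻¹ v + (- R f⁻¹ d) := by
    intro f d hd v
    rw [map_inv Θ, Equiv.Perm.inv_eq_iff_eq, hd, map_add, map_neg]
    have e : ∀ y, R f (R f⁻¹ y) = y := by
      intro y
      change (R f * R f⁻¹) y = y
      rw [← map_mul, mul_inv_cancel, map_one]
      rfl
    rw [e, e]
    abel
  have hmul : ∀ (f g : F k) (d e : V), (∀ v, Θ f v = R f v + d) → (∀ v, Θ g v = R g v + e) →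
      ∀ v, Θ (f * g) v = R (f * g) v + (R f e + d) := by
    intro f g d e hd he v
    rw [map_mul, map_mul, Equiv.Perm.mul_apply, hd, he, map_add]
    change R f (R g v) + R f e + d = R f (R g v) + (R f e + d)
    abel
  have hall : ∀ f : F k, ∃ d, ∀ v, Θ f v = R f v + d := by
    intro f
    induction f using FreeGroup.induction_on with
    | C1 => exact ⟨0, fun v => by simp⟩
    | of j => exact ⟨_, hΘ j⟩
    | inv_of j ih => obtain ⟨d, hd⟩ := ih; exact ⟨_, hinv _ d hd⟩
    | mul f g ihf ihg =>
      obtain ⟨d, hd⟩ := ihf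
      obtain ⟨e, he⟩ := ihg
      exact ⟨_, hmul f g d e hd he⟩
  have hlin : ∀ f ∈ F0 x, ∀ v, Θ f v = R f v + 0 := by
    intro f hf
    induction hf using Subgroup.closure_induction with
    | mem g hg =>
      obtain ⟨j, hj, rfl⟩ := hg
      intro v
      rw [hΘ, if_neg hj]
    | one => intro v; simp
    | mul f g _ _ ihf ihg =>
      intro v
      rw [hmul f g 0 0 ihf ihg v]
      simp
    | inv f _ ih =>
      intro v
      rw [hinv f 0 ih v]
      simp
  have hw : (Θ.comp ψ.symm.toMonoidHom) (cubes k) = 1 := by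
    apply map_cubes_eq_one
    intro i
    obtain ⟨d, hd⟩ := hall (ψ.symm (FreeGroup.of i))
    have hq : ∀ v, R (ψ.symm (FreeGroup.of i)) (R (ψ.symm (FreeGroup.of i)) v) +
        R (ψ.symm (FreeGroup.of i)) v + v = 0 := by
      intro v
      rw [hR, MulEquiv.apply_symm_apply, pr_of]
      exact rho_quad i v
    ext1 v
    change Θ (ψ.symm (FreeGroup.of i)) (Θ (ψ.symm (FreeGroup.of i))
      (Θ (ψ.symm (FreeGroup.of i)) v)) = v
    rw [hd, hd, hd]
    set B := R (ψ.symm (FreeGroup.of i)) with hB
    simp only [map_add]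
    have h1 := hq (B v)
    have h2 := hq v
    have h3 := hq d
    have : B (B (B v)) + B (B d) + B d + d = (B (B (B v)) + B (B v) + B v) -
      (B (B v) + B v + v) + (B (B d) + B d + d) + v := by abel
    rw [this, h1, h2, h3]
    abel
  have hw2 : Θ (FreeGroup.of x * s * (FreeGroup.of x)⁻¹ * t) = 1 := by
    rw [← hw, ← h]
    change _ = Θ (ψ.symm (ψ _))
    rw [MulEquiv.symm_apply_apply]
  have hx0 : Θ (FreeGroup.of x) u0 = 0 := by
    rw [hΘ, if_pos rfl]
    exact add_neg_cancel _
  have ht0 : Θ t 0 = 0 := by rw [hlin t ht]; simp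
  have hxi : Θ (FreeGroup.of x)⁻¹ 0 = u0 := by
    rw [map_inv, Equiv.Perm.inv_eq_iff_eq, hx0]
  have h5 := congrArg (fun p : Equiv.Perm V => p 0) hw2
  simp only [map_mul, Equiv.Perm.mul_apply, Equiv.Perm.one_apply] at h5
  rw [ht0, hxi, ← hx0] at h5
  have h6 := (Θ (FreeGroup.of x)).injective h5
  rw [hlin s hs, add_zero] at h6
  exact h6

/-- The exponent sum of the letter `x`. -/
def expo (x : Fin k) : F k →* Multiplicative ℤ :=
  FreeGroup.lift (fun j => if j = x then Multiplicative.ofAdd 1 else 1)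

theorem expo_of (x j : Fin k) :
    expo x (FreeGroup.of j) = if j = x then Multiplicative.ofAdd 1 else 1 :=
  FreeGroup.lift_apply_of

theorem expo_F0 (x : Fin k) (f : F k) (hf : f ∈ F0 x) : expo x f = 1 := by
  induction hf using Subgroup.closure_induction with
  | mem g hg =>
    obtain ⟨j, hj, rfl⟩ := hg
    rw [expo_of, if_neg hj]
  | one => simp
  | mul f g _ _ ihf ihg => rw [map_mul, ihf, ihg, one_mul]
  | inv f _ ih => rw [map_inv, ih, inv_one]

/-- Reduction modulo three. -/
def mod3 : Multiplicative ℤ →* C3 := AddMonoidHom.toMultiplicative (Int.castAddHom (ZMod 3))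

theorem mod3_apply (n : ℤ) : mod3 (Multiplicative.ofAdd n) = Multiplicative.ofAdd (n : ZMod 3) :=
  rfl

theorem C3_cube (a : C3) : a ^ 3 = 1 := by
  revert a
  decide

/-- The exponent of the `i`-th generator of the free product. -/
def chi (i : Fin k) : Gam k →* C3 :=
  liftG (fun j => if j = i then Multiplicative.ofAdd 1 else 1) (fun _ => C3_cube _)

theorem chi_gam (i j : Fin k) :
    chi i (gam j) = if j = i then Multiplicative.ofAdd 1 else 1 := liftG_gam _ _ _

theorem exists_weight {Y : Type} (c : Y → Y) (h3 : ∀ y, c (c (c y)) = y) (hne : ∀ y, c y ≠ y) :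
    ∃ ω : Y → ℤ, (∀ y, ω y + ω (c y) + ω (c (c y)) = 0) ∧ ∀ y, (ω y : ZMod 3) = 1 := by
  classical
  obtain ⟨_, _⟩ := exists_wellOrder Y
  refine ⟨fun y => if y < c y ∧ y < c (c y) then -2 else 1, ?_, ?_⟩
  · intro y
    have h1 := hne y
    have h2 := hne (c y)
    have h4 : c (c y) ≠ y := by
      intro h
      have := h3 y
      rw [h] at this
      exact h1 this
    simp only [h3]
    generalize c (c y) = z at *
    generalize c y = u at *
    rcases lt_or_gt_of_ne h1 with a | a <;> rcases lt_or_gt_of_ne h2 with b | b <;>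
      rcases lt_or_gt_of_ne h4 with d | d
    all_goals first
      | (exfalso; order)
      | simp [a, b, d, not_lt_of_gt a, not_lt_of_gt b, not_lt_of_gt d]
  · intro y
    simp only
    split_ifs <;> decide

/-- Skew product permutation. -/
def skew {Y : Type} (c : Equiv.Perm Y) (ω : Y → ℤ) : Equiv.Perm (Y × ℤ) where
  toFun p := (c p.1, p.2 + ω p.1)
  invFun p := (c.symm p.1, p.2 - ω (c.symm p.1))
  left_inv p := by simp
  right_inv p := by simp

theorem skew_apply {Y : Type} (c : Equiv.Perm Y) (ω : Y → ℤ) (y : Y) (n : ℤ) :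
    skew c ω (y, n) = (c y, n + ω y) := rfl

theorem exists_lift (H : Subgroup (Gam k)) (i : Fin k)
    (hH : ∀ g : Gam k, g⁻¹ * gam i * g ∉ H) :
    ∃ lam : H →* Multiplicative ℤ, ∀ h : H, mod3 (lam h) = chi i h := by
  classical
  let Y := Gam k ⧸ H
  let c : Fin k → Equiv.Perm Y := fun j => MulAction.toPerm (gam j)
  have hc : ∀ j y, c j y = gam j • y := fun _ _ => rfl
  have hc3 : ∀ j y, c j (c j (c j y)) = y := by
    intro j y
    rw [hc, hc, hc, smul_smul, smul_smul, ← pow_two, ← pow_succ, gam_cube, one_smul]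
  have hne : ∀ y, c i y ≠ y := by
    intro y
    induction y using QuotientGroup.induction_on with
    | H g =>
      intro h
      rw [hc] at h
      change ((gam i * g : Gam k) : Gam k ⧸ H) = (g : Gam k ⧸ H) at h
      have := QuotientGroup.eq.1 h.symm
      apply hH g
      rwa [mul_assoc]
  obtain ⟨ω, hω0, hω1⟩ := exists_weight (c i) (hc3 i) hne
  let ω' : Fin k → Y → ℤ := fun j => if j = i then ω else 0
  have hcube : ∀ j, skew (c j) (ω' j) ^ 3 = 1 := by
    intro j
    ext1 p
    obtain ⟨y, n⟩ := p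
    change skew (c j) (ω' j) (skew (c j) (ω' j) (skew (c j) (ω' j) (y, n))) = (y, n)
    rw [skew_apply (c j) (ω' j) y n, skew_apply (c j) (ω' j) (c j y),
      skew_apply (c j) (ω' j) (c j (c j y)), hc3]
    congr 1
    by_cases hj : j = i
    · subst hj
      have : ω' j = ω := if_pos rfl
      rw [this]
      have := hω0 y
      omega
    · have : ω' j = 0 := if_neg hj
      rw [this]
      simp
  let σ : Gam k →* Equiv.Perm (Y × ℤ) := liftG _ hcube
  have hσ : ∀ g : Gam k, ∃ L : Y → ℤ, (∀ y n, σ g (y, n) = (g • y, n + L y)) ∧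
      ∀ y, Multiplicative.ofAdd (L y : ZMod 3) = chi i g := by
    intro g
    induction g using Gam_ind with
    | h1 => exact ⟨0, fun y n => by simp, fun y => by simp⟩
    | hg j =>
      refine ⟨ω' j, fun y n => ?_, fun y => ?_⟩
      · have : σ (gam j) = skew (c j) (ω' j) := liftG_gam _ _ _
        rw [this, skew_apply, hc]
      · rw [chi_gam]
        by_cases hj : j = i
        · have : ω' j = ω := if_pos hj
          rw [this, hω1, if_pos hj]
        · have : ω' j = 0 := if_neg hj
          rw [this, if_neg hj]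
          simp
    | hm a b ha hb =>
      obtain ⟨La, ha1, ha2⟩ := ha
      obtain ⟨Lb, hb1, hb2⟩ := hb
      refine ⟨fun y => Lb y + La (b • y), fun y n => ?_, fun y => ?_⟩
      · rw [map_mul, Equiv.Perm.mul_apply, hb1, ha1, mul_smul, add_assoc]
      · rw [map_mul, ← ha2 (b • y), ← hb2 y, Int.cast_add, ofAdd_add, mul_comm]
  choose L hL1 hL2 using hσ
  let y0 : Y := ((1 : Gam k) : Gam k ⧸ H)
  have hy0 : ∀ h : H, (h : Gam k) • y0 = y0 := by
    intro h
    change (((h : Gam k) * 1 : Gam k) : Gam k ⧸ H) = ((1 : Gam k) : Gam k ⧸ H)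
    apply QuotientGroup.eq.2
    simp
  refine ⟨MonoidHom.mk' (fun h => Multiplicative.ofAdd (L h y0)) ?_, fun h => ?_⟩
  · intro a b
    have h1 := hL1 ((a : Gam k) * b) y0 0
    rw [map_mul, Equiv.Perm.mul_apply, hL1 b y0 0, hy0 b, hL1 a y0] at h1
    have h2 := congrArg Prod.snd h1
    simp only [zero_add] at h2
    rw [← ofAdd_add, Subgroup.coe_mul, ← h2, add_comm]
  · exact hL2 h y0

theorem keyA (hk : 3 ≤ k) (ψ : MulAut (F k)) (x : Fin k) (s t : F k) (hs : s ∈ F0 x)
    (ht : t ∈ F0 x) (h : ψ (FreeGroup.of x * s * (FreeGroup.of x)⁻¹ * t) = cubes k) : False := by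
  classical
  have h1 := step1 hk ψ x s t hs ht h
  let p : F k →* Gam k := pr.comp ψ.toMonoidHom
  have hp : ∀ f, p f = pr (ψ f) := fun _ => rfl
  have hw : pr (cubes k) = 1 := map_cubes_eq_one pr (fun i => by rw [pr_of, gam_cube])
  have h2 : p t = 1 := by
    have h3 : p (FreeGroup.of x * s * (FreeGroup.of x)⁻¹ * t) = 1 := by rw [hp, h, hw]
    rw [map_mul, map_mul, map_mul, hp s, h1, mul_one, map_inv, mul_inv_cancel, one_mul] at h3
    exact h3
  let H : Subgroup (Gam k) := (F0 x).map p
  by_cases hall : ∀ i, ∃ g : Gam k, g⁻¹ * gam i * g ∈ H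
  · let e : F k →* C3 := (mod3.comp (expo x)).comp ψ.symm.toMonoidHom
    let η : Gam k →* C3 := liftG (fun i => e (FreeGroup.of i)) (fun _ => C3_cube _)
    have hη : η.comp pr = e := by
      ext i
      change η (pr (FreeGroup.of i)) = e (FreeGroup.of i)
      rw [pr_of]
      exact liftG_gam _ _ _
    have hη' : ∀ f, η (p f) = mod3 (expo x f) := by
      intro f
      have := DFunLike.congr_fun hη (ψ f)
      rw [hp]
      refine this.trans ?_
      change mod3 (expo x (ψ.symm (ψ f))) = _
      rw [MulEquiv.symm_apply_apply]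
    have hz : ∀ i, η (gam i) = 1 := by
      intro i
      obtain ⟨g, f, hf, hg⟩ := hall i
      have h4 := hη' f
      rw [hg, expo_F0 x f hf, map_one, map_mul, map_mul, map_inv, mul_comm, ← mul_assoc,
        mul_inv_cancel, one_mul] at h4
      exact h4
    have hz2 : ∀ g, η g = 1 := by
      intro g
      induction g using Gam_ind with
      | h1 => exact map_one _
      | hg j => exact hz j
      | hm a b ha hb => rw [map_mul, ha, hb, one_mul]
    have h5 := hη' (FreeGroup.of x)
    rw [hz2, expo_of, if_pos rfl, mod3_apply] at h5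
    revert h5
    decide
  · push Not at hall
    obtain ⟨i, hi⟩ := hall
    obtain ⟨lam, hlam⟩ := exists_lift H i hi
    let gen : Fin k → Multiplicative ℤ := fun j =>
      if hj : j = x then
        Multiplicative.ofAdd (((Multiplicative.toAdd (chi i (p (FreeGroup.of x)))).val : ℕ) : ℤ)
      else lam ⟨p (FreeGroup.of j), ⟨FreeGroup.of j, Subgroup.subset_closure ⟨j, hj, rfl⟩, rfl⟩⟩
    let lt : F k →* Multiplicative ℤ := FreeGroup.lift gen
    have hlt : ∀ j, lt (FreeGroup.of j) = gen j := fun j => FreeGroup.lift_apply_of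
    have hF0 : ∀ f (hf : f ∈ F0 x), lt f = lam ⟨p f, ⟨f, hf, rfl⟩⟩ := by
      intro f hf
      induction hf using Subgroup.closure_induction with
      | mem g hg =>
        obtain ⟨j, hj, rfl⟩ := hg
        rw [hlt]
        exact dif_neg hj
      | one =>
        rw [map_one]
        have : (⟨p 1, ⟨1, (F0 x).one_mem, rfl⟩⟩ : H) = 1 := Subtype.ext (map_one p)
        rw [this, map_one]
      | mul f g hf hg ihf ihg =>
        rw [map_mul, ihf, ihg, ← map_mul]
        congr 1
        exact Subtype.ext (map_mul p f g).symm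
      | inv f hf ih =>
        rw [map_inv, ih, ← map_inv]
        congr 1
        exact Subtype.ext (map_inv p f).symm
    have hmod : mod3.comp lt = (chi i).comp p := by
      ext j
      change mod3 (lt (FreeGroup.of j)) = chi i (p (FreeGroup.of j))
      rw [hlt]
      by_cases hj : j = x
      · subst hj
        have : gen j = Multiplicative.ofAdd
            (((Multiplicative.toAdd (chi i (p (FreeGroup.of j)))).val : ℕ) : ℤ) := dif_pos rfl
        rw [this, mod3_apply]
        simp
      · have : gen j = lam ⟨p (FreeGroup.of j),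
            ⟨FreeGroup.of j, Subgroup.subset_closure ⟨j, hj, rfl⟩, rfl⟩⟩ := dif_neg hj
        rw [this, hlam]
    have hs1 : lt s = 1 := by
      rw [hF0 s hs]
      have : (⟨p s, ⟨s, hs, rfl⟩⟩ : H) = 1 := Subtype.ext h1
      rw [this, map_one]
    have ht1 : lt t = 1 := by
      rw [hF0 t ht]
      have : (⟨p t, ⟨t, ht, rfl⟩⟩ : H) = 1 := Subtype.ext h2
      rw [this, map_one]
    have h6 : (lt.comp ψ.symm.toMonoidHom) (cubes k) = 1 := by
      rw [← h]
      change lt (ψ.symm (ψ _)) = 1
      rw [MulEquiv.symm_apply_apply, map_mul, map_mul, map_mul, hs1, ht1, map_inv]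
      simp
    rw [map_cubes_comm] at h6
    have h7 : (∏ j, (lt.comp ψ.symm.toMonoidHom) (FreeGroup.of j)) = 1 := by
      set z := (∏ j, (lt.comp ψ.symm.toMonoidHom) (FreeGroup.of j))
      have h8 := congrArg Multiplicative.toAdd h6
      rw [toAdd_pow, toAdd_one] at h8
      have h9 : Multiplicative.toAdd z = 0 := by
        rw [nsmul_eq_mul] at h8
        push_cast at h8
        omega
      exact Multiplicative.toAdd.injective h9
    have h10 := congrArg mod3 h7
    rw [map_prod, map_one] at h10
    have h11 : ∀ j, mod3 ((lt.comp ψ.symm.toMonoidHom) (FreeGroup.of j)) =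
        if j = i then Multiplicative.ofAdd 1 else 1 := by
      intro j
      have := DFunLike.congr_fun hmod (ψ.symm (FreeGroup.of j))
      refine this.trans ?_
      change chi i (pr (ψ (ψ.symm (FreeGroup.of j)))) = _
      rw [MulEquiv.apply_symm_apply, pr_of, chi_gam]
    simp only [h11, Finset.prod_ite_eq', Finset.mem_univ, if_true] at h10
    revert h10
    decide

theorem expo_dvd (φ : MulAut (F k)) (x : Fin k) :
    (3 : ℤ) ∣ Multiplicative.toAdd (expo x (φ (cubes k))) := by
  have := map_cubes_comm ((expo x).comp φ.toMonoidHom)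
  change expo x (φ (cubes k)) = _ at this
  rw [this, toAdd_pow, nsmul_eq_mul]
  exact Dvd.intro _ rfl

theorem mk_mem_F0 (x : Fin k) (L : List (Fin k × Bool))
    (h : L.countP (fun l => l.1 = x) = 0) : FreeGroup.mk L ∈ F0 x := by
  induction L with
  | nil => exact (F0 x).one_mem
  | cons a L ih =>
    rw [List.countP_cons] at h
    have ha : a.1 ≠ x := by
      intro hh
      simp [hh] at h
    have hL : L.countP (fun l => l.1 = x) = 0 := by omega
    have e : FreeGroup.mk (a :: L) = FreeGroup.mk [a] * FreeGroup.mk L := by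
      rw [FreeGroup.mul_mk]; rfl
    rw [e]
    refine (F0 x).mul_mem ?_ (ih hL)
    obtain ⟨j, b⟩ := a
    have hj : FreeGroup.of j ∈ F0 x := Subgroup.subset_closure ⟨j, ha, rfl⟩
    cases b
    · exact (F0 x).inv_mem hj
    · exact hj

theorem split_count (x : Fin k) (L : List (Fin k × Bool)) (n : ℕ)
    (h : L.countP (fun l => l.1 = x) = n + 1) :
    ∃ (r : F k) (b : Bool) (M : List (Fin k × Bool)), r ∈ F0 x ∧
      M.countP (fun l => l.1 = x) = n ∧
      FreeGroup.mk L = r * (if b then FreeGroup.of x else (FreeGroup.of x)⁻¹) * FreeGroup.mk M := by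
  induction L with
  | nil => simp at h
  | cons a L ih =>
    have e : FreeGroup.mk (a :: L) = FreeGroup.mk [a] * FreeGroup.mk L := by
      rw [FreeGroup.mul_mk]; rfl
    rw [List.countP_cons] at h
    by_cases ha : a.1 = x
    · obtain ⟨j, b⟩ := a
      simp only at ha
      subst ha
      refine ⟨1, b, L, (F0 j).one_mem, by simpa using h, ?_⟩
      rw [e, one_mul]
      cases b <;> rfl
    · have hL : L.countP (fun l => l.1 = x) = n + 1 := by simpa [ha] using h
      obtain ⟨r, b, M, hr, hM, hE⟩ := ih hL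
      refine ⟨FreeGroup.mk [a] * r, b, M, (F0 x).mul_mem (mk_mem_F0 x [a] (by simp [ha])) hr,
        hM, ?_⟩
      rw [e, hE]
      simp only [mul_assoc]

theorem three_le_occ (hk : 3 ≤ k) (x : Fin k) (g : F k) (hg : g ∈ orbit (cubes k))
    (h0 : 0 < occ x g) : 3 ≤ occ x g := by
  obtain ⟨φ, rfl⟩ := hg
  by_contra hlt
  have hdv := expo_dvd φ x
  have hx : expo x (FreeGroup.of x) = Multiplicative.ofAdd 1 := by rw [expo_of, if_pos rfl]
  have hcases : occ x (φ (cubes k)) = 0 + 1 ∨ occ x (φ (cubes k)) = 1 + 1 := by omega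
  unfold occ at hcases
  rcases hcases with h | h
  · obtain ⟨r, b, M, hr, hM, hE⟩ := split_count x _ _ h
    rw [FreeGroup.mk_toWord] at hE
    rw [hE, map_mul (expo x), map_mul (expo x), expo_F0 x r hr,
      expo_F0 x _ (mk_mem_F0 x M hM)] at hdv
    cases b <;> simp [hx] at hdv
  · obtain ⟨r, b, M, hr, hM, hE⟩ := split_count x _ _ h
    obtain ⟨s, b', M', hs, hM', hE'⟩ := split_count x M 0 hM
    rw [FreeGroup.mk_toWord, hE'] at hE
    have ht := mk_mem_F0 x M' hM'
    set t := FreeGroup.mk M'
    cases b <;> cases b'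
    · rw [hE] at hdv
      simp [hx, expo_F0 x r hr, expo_F0 x s hs, expo_F0 x t ht] at hdv
    · simp only [Bool.false_eq_true, if_false, if_true] at hE
      refine keyA hk (φ.symm * MulAut.conj (r * (FreeGroup.of x)⁻¹ * s)) x (t * r) s
        ((F0 x).mul_mem ht hr) hs ?_
      rw [MulAut.mul_apply, MulAut.conj_apply]
      apply φ.injective
      change φ (φ.symm _) = _
      rw [MulEquiv.apply_symm_apply, hE]
      group
    · simp only [Bool.false_eq_true, if_false, if_true] at hE
      refine keyA hk (φ.symm * MulAut.conj r) x s (t * r) hs ((F0 x).mul_mem ht hr) ?_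
      rw [MulAut.mul_apply, MulAut.conj_apply]
      apply φ.injective
      change φ (φ.symm _) = _
      rw [MulEquiv.apply_symm_apply, hE]
      group
    · rw [hE] at hdv
      simp [hx, expo_F0 x r hr, expo_F0 x s hs, expo_F0 x t ht] at hdv

end Pool.Agent.H959Z.Orb
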